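import Mathlib

/-!
Two elementary lemmas on recursive inequalities.
-/

set_option autoImplicit false

namespace Pool.Agent.D0H29.PA

open Finset Filter Topology

lemma rpow_step {θ : ℝ} (hθ : 0 ≤ θ) {n : ℕ} (hn : 1 ≤ n) :
    (n : ℝ) ^ θ * (1 + θ / (n + 1)) ≤ ((n + 1 : ℕ) : ℝ) ^ θ := by
  have hn0 : (0:ℝ) < n := by exact_mod_cast hn
  have h1 : ((n + 1 : ℕ) : ℝ) = n * (1 + 1 / n) := by push_cast; field_simp
  rw [h1, Real.mul_rpow hn0.le (by positivity)]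
  refine mul_le_mul_of_nonneg_left ?_ (by positivity)
  have h2 : 1 / ((n:ℝ) + 1) ≤ Real.log (1 + 1 / n) := by
    have h3 := Real.log_le_sub_one_of_pos (x := (n:ℝ) / (n + 1)) (by positivity)
    have h4 : Real.log ((n:ℝ) / (n + 1)) = - Real.log (1 + 1 / n) := by
      rw [← Real.log_inv]; congr 1; field_simp
    rw [h4] at h3
    have h5 : (n:ℝ) / (n + 1) - 1 = - (1 / (n + 1)) := by field_simp; ring
    linarith
  calc 1 + θ / ((n:ℝ) + 1) = θ * (1 / (n + 1)) + 1 := by ring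
    _ ≤ θ * Real.log (1 + 1 / n) + 1 := by gcongr
    _ ≤ Real.exp (θ * Real.log (1 + 1 / n)) := Real.add_one_le_exp _
    _ = (1 + 1 / (n:ℝ)) ^ θ := by
      rw [Real.rpow_def_of_pos (by positivity), mul_comm]

lemma grow {a : ℕ → ℝ} {α θ C : ℝ} (hα : 0 ≤ α) (hθ : α < θ) (hC : 0 ≤ C) {n0 : ℕ}
    (h : ∀ n : ℕ, n0 ≤ n → a (n + 1) ≤ (1 + α / n) * a n + C * (n : ℝ) ^ (θ - 1)) :
    ∃ A : ℝ, 0 ≤ A ∧ ∀ n : ℕ, 1 ≤ n → a n ≤ A * (n : ℝ) ^ θ := by
  have hθ0 : 0 < θ := lt_of_le_of_lt hα hθ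
  obtain ⟨N1, hN1⟩ : ∃ N1 : ℕ, ∀ n : ℕ, N1 ≤ n → (θ - α) / 2 ≤ θ * n / (n + 1) - α := by
    obtain ⟨N1, hN1⟩ := exists_nat_ge (2 * θ / (θ - α))
    refine ⟨N1, fun n hn => ?_⟩
    have hd : 0 < θ - α := by linarith
    have h1 : 2 * θ / (θ - α) ≤ n + 1 := by
      have : (N1:ℝ) ≤ n := by exact_mod_cast hn
      linarith
    rw [div_le_iff₀ hd] at h1
    have h2 : θ * n / ((n:ℝ) + 1) = θ - θ / (n + 1) := by field_simp; ring
    have h3 : θ / ((n:ℝ) + 1) ≤ (θ - α) / 2 := by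
      rw [div_le_iff₀ (by positivity)]; linarith
    linarith
  set N := max (max n0 N1) 1 with hN
  set A := 2 * C / (θ - α) + ∑ k ∈ range (N + 1), |a k| with hA
  have hd : 0 < θ - α := by linarith
  have hA0 : 0 ≤ A := by positivity
  have hA1 : 2 * C / (θ - α) ≤ A := by
    have : 0 ≤ ∑ k ∈ range (N + 1), |a k| := sum_nonneg fun k _ => abs_nonneg _
    linarith
  have small : ∀ n : ℕ, 1 ≤ n → n ≤ N → a n ≤ A * (n : ℝ) ^ θ := by
    intro n hn hnN
    have h1 : |a n| ≤ ∑ k ∈ range (N + 1), |a k| :=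
      single_le_sum (f := fun k => |a k|) (fun k _ => abs_nonneg _) (mem_range.2 (by omega))
    have h2 : (1:ℝ) ≤ (n:ℝ) ^ θ := Real.one_le_rpow (by exact_mod_cast hn) hθ0.le
    have h3 : 0 ≤ 2 * C / (θ - α) := by positivity
    calc a n ≤ |a n| := le_abs_self _
      _ ≤ A := by linarith
      _ ≤ A * (n:ℝ) ^ θ := le_mul_of_one_le_right hA0 h2
  refine ⟨A, hA0, fun n hn => ?_⟩
  rcases le_total n N with hnN | hnN
  · exact small n hn hnN
  · induction n, hnN using Nat.le_induction with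
    | base => exact small N hn le_rfl
    | succ n hnN ih =>
      have hn1 : 1 ≤ n := le_trans (le_max_right _ _) hnN
      have hn0 : n0 ≤ n := le_trans (le_trans (le_max_left _ _) (le_max_left _ _)) hnN
      have hnN1 : N1 ≤ n := le_trans (le_trans (le_max_right _ _) (le_max_left _ _)) hnN
      have hnp : (0:ℝ) < n := by exact_mod_cast hn1
      refine le_trans (h n hn0) ?_
      refine le_trans ?_ (mul_le_mul_of_nonneg_left (rpow_step hθ0.le hn1) hA0)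
      have e1 : (n:ℝ) ^ (θ - 1) = (n:ℝ) ^ θ / n := by
        rw [Real.rpow_sub hnp, Real.rpow_one]
      rw [e1]
      have hp : 0 < (n:ℝ) ^ θ := by positivity
      have k1 : (1 + α / n) * a n ≤ (1 + α / n) * (A * (n:ℝ) ^ θ) :=
        mul_le_mul_of_nonneg_left (ih hn1) (by positivity)
      have k2 : C ≤ A * (θ * n / (n + 1) - α) := by
        have h5 : C = (2 * C / (θ - α)) * ((θ - α) / 2) := by field_simp
        rw [h5]
        exact mul_le_mul hA1 (hN1 n hnN1) (by linarith) hA0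
      have k3 : (n:ℝ) ^ θ / n * C ≤ (n:ℝ) ^ θ / n * (A * (θ * n / (n + 1) - α)) :=
        mul_le_mul_of_nonneg_left k2 (by positivity)
      have e2 : (n:ℝ) ^ θ / n * (A * (θ * n / (n + 1) - α)) =
          A * ((n:ℝ) ^ θ * (1 + θ / (n + 1))) - (1 + α / n) * (A * (n:ℝ) ^ θ) := by
        field_simp
        ring
      rw [e2] at k3
      have : C * ((n:ℝ) ^ θ / n) = (n:ℝ) ^ θ / n * C := by ring
      rw [this]
      linarith

lemma sum_rpow {η : ℝ} (hη : 0 < η) : ∃ B : ℝ, 0 ≤ B ∧ ∀ n : ℕ, ∑ k ∈ range n, (k : ℝ) ^ (-1 - η) ≤ B := by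
  have hs : Summable (fun k : ℕ => (k : ℝ) ^ (-1 - η)) := Real.summable_nat_rpow.2 (by linarith)
  refine ⟨∑' k : ℕ, (k : ℝ) ^ (-1 - η), tsum_nonneg fun k => by positivity, fun n => ?_⟩
  exact hs.sum_le_tsum _ fun k _ => by positivity

end Pool.Agent.D0H29.PA
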