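import Mathlib

/-!
Expectations over `m` independent draws from a finite set, written as finite sums.
-/

set_option autoImplicit false

namespace Pool.Agent.D0H29.PA

open Finset

/-- expectation of `G` over `m` independent draws from the set `s` with weights `p` -/
noncomputable def EE (m : ℕ) (s : Finset ℕ) (p : ℕ → ℝ) (G : (Fin m → ℕ) → ℝ) : ℝ :=
  ∑ f ∈ Fintype.piFinset (fun _ : Fin m => s), (∏ i, p (f i)) * G f

variable {m : ℕ} {s : Finset ℕ} {p : ℕ → ℝ}

lemma EE_add (G H : (Fin m → ℕ) → ℝ) : EE m s p (fun f => G f + H f) = EE m s p G + EE m s p H := by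
  unfold EE; rw [← sum_add_distrib]; exact sum_congr rfl fun f _ => by ring

lemma EE_sub (G H : (Fin m → ℕ) → ℝ) : EE m s p (fun f => G f - H f) = EE m s p G - EE m s p H := by
  unfold EE; rw [← sum_sub_distrib]; exact sum_congr rfl fun f _ => by ring

lemma EE_mul (c : ℝ) (G : (Fin m → ℕ) → ℝ) : EE m s p (fun f => c * G f) = c * EE m s p G := by
  unfold EE; rw [mul_sum]; exact sum_congr rfl fun f _ => by ring

lemma EE_sum {ι : Type*} (t : Finset ι) (G : ι → (Fin m → ℕ) → ℝ) :
    EE m s p (fun f => ∑ i ∈ t, G i f) = ∑ i ∈ t, EE m s p (G i) := by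
  unfold EE
  rw [sum_comm]
  exact sum_congr rfl fun f _ => by rw [mul_sum]

lemma EE_congr {G H : (Fin m → ℕ) → ℝ} (h : ∀ f : Fin m → ℕ, (∀ i, f i ∈ s) → G f = H f) :
    EE m s p G = EE m s p H := by
  unfold EE
  exact sum_congr rfl fun f hf => by rw [h f (by simpa using hf)]

lemma EE_mono (hp : ∀ v ∈ s, 0 ≤ p v) {G H : (Fin m → ℕ) → ℝ}
    (h : ∀ f : Fin m → ℕ, (∀ i, f i ∈ s) → G f ≤ H f) : EE m s p G ≤ EE m s p H := by
  unfold EE
  refine sum_le_sum fun f hf => ?_
  have hf' : ∀ i, f i ∈ s := by simpa using hf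
  exact mul_le_mul_of_nonneg_left (h f hf') (prod_nonneg fun i _ => hp _ (hf' i))

lemma EE_const (h1 : ∑ v ∈ s, p v = 1) (c : ℝ) : EE m s p (fun _ => c) = c := by
  unfold EE
  rw [← sum_mul, ← Finset.prod_univ_sum (fun _ => s) (fun _ v => p v)]
  simp [h1]

lemma EE_nonneg (hp : ∀ v ∈ s, 0 ≤ p v) {G : (Fin m → ℕ) → ℝ}
    (h : ∀ f : Fin m → ℕ, (∀ i, f i ∈ s) → 0 ≤ G f) : 0 ≤ EE m s p G := by
  unfold EE
  refine sum_nonneg fun f hf => ?_
  have hf' : ∀ i, f i ∈ s := by simpa using hf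
  exact mul_nonneg (prod_nonneg fun i _ => hp _ (hf' i)) (h f hf')

lemma EE_zero (G : (Fin 0 → ℕ) → ℝ) : EE 0 s p G = G Fin.elim0 := by
  unfold EE
  rw [Fintype.piFinset_of_isEmpty]
  simp only [Finset.univ_eq_empty, Finset.prod_empty, one_mul]
  rw [Fintype.sum_unique]
  congr 1

lemma EE_succ (G : (Fin (m + 1) → ℕ) → ℝ) :
    EE (m + 1) s p G = ∑ v ∈ s, p v * EE m s p (fun f => G (Fin.cons v f : Fin (m + 1) → ℕ)) := by
  unfold EE
  simp_rw [mul_sum]
  rw [← sum_product' s (Fintype.piFinset (fun _ : Fin m => s))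
    (fun v f => p v * ((∏ i, p (f i)) * G (Fin.cons v f : Fin (m + 1) → ℕ)))]
  refine sum_nbij' (fun f => (f 0, Fin.tail f)) (fun x => (Fin.cons x.1 x.2 : Fin (m + 1) → ℕ))
    ?_ ?_ ?_ ?_ ?_
  · intro f hf
    rw [Fintype.mem_piFinset] at hf
    rw [mem_product, Fintype.mem_piFinset]
    exact ⟨hf 0, fun i => hf i.succ⟩
  · intro x hx
    rw [mem_product, Fintype.mem_piFinset] at hx
    rw [Fintype.mem_piFinset]
    intro i
    refine Fin.cases ?_ (fun j => ?_) i
    · exact hx.1
    · exact hx.2 j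
  · intro f _; exact Fin.cons_self_tail f
  · intro x _; simp [Fin.tail_cons]
  · intro f _
    simp only [Fin.cons_self_tail]
    rw [Fin.prod_univ_succ, mul_assoc]
    rfl

/-- marginals -/
lemma EE_marg {r : ℕ} (h1 : ∑ v ∈ s, p v = 1) (τ : Fin r → Fin m) (hτ : Function.Injective τ)
    (G : (Fin r → ℕ) → ℝ) : EE m s p (fun f => G (fun k => f (τ k))) = EE r s p G := by
  classical
  unfold EE
  have e1 : ∀ f ∈ Fintype.piFinset (fun _ : Fin m => s), (∏ i, p (f i)) * G (fun k => f (τ k)) =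
      ∑ g ∈ Fintype.piFinset (fun _ : Fin r => s),
        (∏ i, (p (f i) * ∏ k, if τ k = i then (if f i = g k then 1 else 0) else 1)) * G g := by
    intro f hf
    rw [Fintype.mem_piFinset] at hf
    rw [sum_eq_single (fun k => f (τ k))]
    · rw [prod_mul_distrib]
      have : ∏ i : Fin m, ∏ k : Fin r, (if τ k = i then (if f i = f (τ k) then (1:ℝ) else 0) else 1) = 1 := by
        refine prod_eq_one fun i _ => prod_eq_one fun k _ => ?_
        split_ifs with a b
        · rfl
        · exact absurd (by rw [a]) b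
        · rfl
      rw [this, mul_one]
    · intro g _ hg
      have : ∃ k, f (τ k) ≠ g k := by
        by_contra hc
        push Not at hc
        exact hg (funext fun k => (hc k).symm)
      obtain ⟨k, hk⟩ := this
      have hz : ∏ i, (p (f i) * ∏ k, if τ k = i then (if f i = g k then (1:ℝ) else 0) else 1) = 0 := by
        refine prod_eq_zero (mem_univ (τ k)) ?_
        have : ∏ k', (if τ k' = τ k then (if f (τ k) = g k' then (1:ℝ) else 0) else 1) = 0 :=
          prod_eq_zero (mem_univ k) (by simp [hk])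
        rw [this, mul_zero]
      rw [hz, zero_mul]
    · intro hn
      exact absurd (by rw [Fintype.mem_piFinset]; exact fun k => hf _) hn
  rw [sum_congr rfl e1, sum_comm]
  refine sum_congr rfl fun g hg => ?_
  rw [Fintype.mem_piFinset] at hg
  rw [← sum_mul]
  congr 1
  rw [← Finset.prod_univ_sum (fun _ => s)
    (fun i v => p v * ∏ k, if τ k = i then (if v = g k then (1:ℝ) else 0) else 1)]
  symm
  refine Fintype.prod_of_injective τ hτ _ _ ?_ ?_
  · intro i hi
    have : ∀ v ∈ s, p v * ∏ k, (if τ k = i then (if v = g k then (1:ℝ) else 0) else 1) = p v := by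
      intro v _
      rw [prod_eq_one, mul_one]
      intro k _
      rw [if_neg]
      exact fun h => hi ⟨k, h⟩
    rw [sum_congr rfl this, h1]
  · intro k
    rw [sum_eq_single (g k)]
    · rw [prod_eq_one, mul_one]
      intro k' _
      split_ifs with a b
      · rfl
      · exact absurd (by rw [hτ a]) b
      · rfl
    · intro v _ hv
      have : ∏ k', (if τ k' = τ k then (if v = g k' then (1:ℝ) else 0) else 1) = 0 :=
        prod_eq_zero (mem_univ k) (by simp [hv])
      rw [this, mul_zero]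
    · intro hn; exact absurd (hg k) hn

lemma EE_one (h1 : ∑ v ∈ s, p v = 1) (i : Fin m) (g : ℕ → ℝ) :
    EE m s p (fun f => g (f i)) = ∑ v ∈ s, p v * g v := by
  have := EE_marg (m := m) h1 (fun _ : Fin 1 => i) (fun a b _ => Subsingleton.elim a b)
    (fun f => g (f 0))
  rw [this, EE_succ]
  simp [EE_zero]

lemma EE_two (h1 : ∑ v ∈ s, p v = 1) {i j : Fin m} (hij : i ≠ j) (g : ℕ → ℕ → ℝ) :
    EE m s p (fun f => g (f i) (f j)) = ∑ a ∈ s, p a * ∑ b ∈ s, p b * g a b := by
  have := EE_marg (m := m) h1 ![i, j] (by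
    intro a b h
    fin_cases a <;> fin_cases b <;> simp_all) (fun f => g (f 0) (f 1))
  simp only [Matrix.cons_val_zero, Matrix.cons_val_one] at this
  rw [this, EE_succ]
  refine sum_congr rfl fun a _ => ?_
  rw [EE_succ]
  simp [EE_zero]

lemma EE_three (h1 : ∑ v ∈ s, p v = 1) {i j k : Fin m} (hij : i ≠ j) (hik : i ≠ k) (hjk : j ≠ k)
    (g : ℕ → ℕ → ℕ → ℝ) :
    EE m s p (fun f => g (f i) (f j) (f k)) =
      ∑ a ∈ s, p a * ∑ b ∈ s, p b * ∑ c ∈ s, p c * g a b c := by
  have := EE_marg (m := m) h1 ![i, j, k] (by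
    intro a b h
    fin_cases a <;> fin_cases b <;> simp_all) (fun f => g (f 0) (f 1) (f 2))
  simp only [Matrix.cons_val_zero, Matrix.cons_val_one, Matrix.cons_val_two, Matrix.tail_cons,
    Matrix.head_cons] at this
  rw [this, EE_succ]
  refine sum_congr rfl fun a _ => ?_
  rw [EE_succ]
  congr 1
  refine sum_congr rfl fun b _ => ?_
  rw [EE_succ]
  congr 1
  exact sum_congr rfl fun c _ => by rw [EE_zero]; rfl

lemma EE_four (h1 : ∑ v ∈ s, p v = 1) {i j k l : Fin m} (hij : i ≠ j) (hik : i ≠ k) (hil : i ≠ l)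
    (hjk : j ≠ k) (hjl : j ≠ l) (hkl : k ≠ l)
    (g : ℕ → ℕ → ℕ → ℕ → ℝ) :
    EE m s p (fun f => g (f i) (f j) (f k) (f l)) =
      ∑ a ∈ s, p a * ∑ b ∈ s, p b * ∑ c ∈ s, p c * ∑ d ∈ s, p d * g a b c d := by
  have := EE_marg (m := m) h1 ![i, j, k, l] (by
    intro a b h
    fin_cases a <;> fin_cases b <;> simp_all) (fun f => g (f 0) (f 1) (f 2) (f 3))
  simp only [Matrix.cons_val_zero, Matrix.cons_val_one, Matrix.cons_val_two, Matrix.tail_cons,
    Matrix.head_cons, Matrix.cons_val_three] at this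
  rw [this, EE_succ]
  refine sum_congr rfl fun a _ => ?_
  rw [EE_succ]
  congr 1
  refine sum_congr rfl fun b _ => ?_
  rw [EE_succ]
  congr 1
  refine sum_congr rfl fun c _ => ?_
  rw [EE_succ]
  congr 1
  exact sum_congr rfl fun c _ => by rw [EE_zero]; rfl

end Pool.Agent.D0H29.PA
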