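import Mathlib
import Pool.Agent.D0H29.PA.Iid

/-!
Counts, first and second moments, and iterated one-draw inequalities for independent draws.
-/

set_option autoImplicit false

namespace Pool.Agent.D0H29.PA

open Finset

/-- the number of draws equal to `v` -/
noncomputable def ct {m : ℕ} (f : Fin m → ℕ) (v : ℕ) : ℝ := ∑ i, if f i = v then 1 else 0

variable {m : ℕ} {s : Finset ℕ} {p : ℕ → ℝ}

lemma ct_nonneg (f : Fin m → ℕ) (v : ℕ) : 0 ≤ ct f v :=
  sum_nonneg fun i _ => by split_ifs <;> norm_num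

lemma ct_le (f : Fin m → ℕ) (v : ℕ) : ct f v ≤ m := by
  unfold ct
  calc _ ≤ ∑ _i : Fin m, (1:ℝ) := sum_le_sum fun i _ => by split_ifs <;> norm_num
    _ = m := by simp

lemma ct_sum {f : Fin m → ℕ} (hf : ∀ i, f i ∈ s) (g : ℕ → ℝ) :
    ∑ v ∈ s, g v * ct f v = ∑ i, g (f i) := by
  unfold ct
  simp_rw [mul_sum]
  rw [sum_comm]
  refine sum_congr rfl fun i _ => ?_
  rw [sum_eq_single (f i)]
  · simp
  · intro v _ hv; simp [Ne.symm hv]
  · intro h; exact absurd (hf i) h

lemma ct_sum2 {f : Fin m → ℕ} (hf : ∀ i, f i ∈ s) (g : ℕ → ℕ → ℝ) :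
    ∑ u ∈ s, ∑ v ∈ s, g u v * (ct f u * ct f v) = ∑ i, ∑ j, g (f i) (f j) := by
  have : ∀ u ∈ s, ∑ v ∈ s, g u v * (ct f u * ct f v) = (∑ j, g u (f j)) * ct f u := by
    intro u _
    rw [← ct_sum hf (g u), sum_mul]
    exact sum_congr rfl fun v _ => by ring
  rw [sum_congr rfl this, ct_sum hf (fun u => ∑ j, g u (f j))]

lemma ct_sq {f : Fin m → ℕ} (hf : ∀ i, f i ∈ s) (g : ℕ → ℝ) :
    ∑ v ∈ s, g v * ct f v ^ 2 = ∑ i, ∑ j, if f i = f j then g (f i) else 0 := by
  have : ∀ v ∈ s, g v * ct f v ^ 2 = (g v * ct f v) * ct f v := fun v _ => by ring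
  rw [sum_congr rfl this, ct_sum hf]
  refine sum_congr rfl fun i _ => ?_
  unfold ct
  rw [mul_sum]
  refine sum_congr rfl fun j _ => ?_
  by_cases h : f i = f j
  · simp [h]
  · simp [h, Ne.symm h]

lemma EE_single (h1 : ∑ v ∈ s, p v = 1) (g : ℕ → ℝ) :
    EE m s p (fun f => ∑ i, g (f i)) = m * ∑ v ∈ s, p v * g v := by
  rw [EE_sum]
  rw [sum_congr rfl (fun i _ => EE_one h1 i g)]
  simp

lemma EE_pairs (h1 : ∑ v ∈ s, p v = 1) (g : ℕ → ℕ → ℝ) :
    EE m s p (fun f => ∑ i, ∑ j, g (f i) (f j)) =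
      m * ∑ v ∈ s, p v * g v v + m * ((m : ℝ) - 1) * ∑ a ∈ s, p a * ∑ b ∈ s, p b * g a b := by
  classical
  rw [EE_sum]
  set A := ∑ v ∈ s, p v * g v v
  set B := ∑ a ∈ s, p a * ∑ b ∈ s, p b * g a b
  have h : ∀ i j : Fin m, EE m s p (fun f => g (f i) (f j)) = B + if i = j then A - B else 0 := by
    intro i j
    by_cases hij : i = j
    · subst hij
      rw [if_pos rfl, EE_one h1 i (fun v => g v v)]; ring
    · rw [if_neg hij, EE_two h1 hij]; ring
  have : ∀ i : Fin m, EE m s p (fun f => ∑ j, g (f i) (f j)) = m * B + (A - B) := by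
    intro i
    rw [EE_sum]
    simp_rw [h]
    rw [sum_add_distrib]
    simp
  rw [sum_congr rfl (fun i _ => this i)]
  simp
  ring

lemma ct_cons (v : ℕ) (f : Fin m → ℕ) :
    ct (Fin.cons v f : Fin (m + 1) → ℕ) = fun w => (if v = w then 1 else 0) + ct f w := by
  funext w
  unfold ct
  rw [Fin.sum_univ_succ]
  simp

/-- iterated one-draw inequality -/
lemma EE_super (hp : ∀ v ∈ s, 0 ≤ p v) (Φ : (ℕ → ℝ) → ℝ) {K : ℝ} (hK : 0 ≤ K) (x : ℕ → ℝ)
    (h : ∀ y : ℕ → ℝ, (∀ v, x v ≤ y v) →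
      ∑ v ∈ s, p v * Φ (fun w => y w + if v = w then 1 else 0) ≤ K * Φ y) (r : ℕ) :
    ∀ y : ℕ → ℝ, (∀ v, x v ≤ y v) → EE r s p (fun f => Φ (fun w => y w + ct f w)) ≤ K ^ r * Φ y := by
  induction r with
  | zero =>
    intro y _
    rw [EE_zero]
    have : (fun w => y w + ct (Fin.elim0 : Fin 0 → ℕ) w) = y := by
      funext w; simp [ct]
    rw [this]; simp
  | succ r ih =>
    intro y hy
    rw [EE_succ]
    have hstep : ∀ v ∈ s, p v * EE r s p (fun f => Φ (fun w => y w + ct (Fin.cons v f : Fin (r + 1) → ℕ) w)) ≤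
        p v * (K ^ r * Φ (fun w => y w + if v = w then 1 else 0)) := by
      intro v hv
      refine mul_le_mul_of_nonneg_left ?_ (hp v hv)
      have := ih (fun w => y w + if v = w then 1 else 0) (fun w => by
        have := hy w
        split_ifs <;> linarith)
      refine le_trans (le_of_eq ?_) this
      congr 1
      funext f
      rw [ct_cons]
      congr 1
      funext w
      ring
    refine le_trans (sum_le_sum hstep) ?_
    have e : ∑ v ∈ s, p v * (K ^ r * Φ (fun w => y w + if v = w then 1 else 0)) =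
        K ^ r * ∑ v ∈ s, p v * Φ (fun w => y w + if v = w then 1 else 0) := by
      rw [mul_sum]; exact sum_congr rfl fun v _ => by ring
    rw [e, pow_succ, mul_assoc]
    exact mul_le_mul_of_nonneg_left (h y hy) (pow_nonneg hK r)

/-- the one-draw inequality for a pair functional -/
lemma pair_step {c : ℕ → ℕ → ℝ} (hc : ∀ u v, 0 ≤ c u v) (hsym : ∀ u v, c u v = c v u)
    (hdiag : ∀ v, c v v = 0) {g : ℝ → ℝ} {κ L : ℝ} (hL : 0 < L)
    (hg0 : ∀ t, 0 ≤ t → 0 ≤ g t) (hg1 : ∀ t, 0 ≤ t → g t ≤ g (t + 1))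
    (hg : ∀ t, 0 ≤ t → t * (g (t + 1) - g t) = κ * g t) {x y : ℕ → ℝ} (hx : ∀ v, 0 ≤ x v)
    (hxy : ∀ v, x v ≤ y v) (h1 : ∑ v ∈ s, x v / L = 1) :
    ∑ w ∈ s, x w / L * (∑ u ∈ s, ∑ v ∈ s, c u v * (g (y u + if w = u then 1 else 0) *
      g (y v + if w = v then 1 else 0))) ≤
      (1 + 2 * κ / L) * ∑ u ∈ s, ∑ v ∈ s, c u v * (g (y u) * g (y v)) := by
  set Φ := ∑ u ∈ s, ∑ v ∈ s, c u v * (g (y u) * g (y v)) with hΦ
  have hy : ∀ v, 0 ≤ y v := fun v => (hx v).trans (hxy v)
  have key : ∀ w ∈ s, ∑ u ∈ s, ∑ v ∈ s, c u v * (g (y u + if w = u then 1 else 0) *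
      g (y v + if w = v then 1 else 0)) = Φ + 2 * ((g (y w + 1) - g (y w)) * ∑ v ∈ s, c w v * g (y v)) := by
    intro w hw
    have t : ∀ u v, c u v * (g (y u + if w = u then 1 else 0) * g (y v + if w = v then 1 else 0)) =
        c u v * (g (y u) * g (y v)) + (if w = u then (g (y w + 1) - g (y w)) * (c w v * g (y v)) else 0) +
          (if w = v then (g (y w + 1) - g (y w)) * (c w u * g (y u)) else 0) := by
      intro u v
      by_cases h1 : w = u <;> by_cases h2 : w = v
      · subst h1; subst h2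
        simp [hdiag]
      · subst h1; simp [h2]; ring
      · subst h2; simp [h1]; rw [hsym u w]; ring
      · simp [h1, h2]
    simp_rw [t, sum_add_distrib]
    rw [← hΦ]
    have a1 : ∑ u ∈ s, ∑ v ∈ s, (if w = u then (g (y w + 1) - g (y w)) * (c w v * g (y v)) else 0) =
        (g (y w + 1) - g (y w)) * ∑ v ∈ s, c w v * g (y v) := by
      rw [sum_comm, mul_sum]
      refine sum_congr rfl fun v _ => ?_
      rw [sum_ite_eq]; simp [hw]
    have a2 : ∑ u ∈ s, ∑ v ∈ s, (if w = v then (g (y w + 1) - g (y w)) * (c w u * g (y u)) else 0) =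
        (g (y w + 1) - g (y w)) * ∑ v ∈ s, c w v * g (y v) := by
      rw [mul_sum]
      refine sum_congr rfl fun v _ => ?_
      rw [sum_ite_eq]; simp [hw]
    rw [a1, a2]; ring
  have hs : ∑ w ∈ s, x w / L * (∑ u ∈ s, ∑ v ∈ s, c u v * (g (y u + if w = u then 1 else 0) *
      g (y v + if w = v then 1 else 0))) = Φ + ∑ w ∈ s, x w / L * (2 * ((g (y w + 1) - g (y w)) *
        ∑ v ∈ s, c w v * g (y v))) := by
    rw [sum_congr rfl (fun w hw => by rw [key w hw, mul_add]), sum_add_distrib, ← sum_mul, h1, one_mul]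
  rw [hs]
  have hb : ∀ w ∈ s, x w / L * (2 * ((g (y w + 1) - g (y w)) * ∑ v ∈ s, c w v * g (y v))) ≤
      2 * κ / L * ∑ v ∈ s, c w v * (g (y w) * g (y v)) := by
    intro w _
    have n1 : 0 ≤ ∑ v ∈ s, c w v * g (y v) := sum_nonneg fun v _ => mul_nonneg (hc _ _) (hg0 _ (hy v))
    have n2 : 0 ≤ g (y w + 1) - g (y w) := by linarith [hg1 _ (hy w)]
    have n3 := hg (y w) (hy w)
    calc _ ≤ y w / L * (2 * ((g (y w + 1) - g (y w)) * ∑ v ∈ s, c w v * g (y v))) := by
          refine mul_le_mul_of_nonneg_right ?_ (by positivity)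
          exact div_le_div_of_nonneg_right (hxy w) hL.le
      _ = 2 / L * ((y w * (g (y w + 1) - g (y w))) * ∑ v ∈ s, c w v * g (y v)) := by ring
      _ = 2 * κ / L * (g (y w) * ∑ v ∈ s, c w v * g (y v)) := by rw [n3]; ring
      _ = _ := by
        rw [mul_sum]
        congr 1
        exact sum_congr rfl fun v _ => by ring
  have := sum_le_sum hb
  rw [← mul_sum] at this
  rw [← hΦ] at this
  linarith

/-- the one-draw inequality for a sum over the vertices -/
lemma sing_step {g : ℝ → ℝ} {κ L : ℝ} (hL : 0 < L)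
    (hg1 : ∀ t, 0 ≤ t → g t ≤ g (t + 1))
    (hg : ∀ t, 0 ≤ t → t * (g (t + 1) - g t) = κ * g t) {x y : ℕ → ℝ} (hx : ∀ v, 0 ≤ x v)
    (hxy : ∀ v, x v ≤ y v) (h1 : ∑ v ∈ s, x v / L = 1) :
    ∑ w ∈ s, x w / L * (∑ u ∈ s, g (y u + if w = u then 1 else 0)) ≤
      (1 + κ / L) * ∑ u ∈ s, g (y u) := by
  have hy : ∀ v, 0 ≤ y v := fun v => (hx v).trans (hxy v)
  have key : ∀ w ∈ s, ∑ u ∈ s, g (y u + if w = u then 1 else 0) =
      (∑ u ∈ s, g (y u)) + (g (y w + 1) - g (y w)) := by
    intro w hw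
    have t : ∀ u, g (y u + if w = u then 1 else 0) =
        g (y u) + (if w = u then (g (y w + 1) - g (y w)) else 0) := by
      intro u
      by_cases h1 : w = u
      · subst h1; simp
      · simp [h1]
    simp_rw [t, sum_add_distrib, sum_ite_eq, if_pos hw]
  rw [sum_congr rfl (fun w hw => by rw [key w hw, mul_add]), sum_add_distrib, ← sum_mul, h1, one_mul]
  have hb : ∀ w ∈ s, x w / L * (g (y w + 1) - g (y w)) ≤ κ / L * g (y w) := by
    intro w _
    have n2 : 0 ≤ g (y w + 1) - g (y w) := by linarith [hg1 _ (hy w)]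
    have n3 := hg (y w) (hy w)
    calc _ ≤ y w / L * (g (y w + 1) - g (y w)) :=
          mul_le_mul_of_nonneg_right (div_le_div_of_nonneg_right (hxy w) hL.le) n2
      _ = (y w * (g (y w + 1) - g (y w))) / L := by ring
      _ = κ / L * g (y w) := by rw [n3]; ring
  have := sum_le_sum hb
  rw [← mul_sum] at this
  linarith

/-- second factorial moment of the number of new triangles -/
lemma EE_fact (hp : ∀ v ∈ s, 0 ≤ p v) (h1 : ∑ v ∈ s, p v = 1) {M : ℕ → ℕ → ℝ}
    (hM : ∀ u v, 0 ≤ M u v) (hsym : ∀ u v, M u v = M v u) (hdiag : ∀ v, M v v = 0)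
    (hint : ∀ u v, M u v ≤ M u v ^ 2) :
    EE m s p (fun f => (∑ i, ∑ j, M (f i) (f j) / 2) * ((∑ i, ∑ j, M (f i) (f j) / 2) - 1)) ≤
      m ^ 2 * (∑ a ∈ s, p a * ∑ b ∈ s, p b * (M a b ^ 2 - M a b)) +
        m ^ 4 * (∑ a ∈ s, p a * (∑ b ∈ s, p b * M a b) ^ 2 +
          (∑ a ∈ s, p a * ∑ b ∈ s, p b * M a b) ^ 2) := by
  classical
  set X := ∑ a ∈ s, p a * ∑ b ∈ s, p b * (M a b ^ 2 - M a b) with hX
  set k3 := ∑ a ∈ s, p a * (∑ b ∈ s, p b * M a b) ^ 2 with hk3
  set k4 := (∑ a ∈ s, p a * ∑ b ∈ s, p b * M a b) ^ 2 with hk4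
  have k3n : 0 ≤ k3 := sum_nonneg fun a ha => mul_nonneg (hp a ha) (sq_nonneg _)
  have k4n : 0 ≤ k4 := sq_nonneg _
  have hXn : 0 ≤ X := sum_nonneg fun a ha => mul_nonneg (hp a ha)
    (sum_nonneg fun b hb => mul_nonneg (hp b hb) (by linarith [hint a b]))
  -- three indices
  have three : ∀ i j k : Fin m, i ≠ j → i ≠ k → j ≠ k →
      EE m s p (fun f => M (f i) (f j) * M (f i) (f k)) = k3 := by
    intro i j k hij hik hjk
    rw [EE_three h1 hij hik hjk (fun a b c => M a b * M a c), hk3]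
    refine sum_congr rfl fun a _ => ?_
    rw [sq, sum_mul]
    congr 1
    refine sum_congr rfl fun b _ => ?_
    rw [mul_assoc, mul_sum, mul_sum, mul_sum]
    refine sum_congr rfl fun c _ => by ring
  have pt : ∀ i j k l : Fin m, EE m s p (fun f => M (f i) (f j) * M (f k) (f l)) ≤
      (if k = i ∧ l = j then EE m s p (fun f => M (f i) (f j) ^ 2) else 0) +
      (if k = j ∧ l = i then EE m s p (fun f => M (f i) (f j) ^ 2) else 0) + (k3 + k4) := by
    intro i j k l
    have sqn : 0 ≤ EE m s p (fun f => M (f i) (f j) ^ 2) :=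
      EE_nonneg hp fun f _ => sq_nonneg _
    by_cases hij : i = j
    · subst hij
      have : EE m s p (fun f => M (f i) (f i) * M (f k) (f l)) = 0 := by
        simp_rw [hdiag, zero_mul]; exact EE_const h1 0
      rw [this]
      split_ifs <;> positivity
    by_cases hkl : k = l
    · subst hkl
      have : EE m s p (fun f => M (f i) (f j) * M (f k) (f k)) = 0 := by
        simp_rw [hdiag, mul_zero]; exact EE_const h1 0
      rw [this]
      split_ifs <;> positivity
    by_cases ha : k = i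
    · subst ha
      by_cases hb : l = j
      · subst hb
        simp only [and_self, if_true]
        have : EE m s p (fun f => M (f k) (f l) * M (f k) (f l)) = EE m s p (fun f => M (f k) (f l) ^ 2) := by
          congr 1; funext f; ring
        rw [this]
        split_ifs <;> linarith
      · rw [three k j l hij hkl (Ne.symm hb)]
        split_ifs <;> linarith
    by_cases hb : k = j
    · subst hb
      by_cases hc : l = i
      · subst hc
        have : EE m s p (fun f => M (f l) (f k) * M (f k) (f l)) = EE m s p (fun f => M (f l) (f k) ^ 2) := by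
          congr 1; funext f; rw [hsym (f k) (f l)]; ring
        rw [this]
        simp only [and_self, if_true]
        split_ifs <;> linarith
      · have : EE m s p (fun f => M (f i) (f k) * M (f k) (f l)) =
            EE m s p (fun f => M (f k) (f i) * M (f k) (f l)) := by
          congr 1; funext f; rw [hsym (f i) (f k)]
        rw [this, three k i l (Ne.symm hij) hkl (Ne.symm hc)]
        split_ifs <;> linarith
    by_cases hc : l = i
    · subst hc
      have : EE m s p (fun f => M (f l) (f j) * M (f k) (f l)) =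
            EE m s p (fun f => M (f l) (f j) * M (f l) (f k)) := by
          congr 1; funext f; rw [hsym (f k) (f l)]
      rw [this, three l j k hij (Ne.symm ha) (Ne.symm hb)]
      split_ifs <;> linarith
    by_cases hd : l = j
    · subst hd
      have : EE m s p (fun f => M (f i) (f l) * M (f k) (f l)) =
            EE m s p (fun f => M (f l) (f i) * M (f l) (f k)) := by
          congr 1; funext f; rw [hsym (f k) (f l), hsym (f i) (f l)]
      rw [this, three l i k (Ne.symm hij) (Ne.symm hkl) (Ne.symm ha)]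
      split_ifs <;> linarith
    · rw [EE_four h1 hij (Ne.symm ha) (Ne.symm hc) (Ne.symm hb) (Ne.symm hd) hkl
        (fun a b c d => M a b * M c d)]
      have : ∑ a ∈ s, p a * ∑ b ∈ s, p b * ∑ c ∈ s, p c * ∑ d ∈ s, p d * (M a b * M c d) = k4 := by
        rw [hk4, sq, sum_mul]
        refine sum_congr rfl fun a _ => ?_
        rw [mul_assoc]
        congr 1
        rw [sum_mul]
        refine sum_congr rfl fun b _ => ?_
        rw [mul_assoc]
        congr 1
        rw [mul_sum]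
        refine sum_congr rfl fun c _ => ?_
        rw [mul_sum, mul_sum, mul_sum]
        refine sum_congr rfl fun d _ => by ring
      rw [this]
      split_ifs <;> linarith
  -- expansion
  have e1 : EE m s p (fun f => (∑ i, ∑ j, M (f i) (f j) / 2) * ((∑ i, ∑ j, M (f i) (f j) / 2) - 1)) =
      (∑ i, ∑ j, ∑ k, ∑ l, EE m s p (fun f => M (f i) (f j) * M (f k) (f l))) / 4 -
        (∑ i, ∑ j, EE m s p (fun f => M (f i) (f j))) / 2 := by
    have : ∀ f : Fin m → ℕ, (∑ i, ∑ j, M (f i) (f j) / 2) * ((∑ i, ∑ j, M (f i) (f j) / 2) - 1) =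
        (1 / 4) * (∑ i, ∑ j, ∑ k, ∑ l, M (f i) (f j) * M (f k) (f l)) -
          (1 / 2) * (∑ i, ∑ j, M (f i) (f j)) := by
      intro f
      have a : ∑ i, ∑ j, ∑ k, ∑ l, M (f i) (f j) * M (f k) (f l) =
          (∑ i, ∑ j, M (f i) (f j)) * (∑ i, ∑ j, M (f i) (f j)) := by
        rw [sum_mul]
        refine sum_congr rfl fun i _ => ?_
        rw [sum_mul]
        refine sum_congr rfl fun j _ => ?_
        rw [mul_sum]
        refine sum_congr rfl fun k _ => ?_
        rw [mul_sum]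
      rw [a]
      have b : ∑ i, ∑ j, M (f i) (f j) / 2 = (∑ i, ∑ j, M (f i) (f j)) / 2 := by
        rw [sum_div]
        exact sum_congr rfl fun i _ => by rw [sum_div]
      rw [b]; ring
    simp_rw [this]
    rw [EE_sub, EE_mul, EE_mul, EE_sum, EE_sum]
    simp_rw [EE_sum]
    ring
  rw [e1]
  have b1 : ∑ i, ∑ j, ∑ k, ∑ l, EE m s p (fun f => M (f i) (f j) * M (f k) (f l)) ≤
      ∑ i : Fin m, ∑ j : Fin m, (2 * EE m s p (fun f => M (f i) (f j) ^ 2) + m ^ 2 * (k3 + k4)) := by
    refine sum_le_sum fun i _ => sum_le_sum fun j _ => ?_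
    refine le_trans (sum_le_sum fun k _ => sum_le_sum fun l _ => pt i j k l) ?_
    simp_rw [sum_add_distrib]
    have c1 : ∀ a b : Fin m, ∑ k : Fin m, ∑ l : Fin m, (if k = a ∧ l = b then EE m s p (fun f => M (f i) (f j) ^ 2) else 0) =
        EE m s p (fun f => M (f i) (f j) ^ 2) := by
      intro a b
      rw [sum_eq_single a, sum_eq_single b]
      · simp
      · intro l _ hl; simp [hl]
      · simp
      · intro k _ hk; simp [hk]
      · simp
    rw [c1, c1]
    simp
    apply le_of_eq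
    ring
  have b2 : ∑ i : Fin m, ∑ j : Fin m, (EE m s p (fun f => M (f i) (f j) ^ 2) -
      EE m s p (fun f => M (f i) (f j))) ≤ m ^ 2 * X := by
    have : ∀ i j : Fin m, EE m s p (fun f => M (f i) (f j) ^ 2) -
      EE m s p (fun f => M (f i) (f j)) ≤ X := by
      intro i j
      by_cases hij : i = j
      · subst hij
        simp_rw [hdiag]
        rw [EE_const h1, EE_const h1]
        simpa using hXn
      · rw [← EE_sub, EE_two h1 hij (fun a b => M a b ^ 2 - M a b)]
    calc _ ≤ ∑ i : Fin m, ∑ j : Fin m, X := sum_le_sum fun i _ => sum_le_sum fun j _ => this i j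
      _ = m ^ 2 * X := by simp; ring
  have e2 : ∑ i : Fin m, ∑ j : Fin m, (EE m s p (fun f => M (f i) (f j) ^ 2) -
      EE m s p (fun f => M (f i) (f j))) = (∑ i : Fin m, ∑ j : Fin m, EE m s p (fun f => M (f i) (f j) ^ 2)) -
      ∑ i : Fin m, ∑ j : Fin m, EE m s p (fun f => M (f i) (f j)) := by
    simp_rw [sum_sub_distrib]
  have e3 : ∑ i : Fin m, ∑ j : Fin m, (2 * EE m s p (fun f => M (f i) (f j) ^ 2) + m ^ 2 * (k3 + k4)) =
      2 * (∑ i : Fin m, ∑ j : Fin m, EE m s p (fun f => M (f i) (f j) ^ 2)) + m ^ 4 * (k3 + k4) := by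
    simp_rw [sum_add_distrib]
    simp [mul_sum]
    ring
  rw [e2] at b2
  rw [e3] at b1
  have m2 : (0:ℝ) ≤ m ^ 2 * X := by positivity
  have m4 : (0:ℝ) ≤ m ^ 4 * (k3 + k4) := by positivity
  linarith

end Pool.Agent.D0H29.PA
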