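import Mathlib
import Pool.Agent.D0H29.PA.Iid2

/-!
Instantaneous preferential attachment: histories, degrees, triangles, the expectation operator,
and the change of the statistics in one step.
-/

set_option autoImplicit false

namespace Pool.Agent.D0H29.PA

open Finset

/-- a history: the `ℓ`-th edge of the vertex `k` joins it to the vertex `e k ℓ` -/
abbrev Hist (m : ℕ) := ℕ → Fin m → ℕ

variable {m : ℕ}

/-- the number of edges which join `u` and `v` -/
def mult (e : Hist m) (u v : ℕ) : ℕ :=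
  if u = v then 0 else (univ.filter (fun ℓ => e (max u v) ℓ = min u v)).card

/-- the degree of `v` in the graph on the vertices `0, …, n - 1` -/
def deg (e : Hist m) (n v : ℕ) : ℕ := ∑ u ∈ range n, mult e u v

/-- the number of triangles of the graph on the vertices `0, …, n - 1` -/
def tri (e : Hist m) (n : ℕ) : ℕ :=
  ∑ c ∈ range n, ∑ b ∈ range c, ∑ a ∈ range b, mult e a b * mult e b c * mult e a c

/-- the edges of the vertices `1, …, n - 1` go to earlier vertices -/
def Valid (n : ℕ) (e : Hist m) : Prop := ∀ k, 1 ≤ k → k < n → ∀ ℓ, e k ℓ < k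

lemma mult_self (e : Hist m) (v : ℕ) : mult e v v = 0 := by simp [mult]

lemma mult_comm (e : Hist m) (u v : ℕ) : mult e u v = mult e v u := by
  unfold mult
  rw [max_comm, min_comm]
  simp only [eq_comm]

lemma mult_lt (e : Hist m) {u v : ℕ} (h : v < u) :
    mult e u v = (univ.filter (fun ℓ => e u ℓ = v)).card := by
  unfold mult
  rw [if_neg (by omega), max_eq_left h.le, min_eq_right h.le]

/-- the row of a vertex: its `m` edges -/
lemma mult_row (e : Hist m) {k : ℕ} (h : ∀ ℓ, e k ℓ < k) : ∑ v ∈ range k, mult e k v = m := by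
  have h1 : ∑ v ∈ range k, mult e k v = ∑ v ∈ range k, (univ.filter (fun ℓ => e k ℓ = v)).card :=
    sum_congr rfl fun v hv => mult_lt e (mem_range.1 hv)
  rw [h1, ← Finset.card_eq_sum_card_fiberwise (f := fun ℓ => e k ℓ) (s := univ) (t := range k)]
  · simp
  · intro ℓ _; simpa using h ℓ

lemma Valid.mono {e : Hist m} {n k : ℕ} (h : Valid n e) (hk : k ≤ n) : Valid k e :=
  fun j h1 h2 => h j h1 (by omega)

lemma deg_succ (e : Hist m) (n v : ℕ) : deg e (n + 1) v = deg e n v + mult e n v := by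
  unfold deg; rw [sum_range_succ]

lemma deg_new {e : Hist m} {n : ℕ} (hn : 1 ≤ n) (h : Valid (n + 1) e) : deg e (n + 1) n = m := by
  rw [deg_succ, mult_self, add_zero]
  unfold deg
  exact (sum_congr rfl fun u _ => mult_comm e u n).trans (mult_row e (h n hn (by omega)))

lemma sum_deg {e : Hist m} {n : ℕ} (hn : 1 ≤ n) (h : Valid n e) :
    ∑ v ∈ range n, deg e n v = 2 * m * (n - 1) := by
  induction n, hn using Nat.le_induction with
  | base => simp [deg, mult_self]
  | succ n hn ih =>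
    rw [sum_range_succ, deg_new hn h]
    simp_rw [deg_succ]
    rw [sum_add_distrib, ih (h.mono (by omega)), mult_row e (h n hn (by omega))]
    obtain ⟨k, rfl⟩ := Nat.exists_eq_add_of_le hn
    simp
    ring

lemma deg_ge {e : Hist m} {n v : ℕ} (hn : 2 ≤ n) (h : Valid n e) (hv : v < n) : m ≤ deg e n v := by
  rcases Nat.eq_zero_or_pos v with rfl | hv0
  · calc m = ∑ u ∈ range 1, mult e 1 u := (mult_row e (h 1 le_rfl (by omega))).symm
      _ = mult e 1 0 := by simp
      _ ≤ deg e n 0 := single_le_sum (f := fun u => mult e u 0) (fun _ _ => Nat.zero_le _)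
        (mem_range.2 (by omega))
  · calc m = ∑ u ∈ range v, mult e v u := (mult_row e (h v hv0 hv)).symm
      _ = ∑ u ∈ range v, mult e u v := sum_congr rfl fun u _ => mult_comm _ _ _
      _ ≤ deg e n v := sum_le_sum_of_subset (range_subset_range.2 hv.le)

/-! ### One more vertex -/

/-- the history with the vertex `n` added -/
def ext (e : Hist m) (n : ℕ) (f : Fin m → ℕ) : Hist m := Function.update e n f

lemma ext_valid {e : Hist m} {n : ℕ} (h : Valid n e) {f : Fin m → ℕ}
    (hf : ∀ i, f i < n) : Valid (n + 1) (ext e n f) := by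
  intro k h1 h2 ℓ
  unfold ext
  by_cases hk : k = n
  · subst hk; simpa using hf ℓ
  · rw [Function.update_of_ne hk]; exact h k h1 (by omega) ℓ

lemma ext_mult_old (e : Hist m) {n u v : ℕ} (f : Fin m → ℕ) (hu : u < n) (hv : v < n) :
    mult (ext e n f) u v = mult e u v := by
  unfold mult ext
  rw [Function.update_of_ne (by omega : max u v ≠ n)]

lemma ext_mult_new (e : Hist m) {n v : ℕ} (f : Fin m → ℕ) (hv : v < n) :
    (mult (ext e n f) n v : ℝ) = ct f v := by
  rw [mult_lt _ hv]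
  unfold ct ext
  rw [Function.update_self, card_filter]
  push_cast
  rfl

lemma ext_mult_new' (e : Hist m) {n v : ℕ} (f : Fin m → ℕ) (hv : v < n) :
    (mult (ext e n f) v n : ℝ) = ct f v := by
  rw [mult_comm, ext_mult_new e f hv]

lemma ext_deg (e : Hist m) {n v : ℕ} (f : Fin m → ℕ) (hv : v < n) :
    (deg (ext e n f) (n + 1) v : ℝ) = deg e n v + ct f v := by
  rw [deg_succ]
  push_cast
  rw [ext_mult_new e f hv]
  congr 2
  exact sum_congr rfl fun u hu => ext_mult_old e f (mem_range.1 hu) hv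

lemma ext_deg_new {e : Hist m} {n : ℕ} (hn : 1 ≤ n) (h : Valid n e) {f : Fin m → ℕ}
    (hf : ∀ i, f i < n) : deg (ext e n f) (n + 1) n = m :=
  deg_new hn (ext_valid h hf)

lemma tri_succ (e : Hist m) (n : ℕ) : tri e (n + 1) = tri e n +
    ∑ b ∈ range n, ∑ a ∈ range b, mult e a b * mult e b n * mult e a n := by
  unfold tri; rw [sum_range_succ]

lemma half_sum (g : ℕ → ℕ → ℝ) (hs : ∀ u v, g u v = g v u) (hd : ∀ v, g v v = 0) (n : ℕ) :
    ∑ b ∈ range n, ∑ a ∈ range b, g a b = (∑ u ∈ range n, ∑ v ∈ range n, g u v) / 2 := by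
  induction n with
  | zero => simp
  | succ n ih =>
    rw [sum_range_succ, ih, sum_range_succ, sum_range_succ, hd]
    simp_rw [sum_range_succ]
    rw [sum_add_distrib]
    have : ∑ x ∈ range n, g n x = ∑ x ∈ range n, g x n := sum_congr rfl fun x _ => hs _ _
    rw [this]; ring

lemma ext_tri (e : Hist m) {n : ℕ} {f : Fin m → ℕ} (hf : ∀ i, f i < n) :
    (tri (ext e n f) (n + 1) : ℝ) = tri e n + ∑ i, ∑ j, (mult e (f i) (f j) : ℝ) / 2 := by
  rw [tri_succ]
  push_cast
  congr 1
  · congr 1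
    unfold tri
    refine sum_congr rfl fun c hc => sum_congr rfl fun b hb => sum_congr rfl fun a ha => ?_
    rw [mem_range] at hc hb ha
    rw [ext_mult_old e f (by omega) (by omega), ext_mult_old e f (by omega) (by omega),
      ext_mult_old e f (by omega) (by omega)]
  · have h1 : ∑ b ∈ range n, ∑ a ∈ range b, (mult (ext e n f) a b : ℝ) * mult (ext e n f) b n *
        mult (ext e n f) a n = ∑ b ∈ range n, ∑ a ∈ range b, (mult e a b : ℝ) * (ct f a * ct f b) := by
      refine sum_congr rfl fun b hb => sum_congr rfl fun a ha => ?_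
      rw [mem_range] at hb ha
      rw [ext_mult_old e f (by omega) hb, ext_mult_new' e f hb, ext_mult_new' e f (by omega)]
      ring
    rw [h1, half_sum (fun a b => (mult e a b : ℝ) * (ct f a * ct f b)) (fun u v => by
      rw [mult_comm]; ring) (fun v => by rw [mult_self]; simp)]
    rw [ct_sum2 (s := range n) (fun i => mem_range.2 (hf i)) (fun a b => (mult e a b : ℝ))]
    rw [sum_div]
    exact sum_congr rfl fun i _ => by rw [sum_div]

/-! ### Statistics -/

section stat

variable (δ : ℝ)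

/-- the weight of the vertex `v` -/
noncomputable def X (e : Hist m) (n v : ℕ) : ℝ := deg e n v + δ

/-- sums over the vertices -/
noncomputable def VF (g : ℝ → ℝ) (e : Hist m) (n : ℕ) : ℝ := ∑ v ∈ range n, g (X δ e n v)

/-- sums over the pairs of adjacent vertices -/
noncomputable def PF (φ g : ℝ → ℝ) (e : Hist m) (n : ℕ) : ℝ :=
  ∑ u ∈ range n, ∑ v ∈ range n, φ (mult e u v) * (g (X δ e n u) * g (X δ e n v))

/-- the total weight -/
noncomputable def LL (m : ℕ) (δ : ℝ) (n : ℕ) : ℝ := 2 * m * ((n : ℝ) - 1) + n * δ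

variable {δ}

lemma ext_X (e : Hist m) {n v : ℕ} (f : Fin m → ℕ) (hv : v < n) :
    X δ (ext e n f) (n + 1) v = X δ e n v + ct f v := by
  unfold X; rw [ext_deg e f hv]; ring

lemma ext_X_new {e : Hist m} {n : ℕ} (hn : 1 ≤ n) (h : Valid n e) {f : Fin m → ℕ}
    (hf : ∀ i, f i < n) : X δ (ext e n f) (n + 1) n = m + δ := by
  unfold X; rw [ext_deg_new hn h hf]

lemma sum_X {e : Hist m} {n : ℕ} (hn : 1 ≤ n) (h : Valid n e) :
    ∑ v ∈ range n, X δ e n v = LL m δ n := by
  unfold X LL
  rw [sum_add_distrib]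
  have := sum_deg hn h
  have h2 : (∑ v ∈ range n, (deg e n v : ℝ)) = 2 * m * ((n : ℝ) - 1) := by
    rw [← Nat.cast_sum, this]
    push_cast [Nat.cast_sub hn]
    ring
  rw [h2]; simp

lemma ext_VF (g : ℝ → ℝ) {e : Hist m} {n : ℕ} (hn : 1 ≤ n) (h : Valid n e) {f : Fin m → ℕ}
    (hf : ∀ i, f i < n) : VF δ g (ext e n f) (n + 1) =
      (∑ v ∈ range n, g (X δ e n v + ct f v)) + g (m + δ) := by
  unfold VF
  rw [sum_range_succ, ext_X_new hn h hf]
  congr 1
  exact sum_congr rfl fun v hv => by rw [ext_X e f (mem_range.1 hv)]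

lemma ext_PF (φ g : ℝ → ℝ) (hφ : φ 0 = 0) {e : Hist m} {n : ℕ} (hn : 1 ≤ n) (h : Valid n e)
    {f : Fin m → ℕ} (hf : ∀ i, f i < n) : PF δ φ g (ext e n f) (n + 1) =
      (∑ u ∈ range n, ∑ v ∈ range n, φ (mult e u v) * (g (X δ e n u + ct f u) * g (X δ e n v + ct f v)))
        + 2 * g (m + δ) * ∑ v ∈ range n, φ (ct f v) * g (X δ e n v + ct f v) := by
  unfold PF
  rw [sum_range_succ]
  have h1 : ∑ x ∈ range (n + 1), φ (mult (ext e n f) n x) * (g (X δ (ext e n f) (n + 1) n) *
      g (X δ (ext e n f) (n + 1) x)) = g (m + δ) * ∑ v ∈ range n, φ (ct f v) * g (X δ e n v + ct f v) := by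
    rw [sum_range_succ, mult_self, ext_X_new hn h hf, mul_sum]
    simp only [Nat.cast_zero, hφ, zero_mul, add_zero]
    refine sum_congr rfl fun v hv => ?_
    rw [mem_range] at hv
    rw [ext_mult_new e f hv, ext_X e f hv]; ring
  have h2 : ∑ x ∈ range n, ∑ v ∈ range (n + 1), φ (mult (ext e n f) x v) *
      (g (X δ (ext e n f) (n + 1) x) * g (X δ (ext e n f) (n + 1) v)) =
      (∑ u ∈ range n, ∑ v ∈ range n, φ (mult e u v) * (g (X δ e n u + ct f u) * g (X δ e n v + ct f v)))
        + g (m + δ) * ∑ v ∈ range n, φ (ct f v) * g (X δ e n v + ct f v) := by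
    rw [mul_sum, ← sum_add_distrib]
    refine sum_congr rfl fun u hu => ?_
    rw [mem_range] at hu
    rw [sum_range_succ, ext_mult_new' e f hu, ext_X_new hn h hf, ext_X e f hu]
    congr 1
    · refine sum_congr rfl fun v hv => ?_
      rw [mem_range] at hv
      rw [ext_mult_old e f hu hv, ext_X e f hv]
    · ring
  rw [h1, h2]; ring

end stat

/-! ### The expectation operator -/

/-- expectation of a function of the graph on `0, …, n - 1` -/
noncomputable def Ex (m : ℕ) (δ : ℝ) : ℕ → (Hist m → ℝ) → ℝ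
  | 0, F => F (fun _ _ => 0)
  | n + 1, F => if n < 2 then F (fun _ _ => 0) else
      Ex m δ n (fun e => EE m (range n) (fun v => X δ e n v / LL m δ n) (fun f => F (ext e n f)))

variable {δ : ℝ}

lemma Ex_two (F : Hist m → ℝ) : Ex m δ 2 F = F (fun _ _ => 0) := by
  unfold Ex; simp

lemma Ex_succ {n : ℕ} (hn : 2 ≤ n) (F : Hist m → ℝ) : Ex m δ (n + 1) F =
    Ex m δ n (fun e => EE m (range n) (fun v => X δ e n v / LL m δ n) (fun f => F (ext e n f))) := by
  rw [Ex, if_neg (by omega)]

lemma LL_pos (hδ : 0 < δ) {n : ℕ} (hn : 1 ≤ n) : 0 < LL m δ n := by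
  unfold LL
  have h1 : (1:ℝ) ≤ n := by exact_mod_cast hn
  have : 0 ≤ 2 * (m:ℝ) * ((n:ℝ) - 1) := by
    have : (0:ℝ) ≤ n - 1 := by linarith
    positivity
  have h2 : 0 < (n:ℝ) * δ := by positivity
  linarith

lemma X_pos (hδ : 0 < δ) (e : Hist m) (n v : ℕ) : 0 < X δ e n v := by
  unfold X; positivity

lemma valid_zero (n : ℕ) : Valid (m := m) n (fun _ _ => 0) := fun _ h1 _ _ => h1

lemma Ex_mono (hδ : 0 < δ) {n : ℕ} (hn : 2 ≤ n) : ∀ {F G : Hist m → ℝ},
    (∀ e, Valid n e → F e ≤ G e) → Ex m δ n F ≤ Ex m δ n G := by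
  induction n, hn using Nat.le_induction with
  | base => intro F G h; rw [Ex_two, Ex_two]; exact h _ (valid_zero 2)
  | succ n hn ih =>
    intro F G h
    rw [Ex_succ hn, Ex_succ hn]
    refine ih fun e he => ?_
    refine EE_mono (fun v _ => div_nonneg (X_pos hδ e n v).le (LL_pos hδ (by omega)).le) ?_
    intro f hf
    exact h _ (ext_valid he fun i => mem_range.1 (hf i))

lemma Ex_congr (hδ : 0 < δ) {n : ℕ} (hn : 2 ≤ n) {F G : Hist m → ℝ}
    (h : ∀ e, Valid n e → F e = G e) : Ex m δ n F = Ex m δ n G :=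
  le_antisymm (Ex_mono hδ hn fun e he => (h e he).le) (Ex_mono hδ hn fun e he => (h e he).ge)

lemma Ex_add {n : ℕ} (hn : 2 ≤ n) : ∀ (F G : Hist m → ℝ),
    Ex m δ n (fun e => F e + G e) = Ex m δ n F + Ex m δ n G := by
  induction n, hn using Nat.le_induction with
  | base => intro F G; rw [Ex_two, Ex_two, Ex_two]
  | succ n hn ih =>
    intro F G
    rw [Ex_succ hn, Ex_succ hn, Ex_succ hn, ← ih]
    congr 1; funext e; rw [EE_add]

lemma Ex_mul {n : ℕ} (hn : 2 ≤ n) (c : ℝ) : ∀ (F : Hist m → ℝ),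
    Ex m δ n (fun e => c * F e) = c * Ex m δ n F := by
  induction n, hn using Nat.le_induction with
  | base => intro F; rw [Ex_two, Ex_two]
  | succ n hn ih =>
    intro F
    rw [Ex_succ hn, Ex_succ hn, ← ih]
    congr 1; funext e; rw [EE_mul]

lemma Ex_sub {n : ℕ} (hn : 2 ≤ n) (F G : Hist m → ℝ) :
    Ex m δ n (fun e => F e - G e) = Ex m δ n F - Ex m δ n G := by
  have h1 := Ex_add (δ := δ) hn (fun e => F e) (fun e => (-1) * G e)
  rw [Ex_mul hn] at h1
  have : (fun e => F e - G e) = fun e => F e + (-1) * G e := by funext e; ring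
  rw [this, h1]; ring

lemma prob_sum (hδ : 0 < δ) {e : Hist m} {n : ℕ} (hn : 1 ≤ n) (h : Valid n e) :
    ∑ v ∈ range n, X δ e n v / LL m δ n = 1 := by
  rw [← sum_div, sum_X hn h, div_self (LL_pos hδ hn).ne']

lemma Ex_const (hδ : 0 < δ) {n : ℕ} (hn : 2 ≤ n) (c : ℝ) : Ex m δ n (fun _ => c) = c := by
  induction n, hn using Nat.le_induction with
  | base => rw [Ex_two]
  | succ n hn ih =>
    rw [Ex_succ hn]
    have : Ex m δ n (fun e => EE m (range n) (fun v => X δ e n v / LL m δ n) (fun _ => c)) =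
        Ex m δ n (fun _ => c) :=
      Ex_congr hδ hn fun e he => EE_const (prob_sum hδ (by omega) he) c
    rw [this, ih]

lemma Ex_nonneg (hδ : 0 < δ) {n : ℕ} (hn : 2 ≤ n) {F : Hist m → ℝ}
    (h : ∀ e, Valid n e → 0 ≤ F e) : 0 ≤ Ex m δ n F := by
  have := Ex_mono hδ hn (F := fun _ => 0) (G := F) h
  rwa [Ex_const hδ hn] at this

end Pool.Agent.D0H29.PA
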