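import Mathlib
import Pool.Agent.D0H29.PA.Model

/-!
The change of the statistics in one step: conditional expectations and second moments.
-/

set_option autoImplicit false

namespace Pool.Agent.D0H29.PA

open Finset

section gen

variable {m : ℕ} {s : Finset ℕ} {p : ℕ → ℝ}

lemma EE_ct (h1 : ∑ v ∈ s, p v = 1) (g : ℕ → ℝ) :
    EE m s p (fun f => ∑ v ∈ s, g v * ct f v) = m * ∑ v ∈ s, p v * g v := by
  rw [← EE_single h1]
  exact EE_congr fun f hf => ct_sum hf g

lemma EE_ctsq (h1 : ∑ v ∈ s, p v = 1) (g : ℕ → ℝ) :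
    EE m s p (fun f => ∑ v ∈ s, g v * ct f v ^ 2) =
      m * ∑ v ∈ s, p v * g v + m * ((m : ℝ) - 1) * ∑ v ∈ s, p v ^ 2 * g v := by
  have h2 := EE_pairs (m := m) h1 (fun a b => if a = b then g a else 0)
  have e1 : EE m s p (fun f => ∑ v ∈ s, g v * ct f v ^ 2) =
      EE m s p (fun f => ∑ i, ∑ j, (fun a b => if a = b then g a else 0) (f i) (f j)) :=
    EE_congr fun f hf => ct_sq hf g
  rw [e1, h2]
  congr 1
  · simp
  · congr 1
    refine sum_congr rfl fun a ha => ?_
    rw [sum_eq_single a]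
    · simp; ring
    · intro b _ hb; simp [Ne.symm hb]
    · intro h; exact absurd ha h

lemma EE_ct2 (h1 : ∑ v ∈ s, p v = 1) (g : ℕ → ℕ → ℝ) (hd : ∀ v, g v v = 0) :
    EE m s p (fun f => ∑ u ∈ s, ∑ v ∈ s, g u v * (ct f u * ct f v)) =
      m * ((m : ℝ) - 1) * ∑ a ∈ s, p a * ∑ b ∈ s, p b * g a b := by
  have e1 : EE m s p (fun f => ∑ u ∈ s, ∑ v ∈ s, g u v * (ct f u * ct f v)) =
      EE m s p (fun f => ∑ i, ∑ j, g (f i) (f j)) :=
    EE_congr fun f hf => ct_sum2 hf g
  rw [e1, EE_pairs h1]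
  simp [hd]

end gen

variable {m : ℕ} {δ : ℝ}

/-- the conditional expectation of `F` given the graph on `0, …, n - 1` -/
noncomputable def ST (m : ℕ) (δ : ℝ) (n : ℕ) (F : Hist m → ℝ) (e : Hist m) : ℝ :=
  EE m (range n) (fun v => X δ e n v / LL m δ n) (fun f => F (ext e n f))

/-- the statistics -/
noncomputable def SS (δ : ℝ) (e : Hist m) (n : ℕ) : ℝ := PF δ (fun t => t) (fun t => t) e n
noncomputable def HS (δ : ℝ) (e : Hist m) (n : ℕ) : ℝ := PF δ (fun t => t) (fun t => t * (t + 1)) e n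
noncomputable def MS (δ : ℝ) (e : Hist m) (n : ℕ) : ℝ := PF δ (fun t => t ^ 2 - t) (fun t => t) e n
noncomputable def RS (δ : ℝ) (e : Hist m) (n : ℕ) : ℝ := VF δ (fun t => t * (t + 1) * (t + 2)) e n
noncomputable def QS (δ : ℝ) (e : Hist m) (n : ℕ) : ℝ := VF δ (fun t => t ^ 2) e n

lemma p_nonneg (hδ : 0 < δ) (e : Hist m) {n : ℕ} (hn : 1 ≤ n) (v : ℕ) :
    0 ≤ X δ e n v / LL m δ n := div_nonneg (X_pos hδ e n v).le (LL_pos hδ hn).le

lemma X_ge (hδ : 0 < δ) {e : Hist m} {n : ℕ} (hn : 2 ≤ n) (h : Valid n e) {v : ℕ} (hv : v < n) :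
    (m : ℝ) + δ ≤ X δ e n v := by
  unfold X
  have : (m : ℝ) ≤ deg e n v := by exact_mod_cast deg_ge hn h hv
  linarith

lemma X_cube (hδ : 0 < δ) (e : Hist m) (n : ℕ) :
    ∑ v ∈ range n, X δ e n v ^ 3 ≤ RS δ e n := by
  unfold RS VF
  refine sum_le_sum fun v _ => ?_
  have := X_pos hδ e n v
  nlinarith [sq_nonneg (X δ e n v)]

section step

variable (hδ : 0 < δ) (hm : 1 ≤ m) {n : ℕ} (hn : 2 ≤ n) {e : Hist m} (he : Valid n e)

include hδ hn he

/-- step of the cubic statistic -/
lemma ST_R : ST m δ n (fun e => RS δ e (n + 1)) e ≤ (1 + 3 / LL m δ n) ^ m * RS δ e n +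
    (m + δ) * (m + δ + 1) * (m + δ + 2) := by
  have hL := LL_pos (m := m) hδ (by omega : 1 ≤ n)
  have h1 := prob_sum hδ (by omega) he
  have hp := p_nonneg hδ e (by omega : 1 ≤ n)
  have e1 : ST m δ n (fun e => RS δ e (n + 1)) e =
      EE m (range n) (fun v => X δ e n v / LL m δ n) (fun f =>
        ∑ v ∈ range n, (X δ e n v + ct f v) * (X δ e n v + ct f v + 1) * (X δ e n v + ct f v + 2)) +
      (m + δ) * (m + δ + 1) * (m + δ + 2) := by
    unfold ST RS
    rw [← EE_const (m := m) h1 ((m + δ) * (m + δ + 1) * (m + δ + 2)), ← EE_add]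
    refine EE_congr fun f hf => ?_
    exact ext_VF (fun t => t * (t + 1) * (t + 2)) (by omega) he (fun i => mem_range.1 (hf i))
  rw [e1]
  gcongr
  have := EE_super (s := range n) (p := fun v => X δ e n v / LL m δ n)
    (fun v _ => hp v) (fun y => ∑ v ∈ range n, y v * (y v + 1) * (y v + 2))
    (K := 1 + 3 / LL m δ n) (by positivity) (X δ e n)
    (fun y hy => sing_step (g := fun t => t * (t + 1) * (t + 2)) hL
      (fun t ht => by nlinarith [mul_nonneg ht ht]) (fun t _ => by ring) (fun v => (X_pos hδ e n v).le) hy h1)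
    m (X δ e n) (fun v => le_rfl)
  exact this

/-- expectation of a sum over the new edges of the cube type -/
lemma EE_sq : EE m (range n) (fun v => X δ e n v / LL m δ n)
    (fun f => ∑ v ∈ range n, X δ e n v ^ 2 * ct f v) ≤ m * (RS δ e n / LL m δ n) := by
  have hL := LL_pos (m := m) hδ (by omega : 1 ≤ n)
  have h1 := prob_sum hδ (by omega) he
  rw [EE_ct h1]
  refine mul_le_mul_of_nonneg_left ?_ (by positivity)
  calc _ = (∑ v ∈ range n, X δ e n v ^ 3) / LL m δ n := by
        rw [sum_div]; exact sum_congr rfl fun v _ => by ring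
    _ ≤ _ := div_le_div_of_nonneg_right (X_cube hδ e n) hL.le

include hm

lemma ct_X {f : Fin m → ℕ} {v : ℕ} (hv : v < n) : ct f v ≤ X δ e n v :=
  (ct_le f v).trans (by linarith [X_ge hδ hn he hv])

lemma X_one {v : ℕ} (hv : v < n) : 1 ≤ X δ e n v := by
  have : (1:ℝ) ≤ m := by exact_mod_cast hm
  linarith [X_ge hδ hn he hv]

/-- step of the statistic of the fourth order -/
lemma ST_H : ST m δ n (fun e => HS δ e (n + 1)) e ≤ (1 + 4 / LL m δ n) ^ m * HS δ e n +
    12 * ((m + δ) * (m + δ + 1)) * m * (RS δ e n / LL m δ n) := by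
  have hL := LL_pos (m := m) hδ (by omega : 1 ≤ n)
  have h1 := prob_sum hδ (by omega) he
  have hp := p_nonneg hδ e (by omega : 1 ≤ n)
  have e1 : ST m δ n (fun e => HS δ e (n + 1)) e =
      EE m (range n) (fun v => X δ e n v / LL m δ n) (fun f =>
        ∑ u ∈ range n, ∑ v ∈ range n, (mult e u v : ℝ) *
          (((X δ e n u + ct f u) * (X δ e n u + ct f u + 1)) * ((X δ e n v + ct f v) * (X δ e n v + ct f v + 1)))) +
      2 * ((m + δ) * (m + δ + 1)) * EE m (range n) (fun v => X δ e n v / LL m δ n) (fun f =>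
        ∑ v ∈ range n, ct f v * ((X δ e n v + ct f v) * (X δ e n v + ct f v + 1))) := by
    unfold ST HS
    rw [← EE_mul, ← EE_add]
    refine EE_congr fun f hf => ?_
    exact ext_PF (fun t => t) (fun t => t * (t + 1)) rfl (by omega) he (fun i => mem_range.1 (hf i))
  rw [e1]
  have b1 := EE_super (s := range n) (p := fun v => X δ e n v / LL m δ n)
    (fun v _ => hp v) (fun y => ∑ u ∈ range n, ∑ v ∈ range n, (mult e u v : ℝ) *
      ((y u * (y u + 1)) * (y v * (y v + 1))))
    (K := 1 + 4 / LL m δ n) (by positivity) (X δ e n)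
    (fun y hy => by
      have := pair_step (s := range n) (c := fun u v => (mult e u v : ℝ)) (fun u v => Nat.cast_nonneg _)
        (fun u v => by rw [mult_comm]) (fun v => by rw [mult_self]; simp)
        (g := fun t => t * (t + 1)) (κ := 2) hL (fun t ht => by positivity)
        (fun t ht => by nlinarith) (fun t _ => by ring) (fun v => (X_pos hδ e n v).le) hy h1
      norm_num at this ⊢
      exact this)
    m (X δ e n) (fun v => le_rfl)
  have b2 : EE m (range n) (fun v => X δ e n v / LL m δ n) (fun f =>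
        ∑ v ∈ range n, ct f v * ((X δ e n v + ct f v) * (X δ e n v + ct f v + 1))) ≤
      6 * (m * (RS δ e n / LL m δ n)) := by
    refine le_trans ?_ (mul_le_mul_of_nonneg_left (EE_sq hδ hn he) (by norm_num))
    rw [← EE_mul]
    refine EE_mono (fun v _ => hp v) fun f hf => ?_
    rw [mul_sum]
    refine sum_le_sum fun v hv => ?_
    rw [mem_range] at hv
    have a1 := ct_X (f := f) hδ hm hn he hv
    have a2 := X_one hδ hm hn he hv
    have a3 := ct_nonneg f v
    have a4 : (X δ e n v + ct f v) * (X δ e n v + ct f v + 1) ≤ (2 * X δ e n v) * (3 * X δ e n v) := by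
      apply mul_le_mul <;> linarith
    calc ct f v * ((X δ e n v + ct f v) * (X δ e n v + ct f v + 1)) ≤
        ct f v * ((2 * X δ e n v) * (3 * X δ e n v)) := mul_le_mul_of_nonneg_left a4 a3
      _ = _ := by ring
  have hc : 0 ≤ 2 * (((m:ℝ) + δ) * (m + δ + 1)) := by positivity
  have b3 := mul_le_mul_of_nonneg_left b2 hc
  have b1' : EE m (range n) (fun v => X δ e n v / LL m δ n) (fun f =>
        ∑ u ∈ range n, ∑ v ∈ range n, (mult e u v : ℝ) *
          (((X δ e n u + ct f u) * (X δ e n u + ct f u + 1)) * ((X δ e n v + ct f v) * (X δ e n v + ct f v + 1)))) ≤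
      (1 + 4 / LL m δ n) ^ m * HS δ e n := b1
  calc _ ≤ (1 + 4 / LL m δ n) ^ m * HS δ e n +
        2 * (((m:ℝ) + δ) * (m + δ + 1)) * (6 * (m * (RS δ e n / LL m δ n))) := add_le_add b1' b3
    _ = _ := by ring

/-- step of the statistic of the double edges -/
lemma ST_M : ST m δ n (fun e => MS δ e (n + 1)) e ≤ (1 + 2 / LL m δ n) ^ m * MS δ e n +
    4 * (m + δ) * m ^ 2 * (RS δ e n / LL m δ n ^ 2) := by
  have hL := LL_pos (m := m) hδ (by omega : 1 ≤ n)
  have h1 := prob_sum hδ (by omega) he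
  have hp := p_nonneg hδ e (by omega : 1 ≤ n)
  have e1 : ST m δ n (fun e => MS δ e (n + 1)) e =
      EE m (range n) (fun v => X δ e n v / LL m δ n) (fun f =>
        ∑ u ∈ range n, ∑ v ∈ range n, ((mult e u v : ℝ) ^ 2 - mult e u v) *
          ((X δ e n u + ct f u) * (X δ e n v + ct f v))) +
      2 * (m + δ) * EE m (range n) (fun v => X δ e n v / LL m δ n) (fun f =>
        ∑ v ∈ range n, (ct f v ^ 2 - ct f v) * (X δ e n v + ct f v)) := by
    unfold ST MS
    rw [← EE_mul, ← EE_add]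
    refine EE_congr fun f hf => ?_
    exact ext_PF (fun t => t ^ 2 - t) (fun t => t) (by norm_num) (by omega) he
      (fun i => mem_range.1 (hf i))
  rw [e1]
  have hsq : ∀ k : ℕ, (0:ℝ) ≤ (k:ℝ) ^ 2 - k := by
    intro k
    rcases Nat.eq_zero_or_pos k with rfl | hk
    · norm_num
    · have : (1:ℝ) ≤ k := by exact_mod_cast hk
      nlinarith
  have b1 := EE_super (s := range n) (p := fun v => X δ e n v / LL m δ n)
    (fun v _ => hp v) (fun y => ∑ u ∈ range n, ∑ v ∈ range n, ((mult e u v : ℝ) ^ 2 - mult e u v) *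
      (y u * y v))
    (K := 1 + 2 / LL m δ n) (by positivity) (X δ e n)
    (fun y hy => by
      have := pair_step (s := range n) (c := fun u v => (mult e u v : ℝ) ^ 2 - mult e u v) (fun u v => hsq _)
        (fun u v => by rw [mult_comm]) (fun v => by rw [mult_self]; simp)
        (g := fun t => t) (κ := 1) hL (fun t ht => ht)
        (fun t ht => by linarith) (fun t _ => by ring) (fun v => (X_pos hδ e n v).le) hy h1
      norm_num at this ⊢
      exact this)
    m (X δ e n) (fun v => le_rfl)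
  have hct : ∀ (f : Fin m → ℕ) (v : ℕ), 0 ≤ ct f v ^ 2 - ct f v := by
    intro f v
    have : ct f v = (univ.filter (fun i => f i = v)).card := by
      unfold ct; rw [card_filter]; push_cast; rfl
    rw [this]; exact hsq _
  have b2 : EE m (range n) (fun v => X δ e n v / LL m δ n) (fun f =>
        ∑ v ∈ range n, (ct f v ^ 2 - ct f v) * (X δ e n v + ct f v)) ≤
      2 * (m ^ 2 * (RS δ e n / LL m δ n ^ 2)) := by
    have c1 : EE m (range n) (fun v => X δ e n v / LL m δ n) (fun f =>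
        ∑ v ∈ range n, (ct f v ^ 2 - ct f v) * (X δ e n v + ct f v)) ≤
        EE m (range n) (fun v => X δ e n v / LL m δ n) (fun f =>
          2 * ((∑ v ∈ range n, X δ e n v * ct f v ^ 2) - ∑ v ∈ range n, X δ e n v * ct f v)) := by
      refine EE_mono (fun v _ => hp v) fun f hf => ?_
      rw [← sum_sub_distrib, mul_sum]
      refine sum_le_sum fun v hv => ?_
      rw [mem_range] at hv
      have a1 := ct_X (f := f) hδ hm hn he hv
      have a3 := hct f v
      calc (ct f v ^ 2 - ct f v) * (X δ e n v + ct f v) ≤ (ct f v ^ 2 - ct f v) * (2 * X δ e n v) :=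
            mul_le_mul_of_nonneg_left (by linarith) a3
        _ = _ := by ring
    refine le_trans c1 ?_
    rw [EE_mul, EE_sub, EE_ctsq h1, EE_ct h1]
    have c2 : ∑ v ∈ range n, (X δ e n v / LL m δ n) ^ 2 * X δ e n v ≤ RS δ e n / LL m δ n ^ 2 := by
      calc _ = (∑ v ∈ range n, X δ e n v ^ 3) / LL m δ n ^ 2 := by
            rw [sum_div]; exact sum_congr rfl fun v _ => by ring
        _ ≤ _ := div_le_div_of_nonneg_right (X_cube hδ e n) (by positivity)
    have hmr : (1:ℝ) ≤ m := by exact_mod_cast hm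
    have c3 : (m:ℝ) * (m - 1) ≤ m ^ 2 := by nlinarith
    have c4 : 0 ≤ ∑ v ∈ range n, (X δ e n v / LL m δ n) ^ 2 * X δ e n v :=
      sum_nonneg fun v _ => mul_nonneg (sq_nonneg _) (X_pos hδ e n v).le
    have c5 : (m:ℝ) * (m - 1) * ∑ v ∈ range n, (X δ e n v / LL m δ n) ^ 2 * X δ e n v ≤
        m ^ 2 * (RS δ e n / LL m δ n ^ 2) :=
      mul_le_mul c3 c2 c4 (by positivity)
    linarith
  have b3 := mul_le_mul_of_nonneg_left b2 (by positivity : 0 ≤ 2 * ((m:ℝ) + δ))
  have b1' : EE m (range n) (fun v => X δ e n v / LL m δ n) (fun f =>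
        ∑ u ∈ range n, ∑ v ∈ range n, ((mult e u v : ℝ) ^ 2 - mult e u v) *
          ((X δ e n u + ct f u) * (X δ e n v + ct f v))) ≤
      (1 + 2 / LL m δ n) ^ m * MS δ e n := b1
  calc _ ≤ (1 + 2 / LL m δ n) ^ m * MS δ e n +
        2 * ((m:ℝ) + δ) * (2 * (m ^ 2 * (RS δ e n / LL m δ n ^ 2))) := add_le_add b1' b3
    _ = _ := by ring

end step

end Pool.Agent.D0H29.PA
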