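import Mathlib
import Pool.Agent.D0H29.PA.Step

/-!
Exact conditional expectations, and second moments of the increments.
-/

set_option autoImplicit false

namespace Pool.Agent.D0H29.PA

open Finset

variable {m : ℕ} {δ : ℝ}

/-- the weight of the neighbours of `v` -/
noncomputable def WW (δ : ℝ) (e : Hist m) (n v : ℕ) : ℝ := ∑ u ∈ range n, (mult e u v : ℝ) * X δ e n u

lemma SS_eq (e : Hist m) (n : ℕ) : SS δ e n = ∑ v ∈ range n, X δ e n v * WW δ e n v := by
  unfold SS PF WW
  rw [sum_comm]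
  refine sum_congr rfl fun v _ => ?_
  rw [mul_sum]
  exact sum_congr rfl fun u _ => by ring

lemma sq_sum_fin (a : Fin m → ℝ) : (∑ i, a i) ^ 2 ≤ m * ∑ i, a i ^ 2 := by
  have := sq_sum_le_card_mul_sum_sq (s := (univ : Finset (Fin m))) (f := a)
  simpa using this

section step

variable (hδ : 0 < δ) (hm : 1 ≤ m) {n : ℕ} (hn : 2 ≤ n) {e : Hist m} (he : Valid n e)

include hδ

/-- the third order bound by the fourth order statistic -/
lemma F_le : ∑ v ∈ range n, X δ e n v * WW δ e n v ^ 2 ≤ HS δ e n := by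
  have h1 : ∀ v ∈ range n, X δ e n v * WW δ e n v ^ 2 ≤
      ∑ u ∈ range n, (mult e u v : ℝ) * (X δ e n u ^ 2 * X δ e n v ^ 2) := by
    intro v _
    have c := sum_sq_le_sum_mul_sum_of_sq_le_mul (range n)
      (f := fun u => (mult e u v : ℝ)) (g := fun u => (mult e u v : ℝ) * X δ e n u ^ 2)
      (r := fun u => (mult e u v : ℝ) * X δ e n u)
      (fun u _ => Nat.cast_nonneg _) (fun u _ => by positivity) (fun u _ => le_of_eq (by ring))
    have d : ∑ u ∈ range n, (mult e u v : ℝ) ≤ X δ e n v := by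
      unfold X deg; push_cast; linarith
    have xp := (X_pos hδ e n v).le
    have gp : 0 ≤ ∑ u ∈ range n, (mult e u v : ℝ) * X δ e n u ^ 2 :=
      sum_nonneg fun u _ => by positivity
    calc X δ e n v * WW δ e n v ^ 2 ≤ X δ e n v * (X δ e n v * ∑ u ∈ range n, (mult e u v : ℝ) * X δ e n u ^ 2) := by
          refine mul_le_mul_of_nonneg_left (le_trans c ?_) xp
          exact mul_le_mul_of_nonneg_right d gp
      _ = _ := by
        rw [mul_sum, mul_sum]
        exact sum_congr rfl fun u _ => by ring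
  refine le_trans (sum_le_sum h1) ?_
  unfold HS PF
  rw [sum_comm]
  refine sum_le_sum fun u _ => sum_le_sum fun v _ => ?_
  have xu := (X_pos hδ e n u).le
  have xv := (X_pos hδ e n v).le
  refine mul_le_mul_of_nonneg_left ?_ (Nat.cast_nonneg _)
  apply mul_le_mul <;> nlinarith

include hn he

lemma SS_ge : 2 * (m:ℝ) ^ 3 * ((n:ℝ) - 1) ≤ SS δ e n := by
  have h1 : ∑ u ∈ range n, ∑ v ∈ range n, (mult e u v : ℝ) = 2 * m * ((n:ℝ) - 1) := by
    have := sum_deg (by omega : 1 ≤ n) he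
    unfold deg at this
    rw [sum_comm]
    have h2 : (∑ v ∈ range n, ∑ u ∈ range n, (mult e u v : ℝ)) =
      ((∑ v ∈ range n, ∑ u ∈ range n, mult e u v : ℕ) : ℝ) := by push_cast; rfl
    rw [h2, this]
    push_cast [Nat.cast_sub (by omega : 1 ≤ n)]
    ring
  have h3 : (m:ℝ) ^ 2 * ∑ u ∈ range n, ∑ v ∈ range n, (mult e u v : ℝ) ≤ SS δ e n := by
    unfold SS PF
    rw [mul_sum]
    refine sum_le_sum fun u hu => ?_
    rw [mul_sum]
    refine sum_le_sum fun v hv => ?_
    rw [mem_range] at hu hv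
    have xu : (m:ℝ) ≤ X δ e n u := by linarith [X_ge hδ hn he hu]
    have xv : (m:ℝ) ≤ X δ e n v := by linarith [X_ge hδ hn he hv]
    have : (m:ℝ) * m ≤ X δ e n u * X δ e n v := mul_le_mul xu xv (by positivity) (X_pos hδ e n u).le
    calc (m:ℝ) ^ 2 * mult e u v = mult e u v * (m * m) := by ring
      _ ≤ _ := mul_le_mul_of_nonneg_left this (Nat.cast_nonneg _)
  rw [h1] at h3
  linarith

/-- exact step of the quadratic statistic -/
lemma ST_Q : ST m δ n (fun e => QS δ e (n + 1)) e =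
    (1 + 2 * m / LL m δ n + m * (m - 1) / LL m δ n ^ 2) * QS δ e n + (m + (m + δ) ^ 2) := by
  have hL := LL_pos (m := m) hδ (by omega : 1 ≤ n)
  have h1 := prob_sum hδ (by omega) he
  have e1 : ST m δ n (fun e => QS δ e (n + 1)) e =
      EE m (range n) (fun v => X δ e n v / LL m δ n) (fun f =>
        (∑ v ∈ range n, (2 * X δ e n v) * ct f v) + (∑ v ∈ range n, (1:ℝ) * ct f v ^ 2)) +
        (QS δ e n + (m + δ) ^ 2) := by
    unfold ST
    rw [← EE_const (m := m) h1 (QS δ e n + (m + δ) ^ 2), ← EE_add]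
    refine EE_congr fun f hf => ?_
    have := ext_VF (δ := δ) (fun t => t ^ 2) (by omega) he (fun i => mem_range.1 (hf i))
    show QS δ (ext e n f) (n + 1) = _
    unfold QS
    rw [this]
    unfold VF
    rw [← sum_add_distrib, ← add_assoc, ← sum_add_distrib]
    congr 1
    exact sum_congr rfl fun v _ => by ring
  rw [e1, EE_add, EE_ct h1, EE_ctsq h1]
  have q1 : ∑ v ∈ range n, X δ e n v / LL m δ n * (2 * X δ e n v) = 2 * (QS δ e n / LL m δ n) := by
    unfold QS VF
    rw [sum_div, mul_sum]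
    exact sum_congr rfl fun v _ => by ring
  have q2 : ∑ v ∈ range n, X δ e n v / LL m δ n * (1:ℝ) = 1 := by simpa using h1
  have q3 : ∑ v ∈ range n, (X δ e n v / LL m δ n) ^ 2 * (1:ℝ) = QS δ e n / LL m δ n ^ 2 := by
    unfold QS VF
    rw [sum_div]
    exact sum_congr rfl fun v _ => by ring
  rw [q1, q2, q3]
  field_simp
  ring

/-- the increment of the edge statistic -/
lemma SS_inc {f : Fin m → ℕ} (hf : ∀ i, f i < n) : SS δ (ext e n f) (n + 1) = SS δ e n +
    ((∑ v ∈ range n, (2 * WW δ e n v) * ct f v) +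
    (∑ u ∈ range n, ∑ v ∈ range n, (mult e u v : ℝ) * (ct f u * ct f v)) +
    2 * (m + δ) * ((∑ v ∈ range n, X δ e n v * ct f v) + ∑ v ∈ range n, (1:ℝ) * ct f v ^ 2)) := by
  have := ext_PF (δ := δ) (fun t => t) (fun t => t) rfl (by omega) he hf
  unfold SS
  rw [this]
  have a : ∑ u ∈ range n, ∑ v ∈ range n, (mult e u v : ℝ) * ((X δ e n u + ct f u) * (X δ e n v + ct f v)) =
      PF δ (fun t => t) (fun t => t) e n + (∑ v ∈ range n, (2 * WW δ e n v) * ct f v) +
      (∑ u ∈ range n, ∑ v ∈ range n, (mult e u v : ℝ) * (ct f u * ct f v)) := by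
    have b1 : ∑ v ∈ range n, (2 * WW δ e n v) * ct f v =
        (∑ u ∈ range n, ∑ v ∈ range n, (mult e u v : ℝ) * (X δ e n u * ct f v)) +
        ∑ u ∈ range n, ∑ v ∈ range n, (mult e u v : ℝ) * (ct f u * X δ e n v) := by
      have c1 : ∑ u ∈ range n, ∑ v ∈ range n, (mult e u v : ℝ) * (X δ e n u * ct f v) =
          ∑ v ∈ range n, WW δ e n v * ct f v := by
        rw [sum_comm]
        refine sum_congr rfl fun v _ => ?_
        unfold WW
        rw [sum_mul]
        exact sum_congr rfl fun u _ => by ring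
      have c2 : ∑ u ∈ range n, ∑ v ∈ range n, (mult e u v : ℝ) * (ct f u * X δ e n v) =
          ∑ v ∈ range n, WW δ e n v * ct f v := by
        refine sum_congr rfl fun u _ => ?_
        unfold WW
        rw [sum_mul]
        exact sum_congr rfl fun v _ => by rw [mult_comm]; ring
      rw [c1, c2, ← sum_add_distrib]
      exact sum_congr rfl fun v _ => by ring
    rw [b1]
    unfold PF
    simp_rw [← sum_add_distrib]
    exact sum_congr rfl fun u _ => sum_congr rfl fun v _ => by ring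
  have b : ∑ v ∈ range n, ct f v * (X δ e n v + ct f v) =
      (∑ v ∈ range n, X δ e n v * ct f v) + ∑ v ∈ range n, (1:ℝ) * ct f v ^ 2 := by
    rw [← sum_add_distrib]
    exact sum_congr rfl fun v _ => by ring
  rw [a, b]; ring

/-- exact step of the edge statistic -/
lemma ST_S : ST m δ n (fun e => SS δ e (n + 1)) e =
    (1 + 2 * m / LL m δ n + m * (m - 1) / LL m δ n ^ 2) * SS δ e n +
    (2 * (m + δ) * m * (1 + (m - 1) / LL m δ n) / LL m δ n) * QS δ e n + 2 * (m + δ) * m := by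
  have hL := LL_pos (m := m) hδ (by omega : 1 ≤ n)
  have h1 := prob_sum hδ (by omega) he
  have e1 : ST m δ n (fun e => SS δ e (n + 1)) e =
      EE m (range n) (fun v => X δ e n v / LL m δ n) (fun _ => SS δ e n) +
      (EE m (range n) (fun v => X δ e n v / LL m δ n) (fun f => ∑ v ∈ range n, (2 * WW δ e n v) * ct f v) +
      EE m (range n) (fun v => X δ e n v / LL m δ n)
        (fun f => ∑ u ∈ range n, ∑ v ∈ range n, (mult e u v : ℝ) * (ct f u * ct f v)) +
      2 * (m + δ) * (EE m (range n) (fun v => X δ e n v / LL m δ n) (fun f => ∑ v ∈ range n, X δ e n v * ct f v) +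
      EE m (range n) (fun v => X δ e n v / LL m δ n) (fun f => ∑ v ∈ range n, (1:ℝ) * ct f v ^ 2))) := by
    unfold ST
    rw [← EE_add, ← EE_add, ← EE_mul, ← EE_add, ← EE_add]
    exact EE_congr fun f hf => SS_inc hδ hn he fun i => mem_range.1 (hf i)
  rw [e1, EE_const h1, EE_ct h1, EE_ct2 h1 _ (fun v => by rw [mult_self]; simp), EE_ct h1, EE_ctsq h1]
  have q0 : ∑ v ∈ range n, X δ e n v / LL m δ n * (2 * WW δ e n v) = 2 * (SS δ e n / LL m δ n) := by
    rw [SS_eq, sum_div, mul_sum]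
    exact sum_congr rfl fun v _ => by ring
  have q01 : ∑ a ∈ range n, X δ e n a / LL m δ n * ∑ b ∈ range n, X δ e n b / LL m δ n * (mult e a b : ℝ) =
      SS δ e n / LL m δ n ^ 2 := by
    unfold SS PF
    rw [sum_div]
    refine sum_congr rfl fun a _ => ?_
    rw [mul_sum, sum_div]
    exact sum_congr rfl fun b _ => by field_simp
  have q1 : ∑ v ∈ range n, X δ e n v / LL m δ n * X δ e n v = QS δ e n / LL m δ n := by
    unfold QS VF
    rw [sum_div]
    exact sum_congr rfl fun v _ => by ring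
  have q2 : ∑ v ∈ range n, X δ e n v / LL m δ n * (1:ℝ) = 1 := by simpa using h1
  have q3 : ∑ v ∈ range n, (X δ e n v / LL m δ n) ^ 2 * (1:ℝ) = QS δ e n / LL m δ n ^ 2 := by
    unfold QS VF
    rw [sum_div]
    exact sum_congr rfl fun v _ => by ring
  rw [q0, q01, q1, q2, q3]
  field_simp
  ring

/-- mean number of new triangles -/
lemma ST_T1 : ST m δ n (fun e' => (tri e' (n + 1) : ℝ) - tri e n) e =
    m * (m - 1) / 2 * (SS δ e n / LL m δ n ^ 2) := by
  have hL := LL_pos (m := m) hδ (by omega : 1 ≤ n)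
  have h1 := prob_sum hδ (by omega) he
  have e1 : ST m δ n (fun e' => (tri e' (n + 1) : ℝ) - tri e n) e =
      EE m (range n) (fun v => X δ e n v / LL m δ n) (fun f => ∑ i, ∑ j, (mult e (f i) (f j) : ℝ) / 2) := by
    unfold ST
    refine EE_congr fun f hf => ?_
    show (tri (ext e n f) (n + 1) : ℝ) - tri e n = _
    rw [ext_tri e (fun i => mem_range.1 (hf i))]
    ring
  rw [e1, EE_pairs h1 (fun a b => (mult e a b : ℝ) / 2)]
  have q : ∑ a ∈ range n, X δ e n a / LL m δ n * ∑ b ∈ range n, X δ e n b / LL m δ n * ((mult e a b : ℝ) / 2) =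
      SS δ e n / LL m δ n ^ 2 / 2 := by
    unfold SS PF
    rw [sum_div, sum_div]
    refine sum_congr rfl fun a _ => ?_
    rw [mul_sum, sum_div, sum_div]
    exact sum_congr rfl fun b _ => by field_simp
  rw [q]
  simp only [mult_self]
  simp
  ring

/-- second factorial moment of the number of new triangles -/
lemma ST_T2 : ST m δ n (fun e' => ((tri e' (n + 1) : ℝ) - tri e n) * (((tri e' (n + 1) : ℝ) - tri e n) - 1)) e ≤
    m ^ 2 * (MS δ e n / LL m δ n ^ 2) + m ^ 4 * (HS δ e n / LL m δ n ^ 3 + SS δ e n ^ 2 / LL m δ n ^ 4) := by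
  have hL := LL_pos (m := m) hδ (by omega : 1 ≤ n)
  have h1 := prob_sum hδ (by omega) he
  have hp := p_nonneg hδ e (by omega : 1 ≤ n)
  have e1 : ST m δ n (fun e' => ((tri e' (n + 1) : ℝ) - tri e n) * (((tri e' (n + 1) : ℝ) - tri e n) - 1)) e =
      EE m (range n) (fun v => X δ e n v / LL m δ n) (fun f =>
        (∑ i, ∑ j, (mult e (f i) (f j) : ℝ) / 2) * ((∑ i, ∑ j, (mult e (f i) (f j) : ℝ) / 2) - 1)) := by
    unfold ST
    refine EE_congr fun f hf => ?_
    show ((tri (ext e n f) (n + 1) : ℝ) - tri e n) * (((tri (ext e n f) (n + 1) : ℝ) - tri e n) - 1) = _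
    rw [ext_tri e (fun i => mem_range.1 (hf i))]
    ring
  rw [e1]
  refine le_trans (EE_fact (M := fun a b => (mult e a b : ℝ)) (fun v _ => hp v) h1 (fun _ _ => Nat.cast_nonneg _)
    (fun u v => by rw [mult_comm]) (fun v => by rw [mult_self]; simp) (fun u v => by
      rcases Nat.eq_zero_or_pos (mult e u v) with h | h
      · rw [h]; norm_num
      · have : (1:ℝ) ≤ mult e u v := by exact_mod_cast h
        nlinarith)) ?_
  have q1 : ∑ a ∈ range n, X δ e n a / LL m δ n * ∑ b ∈ range n, X δ e n b / LL m δ n * ((mult e a b : ℝ) ^ 2 - mult e a b) =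
      MS δ e n / LL m δ n ^ 2 := by
    unfold MS PF
    rw [sum_div]
    refine sum_congr rfl fun a _ => ?_
    rw [mul_sum, sum_div]
    exact sum_congr rfl fun b _ => by field_simp
  have q2 : ∑ a ∈ range n, X δ e n a / LL m δ n * (∑ b ∈ range n, X δ e n b / LL m δ n * (mult e a b : ℝ)) ^ 2 ≤
      HS δ e n / LL m δ n ^ 3 := by
    have : ∑ a ∈ range n, X δ e n a / LL m δ n * (∑ b ∈ range n, X δ e n b / LL m δ n * (mult e a b : ℝ)) ^ 2 =
        (∑ a ∈ range n, X δ e n a * WW δ e n a ^ 2) / LL m δ n ^ 3 := by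
      rw [sum_div]
      refine sum_congr rfl fun a _ => ?_
      have w : ∑ b ∈ range n, X δ e n b / LL m δ n * (mult e a b : ℝ) = WW δ e n a / LL m δ n := by
        unfold WW
        rw [sum_div]
        exact sum_congr rfl fun b _ => by rw [mult_comm]; ring
      rw [w]; field_simp
    rw [this]
    exact div_le_div_of_nonneg_right (F_le hδ) (by positivity)
  have q3 : (∑ a ∈ range n, X δ e n a / LL m δ n * ∑ b ∈ range n, X δ e n b / LL m δ n * (mult e a b : ℝ)) ^ 2 =
      SS δ e n ^ 2 / LL m δ n ^ 4 := by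
    have : ∑ a ∈ range n, X δ e n a / LL m δ n * ∑ b ∈ range n, X δ e n b / LL m δ n * (mult e a b : ℝ) =
        SS δ e n / LL m δ n ^ 2 := by
      unfold SS PF
      rw [sum_div]
      refine sum_congr rfl fun a _ => ?_
      rw [mul_sum, sum_div]
      exact sum_congr rfl fun b _ => by field_simp
    rw [this]; ring
  rw [q1, q3]
  gcongr

include hm

/-- second moment of the increment of the quadratic statistic -/
lemma ST_Q2 : ST m δ n (fun e' => (QS δ e' (n + 1) - QS δ e n) ^ 2) e ≤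
    (3 + m + δ) ^ 2 * m ^ 2 * (RS δ e n / LL m δ n) := by
  have hL := LL_pos (m := m) hδ (by omega : 1 ≤ n)
  have h1 := prob_sum hδ (by omega) he
  have hp := p_nonneg hδ e (by omega : 1 ≤ n)
  have b : ∀ f : Fin m → ℕ, (∀ i, f i ∈ range n) →
      (QS δ (ext e n f) (n + 1) - QS δ e n) ^ 2 ≤ (3 + m + δ) ^ 2 * m * ∑ i, X δ e n (f i) ^ 2 := by
    intro f hf
    have hf' := fun i => mem_range.1 (hf i)
    have := ext_VF (δ := δ) (fun t => t ^ 2) (by omega) he hf'
    have d : QS δ (ext e n f) (n + 1) - QS δ e n =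
        (∑ v ∈ range n, (2 * X δ e n v) * ct f v) + (∑ v ∈ range n, ct f v * ct f v) + (m + δ) ^ 2 := by
      unfold QS
      rw [this]
      unfold VF
      rw [← sum_add_distrib, add_sub_right_comm, ← sum_sub_distrib]
      congr 1
      exact sum_congr rfl fun v _ => by ring
    have c1 : ∑ v ∈ range n, ct f v * ct f v ≤ ∑ v ∈ range n, X δ e n v * ct f v := by
      refine sum_le_sum fun v hv => ?_
      exact mul_le_mul_of_nonneg_right (ct_X hδ hm hn he (mem_range.1 hv)) (ct_nonneg f v)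
    have c2 : ∑ v ∈ range n, (2 * X δ e n v) * ct f v = 2 * ∑ v ∈ range n, X δ e n v * ct f v := by
      rw [mul_sum]; exact sum_congr rfl fun v _ => by ring
    rw [ct_sum hf (fun v => X δ e n v)] at c1 c2
    have c3 : (m:ℝ) + δ ≤ ∑ i, X δ e n (f i) := by
      calc (m:ℝ) + δ ≤ X δ e n (f ⟨0, hm⟩) := X_ge hδ hn he (hf' _)
        _ ≤ _ := single_le_sum (f := fun i => X δ e n (f i)) (fun i _ => (X_pos hδ e n _).le) (mem_univ _)
    have n1 : 0 ≤ QS δ (ext e n f) (n + 1) - QS δ e n := by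
      rw [d, c2]
      have : 0 ≤ ∑ v ∈ range n, ct f v * ct f v := sum_nonneg fun v _ => mul_self_nonneg _
      have : 0 ≤ ∑ i, X δ e n (f i) := sum_nonneg fun i _ => (X_pos hδ e n _).le
      positivity
    have n2 : QS δ (ext e n f) (n + 1) - QS δ e n ≤ (3 + m + δ) * ∑ i, X δ e n (f i) := by
      rw [d, c2]
      nlinarith
    calc (QS δ (ext e n f) (n + 1) - QS δ e n) ^ 2 ≤ ((3 + m + δ) * ∑ i, X δ e n (f i)) ^ 2 :=
          pow_le_pow_left₀ n1 n2 2
      _ = (3 + m + δ) ^ 2 * (∑ i, X δ e n (f i)) ^ 2 := by ring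
      _ ≤ (3 + m + δ) ^ 2 * (m * ∑ i, X δ e n (f i) ^ 2) :=
          mul_le_mul_of_nonneg_left (sq_sum_fin _) (by positivity)
      _ = _ := by ring
  unfold ST
  refine le_trans (EE_mono (fun v _ => hp v) b) ?_
  rw [EE_mul, EE_single h1 (fun v => X δ e n v ^ 2)]
  have : ∑ v ∈ range n, X δ e n v / LL m δ n * X δ e n v ^ 2 ≤ RS δ e n / LL m δ n := by
    calc _ = (∑ v ∈ range n, X δ e n v ^ 3) / LL m δ n := by
          rw [sum_div]; exact sum_congr rfl fun v _ => by ring
      _ ≤ _ := div_le_div_of_nonneg_right (X_cube hδ e n) hL.le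
  calc _ ≤ (3 + m + δ) ^ 2 * m * (m * (RS δ e n / LL m δ n)) := by gcongr
    _ = _ := by ring

/-- second moment of the increment of the edge statistic -/
lemma ST_S2 : ST m δ n (fun e' => (SS δ e' (n + 1) - SS δ e n) ^ 2) e ≤
    18 * m ^ 2 * (HS δ e n / LL m δ n) + 32 * (m + δ) ^ 2 * m ^ 2 * (RS δ e n / LL m δ n) := by
  have hL := LL_pos (m := m) hδ (by omega : 1 ≤ n)
  have h1 := prob_sum hδ (by omega) he
  have hp := p_nonneg hδ e (by omega : 1 ≤ n)
  have wn : ∀ v, 0 ≤ WW δ e n v := fun v => sum_nonneg fun u _ =>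
    mul_nonneg (Nat.cast_nonneg _) (X_pos hδ e n u).le
  have b : ∀ f : Fin m → ℕ, (∀ i, f i ∈ range n) →
      (SS δ (ext e n f) (n + 1) - SS δ e n) ^ 2 ≤ 18 * m * ∑ i, WW δ e n (f i) ^ 2 +
        32 * (m + δ) ^ 2 * m * ∑ i, X δ e n (f i) ^ 2 := by
    intro f hf
    have hf' := fun i => mem_range.1 (hf i)
    have d := SS_inc hδ hn he hf'
    have c0 : ∑ v ∈ range n, (2 * WW δ e n v) * ct f v = 2 * ∑ i, WW δ e n (f i) := by
      rw [ct_sum hf (fun v => 2 * WW δ e n v), mul_sum]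
    have c1 : ∑ u ∈ range n, ∑ v ∈ range n, (mult e u v : ℝ) * (ct f u * ct f v) ≤ ∑ i, WW δ e n (f i) := by
      rw [← ct_sum hf (fun v => WW δ e n v), sum_comm]
      refine sum_le_sum fun v _ => ?_
      unfold WW
      rw [sum_mul]
      refine sum_le_sum fun u hu => ?_
      have := ct_X (f := f) hδ hm hn he (mem_range.1 hu)
      calc (mult e u v : ℝ) * (ct f u * ct f v) = (mult e u v : ℝ) * ct f v * ct f u := by ring
        _ ≤ (mult e u v : ℝ) * ct f v * X δ e n u :=
            mul_le_mul_of_nonneg_left this (mul_nonneg (Nat.cast_nonneg _) (ct_nonneg _ _))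
        _ = _ := by ring
    have c2 : ∑ v ∈ range n, (1:ℝ) * ct f v ^ 2 ≤ ∑ i, X δ e n (f i) := by
      rw [← ct_sum hf (fun v => X δ e n v)]
      refine sum_le_sum fun v hv => ?_
      have := mul_le_mul_of_nonneg_right (ct_X (f := f) hδ hm hn he (mem_range.1 hv)) (ct_nonneg f v)
      nlinarith
    have c3 : ∑ v ∈ range n, X δ e n v * ct f v = ∑ i, X δ e n (f i) := ct_sum hf _
    have p1 : 0 ≤ ∑ u ∈ range n, ∑ v ∈ range n, (mult e u v : ℝ) * (ct f u * ct f v) :=
      sum_nonneg fun u _ => sum_nonneg fun v _ => mul_nonneg (Nat.cast_nonneg _)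
        (mul_nonneg (ct_nonneg _ _) (ct_nonneg _ _))
    have p2 : 0 ≤ ∑ v ∈ range n, (1:ℝ) * ct f v ^ 2 := sum_nonneg fun v _ => by positivity
    have p3 : 0 ≤ ∑ i, X δ e n (f i) := sum_nonneg fun i _ => (X_pos hδ e n _).le
    have p4 : 0 ≤ ∑ i, WW δ e n (f i) := sum_nonneg fun i _ => wn _
    rw [c0, c3] at d
    set A := ∑ i, WW δ e n (f i) with hA
    set B := ∑ i, X δ e n (f i) with hB
    have md : 0 ≤ (m:ℝ) + δ := by positivity
    have n1 : 0 ≤ SS δ (ext e n f) (n + 1) - SS δ e n := by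
      rw [d]; 
      have : 0 ≤ 2 * ((m:ℝ) + δ) * (B + ∑ v ∈ range n, (1:ℝ) * ct f v ^ 2) := by positivity
      linarith
    have n2 : SS δ (ext e n f) (n + 1) - SS δ e n ≤ 3 * A + 4 * (m + δ) * B := by
      rw [d]
      have : 2 * ((m:ℝ) + δ) * (B + ∑ v ∈ range n, (1:ℝ) * ct f v ^ 2) ≤ 2 * ((m:ℝ) + δ) * (B + B) := by
        gcongr
      linarith
    calc (SS δ (ext e n f) (n + 1) - SS δ e n) ^ 2 ≤ (3 * A + 4 * (m + δ) * B) ^ 2 :=
          pow_le_pow_left₀ n1 n2 2
      _ ≤ 18 * A ^ 2 + 32 * (m + δ) ^ 2 * B ^ 2 := by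
          nlinarith [sq_nonneg (3 * A - 4 * (m + δ) * B)]
      _ ≤ 18 * (m * ∑ i, WW δ e n (f i) ^ 2) + 32 * (m + δ) ^ 2 * (m * ∑ i, X δ e n (f i) ^ 2) := by
          gcongr
          · exact sq_sum_fin _
          · exact sq_sum_fin _
      _ = _ := by ring
  unfold ST
  refine le_trans (EE_mono (fun v _ => hp v) b) ?_
  rw [EE_add, EE_mul, EE_mul, EE_single h1 (fun v => X δ e n v ^ 2), EE_single h1 (fun v => WW δ e n v ^ 2)]
  have r1 : ∑ v ∈ range n, X δ e n v / LL m δ n * X δ e n v ^ 2 ≤ RS δ e n / LL m δ n := by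
    calc _ = (∑ v ∈ range n, X δ e n v ^ 3) / LL m δ n := by
          rw [sum_div]; exact sum_congr rfl fun v _ => by ring
      _ ≤ _ := div_le_div_of_nonneg_right (X_cube hδ e n) hL.le
  have r2 : ∑ v ∈ range n, X δ e n v / LL m δ n * WW δ e n v ^ 2 ≤ HS δ e n / LL m δ n := by
    calc _ = (∑ v ∈ range n, X δ e n v * WW δ e n v ^ 2) / LL m δ n := by
          rw [sum_div]; exact sum_congr rfl fun v _ => by ring
      _ ≤ _ := div_le_div_of_nonneg_right (F_le hδ) hL.le
  calc _ ≤ 18 * m * (m * (HS δ e n / LL m δ n)) + 32 * (m + δ) ^ 2 * m * (m * (RS δ e n / LL m δ n)) := by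
        gcongr
    _ = _ := by ring

end step

end Pool.Agent.D0H29.PA
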