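import Mathlib
import Pool.Agent.D0H29.PA.Step2
import Pool.Agent.D0H29.PA.Grow

/-!
Growth of the moments of the statistics.
-/

set_option autoImplicit false

namespace Pool.Agent.D0H29.PA

open Finset Filter Topology

variable {m : ℕ} {δ : ℝ}

lemma LL_ge (hδ : 0 < δ) {n : ℕ} (hn : 2 ≤ n) : ((m : ℝ) + δ) * n ≤ LL m δ n := by
  unfold LL
  have : (2:ℝ) ≤ n := by exact_mod_cast hn
  have hm : (0:ℝ) ≤ m := Nat.cast_nonneg m
  nlinarith

lemma LL_inv (hδ : 0 < δ) (hm : 1 ≤ m) {n : ℕ} (hn : 2 ≤ n) : 1 / LL m δ n ≤ 1 / n := by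
  have hn0 : (0:ℝ) < n := by exact_mod_cast (by omega : 0 < n)
  have h := LL_ge (m := m) hδ hn
  have hm' : (1:ℝ) ≤ m := by exact_mod_cast hm
  apply one_div_le_one_div_of_le hn0
  nlinarith

lemma pow_factor (hδ : 0 < δ) {k α : ℝ} (hk : 0 ≤ k) (hα : k * m / (2 * m + δ) < α) :
    ∀ᶠ n : ℕ in atTop, (1 + k / LL m δ n) ^ m ≤ 1 + α / n := by
  have hm0 : (0:ℝ) ≤ m := Nat.cast_nonneg m
  have hd : 0 < 2 * (m:ℝ) + δ := by positivity
  have hα0 : 0 < α := lt_of_le_of_lt (by positivity) hα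
  rw [div_lt_iff₀ hd] at hα
  set D := α * (2 * m + δ) - k * m with hD
  have hDp : 0 < D := by linarith
  obtain ⟨N, hN⟩ := exists_nat_ge ((k * m * α + 2 * m * α) / D)
  filter_upwards [eventually_ge_atTop (max N 2)] with n hn
  have hn2 : 2 ≤ n := le_trans (le_max_right _ _) hn
  have hnN : (N:ℝ) ≤ n := by exact_mod_cast le_trans (le_max_left _ _) hn
  have hn0 : (0:ℝ) < n := by exact_mod_cast (by omega : 0 < n)
  have hL := LL_pos (m := m) hδ (by omega : 1 ≤ n)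
  have h1 : k * m * α + 2 * m * α ≤ D * n := by
    have := hN.trans hnN
    rw [div_le_iff₀ hDp] at this
    linarith
  have hLe : LL m δ n = (2 * m + δ) * n - 2 * m := by unfold LL; ring
  set u := m * (k / LL m δ n) with hu
  have hu0 : 0 ≤ u := by positivity
  have h2 : u * (1 + α / n) ≤ α / n := by
    rw [hu]
    have e : m * (k / LL m δ n) * (1 + α / n) = (m * k * (n + α)) / (LL m δ n * n) := by field_simp
    rw [e, div_le_div_iff₀ (by positivity) hn0]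
    have : m * k * (n + α) ≤ α * LL m δ n := by rw [hLe]; rw [hD] at h1; nlinarith
    calc m * k * (n + α) * n ≤ (α * LL m δ n) * n := mul_le_mul_of_nonneg_right this hn0.le
      _ = _ := by ring
  have hp : 0 < 1 + α / n := by positivity
  have h3 : u < 1 := by
    by_contra hc
    push Not at hc
    nlinarith
  have h4 : (1 + k / LL m δ n) ^ m ≤ Real.exp u := by
    have : 1 + k / LL m δ n ≤ Real.exp (k / LL m δ n) := by
      linarith [Real.add_one_le_exp (k / LL m δ n)]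
    calc _ ≤ Real.exp (k / LL m δ n) ^ m := pow_le_pow_left₀ (by positivity) this m
      _ = _ := by rw [← Real.exp_nat_mul]
  have h5 : Real.exp u ≤ 1 / (1 - u) := by
    have := Real.one_sub_le_exp_neg u
    rw [le_div_iff₀ (by linarith)]
    calc Real.exp u * (1 - u) ≤ Real.exp u * Real.exp (-u) :=
          mul_le_mul_of_nonneg_left this (Real.exp_pos _).le
      _ = 1 := by rw [← Real.exp_add]; simp
  have h6 : 1 / (1 - u) ≤ 1 + α / n := by
    rw [div_le_iff₀ (by linarith)]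
    nlinarith
  linarith

/-- growth from a recursive inequality with the factor `(1 + k / L) ^ m` -/
lemma grow_pow (hδ : 0 < δ) {a : ℕ → ℝ} {k θ C : ℝ} (hk : 0 ≤ k)
    (hθ : k * m / (2 * m + δ) < θ) (hC : 0 ≤ C) (ha : ∀ n, 2 ≤ n → 0 ≤ a n)
    (h : ∀ n : ℕ, 2 ≤ n → a (n + 1) ≤ (1 + k / LL m δ n) ^ m * a n + C * (n : ℝ) ^ (θ - 1)) :
    ∃ A : ℝ, 0 ≤ A ∧ ∀ n : ℕ, 1 ≤ n → a n ≤ A * (n : ℝ) ^ θ := by
  have hd : 0 < 2 * (m:ℝ) + δ := by positivity
  obtain ⟨α, h1, h2⟩ := exists_between hθ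
  have hα0 : 0 ≤ α := le_trans (by positivity) h1.le
  obtain ⟨N, hN⟩ := eventually_atTop.1 (pow_factor hδ hk h1)
  refine grow (n0 := max N 2) hα0 h2 hC fun n hn => ?_
  have hn2 : 2 ≤ n := le_trans (le_max_right _ _) hn
  have := mul_le_mul_of_nonneg_right (hN n (le_trans (le_max_left _ _) hn)) (ha n hn2)
  linarith [h n hn2]

/-- the same with an additional square factor -/
lemma grow_ev (hδ : 0 < δ) {a b : ℕ → ℝ} {α θ C : ℝ} (hα : 0 ≤ α)
    (hθ : α < θ) (hC : 0 ≤ C) (ha : ∀ n, 2 ≤ n → 0 ≤ a n) (hb : ∀ᶠ n : ℕ in atTop, b n ≤ 1 + α / n)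
    (h : ∀ n : ℕ, 2 ≤ n → a (n + 1) ≤ b n * a n + C * (n : ℝ) ^ (θ - 1)) :
    ∃ A : ℝ, 0 ≤ A ∧ ∀ n : ℕ, 1 ≤ n → a n ≤ A * (n : ℝ) ^ θ := by
  obtain ⟨N, hN⟩ := eventually_atTop.1 hb
  refine grow (n0 := max N 2) hα hθ hC fun n hn => ?_
  have hn2 : 2 ≤ n := le_trans (le_max_right _ _) hn
  have := mul_le_mul_of_nonneg_right (hN n (le_trans (le_max_left _ _) hn)) (ha n hn2)
  linarith [h n hn2]

/-- the factor of the exact recursions -/
noncomputable def fa (m : ℕ) (δ : ℝ) (n : ℕ) : ℝ := 1 + 2 * m / LL m δ n + m * (m - 1) / LL m δ n ^ 2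

lemma ratio_lim (hδ : 0 < δ) : Tendsto (fun n : ℕ => (n:ℝ) / LL m δ n) atTop (𝓝 (1 / (2 * m + δ))) := by
  have hd : 0 < 2 * (m:ℝ) + δ := by positivity
  have h1 : Tendsto (fun n : ℕ => (2 * (m:ℝ) + δ) - 2 * m * (1 / (n:ℝ))) atTop (𝓝 ((2 * m + δ) - 2 * m * 0)) :=
    tendsto_const_nhds.sub (tendsto_one_div_atTop_nhds_zero_nat.const_mul _)
  rw [mul_zero, sub_zero] at h1
  have h2 := h1.inv₀ hd.ne'
  rw [one_div]
  refine h2.congr' ?_
  filter_upwards [eventually_ge_atTop 2] with n hn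
  have hn0 : (0:ℝ) < n := by exact_mod_cast (by omega : 0 < n)
  have hL := LL_pos (m := m) hδ (by omega : 1 ≤ n)
  have e : (2 * (m:ℝ) + δ) - 2 * m * (1 / (n:ℝ)) = LL m δ n / n := by unfold LL; field_simp; ring
  rw [e, inv_div]

lemma inv_lim (hδ : 0 < δ) : Tendsto (fun n : ℕ => 1 / LL m δ n) atTop (𝓝 0) := by
  have h1 := (ratio_lim (m := m) hδ).mul tendsto_one_div_atTop_nhds_zero_nat
  rw [mul_zero] at h1
  refine h1.congr' ?_
  filter_upwards [eventually_ge_atTop 2] with n hn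
  have hn0 : (0:ℝ) < n := by exact_mod_cast (by omega : 0 < n)
  field_simp

lemma fa_lim (hδ : 0 < δ) : Tendsto (fa m δ) atTop (𝓝 1) := by
  have h := inv_lim (m := m) hδ
  have h1 := (h.const_mul (2 * (m:ℝ))).const_add 1
  have h2 := h1.add ((h.mul h).const_mul ((m:ℝ) * (m - 1)))
  simp only [mul_zero, add_zero] at h2
  refine h2.congr fun n => ?_
  unfold fa
  ring

lemma fa_lim2 (hδ : 0 < δ) : Tendsto (fun n : ℕ => (n:ℝ) * (fa m δ n - 1)) atTop (𝓝 (2 * (m / (2 * m + δ)))) := by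
  have h := inv_lim (m := m) hδ
  have r := ratio_lim (m := m) hδ
  have h1 := (r.const_mul (2 * (m:ℝ))).add ((r.mul h).const_mul ((m:ℝ) * (m - 1)))
  have e : 2 * (m:ℝ) * (1 / (2 * m + δ)) + (m:ℝ) * (m - 1) * (1 / (2 * m + δ) * 0) = 2 * (m / (2 * m + δ)) := by ring
  rw [e] at h1
  refine h1.congr fun n => ?_
  unfold fa
  ring

lemma fa_le (hδ : 0 < δ) {α : ℝ} (hα : 2 * (m / (2 * m + δ)) < α) :
    ∀ᶠ n : ℕ in atTop, fa m δ n ≤ 1 + α / n := by
  filter_upwards [(fa_lim2 (m := m) hδ).eventually_le_const hα, eventually_ge_atTop 1] with n hn hn1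
  have hn0 : (0:ℝ) < n := by exact_mod_cast (by omega : 0 < n)
  have : fa m δ n - 1 ≤ α / n := by rw [le_div_iff₀ hn0]; linarith
  linarith

lemma fa_sq_le (hδ : 0 < δ) {ε α : ℝ} (hα : 4 * (m / (2 * m + δ)) + ε < α) :
    ∀ᶠ n : ℕ in atTop, (1 + ε / n) * fa m δ n ^ 2 ≤ 1 + α / n := by
  have h1 := fa_lim (m := m) hδ
  have h2 := fa_lim2 (m := m) hδ
  have h3 := (h2.mul (h1.add_const 1)).add ((h1.pow 2).const_mul ε)
  have e : 2 * ((m:ℝ) / (2 * m + δ)) * (1 + 1) + ε * 1 ^ 2 = 4 * (m / (2 * m + δ)) + ε := by ring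
  rw [e] at h3
  filter_upwards [h3.eventually_le_const hα, eventually_ge_atTop 1] with n hn hn1
  have hn0 : (0:ℝ) < n := by exact_mod_cast (by omega : 0 < n)
  have : (1 + ε / n) * fa m δ n ^ 2 - 1 ≤ α / n := by
    rw [le_div_iff₀ hn0]
    have e2 : ((1 + ε / n) * fa m δ n ^ 2 - 1) * n = (n:ℝ) * (fa m δ n - 1) * (fa m δ n + 1) + ε * fa m δ n ^ 2 := by
      field_simp; ring
    rw [e2]; exact hn
  linarith

lemma fa_nonneg (hδ : 0 < δ) (hm : 1 ≤ m) {n : ℕ} (hn : 2 ≤ n) : 0 ≤ fa m δ n := by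
  have hL := LL_pos (m := m) hδ (by omega : 1 ≤ n)
  have hm' : (0:ℝ) ≤ m - 1 := by
    have : (1:ℝ) ≤ m := by exact_mod_cast hm
    linarith
  unfold fa; positivity

/-! ### Moments -/

section

variable (hδ : 0 < δ) (hm : 1 ≤ m)

lemma HS_nonneg (hδ : 0 < δ) (e : Hist m) (n : ℕ) : 0 ≤ HS δ e n := by
  unfold HS PF
  refine sum_nonneg fun u _ => sum_nonneg fun v _ => ?_
  have h1 := (X_pos hδ e n u).le
  have h2 := (X_pos hδ e n v).le
  positivity

lemma SS_nonneg (hδ : 0 < δ) (e : Hist m) (n : ℕ) : 0 ≤ SS δ e n := by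
  unfold SS PF
  refine sum_nonneg fun u _ => sum_nonneg fun v _ => ?_
  have h1 := (X_pos hδ e n u).le
  have h2 := (X_pos hδ e n v).le
  positivity

lemma MS_nonneg (hδ : 0 < δ) (e : Hist m) (n : ℕ) : 0 ≤ MS δ e n := by
  unfold MS PF
  refine sum_nonneg fun u _ => sum_nonneg fun v _ => ?_
  have h1 := (X_pos hδ e n u).le
  have h2 := (X_pos hδ e n v).le
  have h3 : (0:ℝ) ≤ (mult e u v : ℝ) ^ 2 - mult e u v := by
    rcases Nat.eq_zero_or_pos (mult e u v) with h | h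
    · rw [h]; norm_num
    · have : (1:ℝ) ≤ mult e u v := by exact_mod_cast h
      nlinarith
  positivity

lemma RS_nonneg (hδ : 0 < δ) (e : Hist m) (n : ℕ) : 0 ≤ RS δ e n := by
  unfold RS VF
  refine sum_nonneg fun v _ => ?_
  have h1 := (X_pos hδ e n v).le
  positivity

lemma QS_nonneg (e : Hist m) (n : ℕ) : 0 ≤ QS δ e n := by
  unfold QS VF
  exact sum_nonneg fun v _ => sq_nonneg _

lemma Ex_ST {n : ℕ} (hn : 2 ≤ n) (F : Hist m → ℝ) :
    Ex m δ (n + 1) F = Ex m δ n (ST m δ n F) := Ex_succ hn F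

include hδ

lemma mom_R (hm : 1 ≤ m) : ∃ A : ℝ, 0 ≤ A ∧ ∀ n : ℕ, 2 ≤ n →
    Ex m δ n (fun e => RS δ e n) ≤ A * (n : ℝ) ^ (3 / 2 : ℝ) := by
  have hm' : (1:ℝ) ≤ m := by exact_mod_cast hm
  have hd : 0 < 2 * (m:ℝ) + δ := by positivity
  obtain ⟨A, hA, h⟩ := grow_pow (m := m) hδ (a := fun n => Ex m δ n (fun e => RS δ e n)) (k := 3)
    (θ := 3 / 2) (C := (m + δ) * (m + δ + 1) * (m + δ + 2)) (by norm_num)
    (by rw [div_lt_iff₀ hd]; linarith) (by positivity)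
    (fun n hn => Ex_nonneg hδ hn fun e _ => RS_nonneg hδ e n) (fun n hn => by
      rw [Ex_ST hn]
      refine le_trans (Ex_mono hδ hn fun e he => ST_R hδ hn he) ?_
      rw [Ex_add hn, Ex_mul hn, Ex_const hδ hn]
      have : (1:ℝ) ≤ (n:ℝ) ^ ((3:ℝ) / 2 - 1) :=
        Real.one_le_rpow (by exact_mod_cast (by omega : 1 ≤ n)) (by norm_num)
      have c : (0:ℝ) ≤ (m + δ) * (m + δ + 1) * (m + δ + 2) := by positivity
      nlinarith)
  exact ⟨A, hA, fun n hn => h n (by omega)⟩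

lemma mom_H (hm : 1 ≤ m) {θ : ℝ} (hθ : 3 / 2 ≤ θ) (hθ2 : 4 * m / (2 * m + δ) < θ) :
    ∃ A : ℝ, 0 ≤ A ∧ ∀ n : ℕ, 2 ≤ n → Ex m δ n (fun e => HS δ e n) ≤ A * (n : ℝ) ^ θ := by
  obtain ⟨A0, hA0, hR⟩ := mom_R hδ hm
  obtain ⟨A, hA, h⟩ := grow_pow (m := m) hδ (a := fun n => Ex m δ n (fun e => HS δ e n)) (k := 4)
    (θ := θ) (C := 12 * ((m + δ) * (m + δ + 1)) * m * A0) (by norm_num)
    hθ2 (by positivity)
    (fun n hn => Ex_nonneg hδ hn fun e _ => HS_nonneg hδ e n) (fun n hn => by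
      rw [Ex_ST hn]
      refine le_trans (Ex_mono hδ hn fun e he => ST_H hδ hm hn he) ?_
      rw [Ex_add hn, Ex_mul hn, Ex_mul hn]
      have hn0 : (0:ℝ) < n := by exact_mod_cast (by omega : 0 < n)
      have hL := LL_pos (m := m) hδ (by omega : 1 ≤ n)
      have e1 : Ex m δ n (fun e => RS δ e n / LL m δ n) = 1 / LL m δ n * Ex m δ n (fun e => RS δ e n) := by
        rw [← Ex_mul hn]; congr 1; funext e; ring
      have h2 : Ex m δ n (fun e => RS δ e n / LL m δ n) ≤ A0 * (n:ℝ) ^ (θ - 1) := by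
        rw [e1]
        calc 1 / LL m δ n * Ex m δ n (fun e => RS δ e n) ≤ 1 / n * (A0 * (n:ℝ) ^ (3 / 2 : ℝ)) :=
              mul_le_mul (LL_inv hδ hm hn) (hR n hn) (Ex_nonneg hδ hn fun e _ => RS_nonneg hδ e n)
                (by positivity)
          _ = A0 * (n:ℝ) ^ ((3:ℝ) / 2 - 1) := by
            rw [Real.rpow_sub hn0, Real.rpow_one]; ring
          _ ≤ A0 * (n:ℝ) ^ (θ - 1) := by
            refine mul_le_mul_of_nonneg_left ?_ hA0
            exact Real.rpow_le_rpow_of_exponent_le (by exact_mod_cast (by omega : 1 ≤ n)) (by linarith)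
      have c : (0:ℝ) ≤ 12 * ((m + δ) * (m + δ + 1)) * m := by positivity
      have := mul_le_mul_of_nonneg_left h2 c
      linarith)
  exact ⟨A, hA, fun n hn => h n (by omega)⟩

lemma mom_M (hm : 1 ≤ m) {θ : ℝ} (hθ : 1 / 2 ≤ θ) (hθ2 : 2 * m / (2 * m + δ) < θ) :
    ∃ A : ℝ, 0 ≤ A ∧ ∀ n : ℕ, 2 ≤ n → Ex m δ n (fun e => MS δ e n) ≤ A * (n : ℝ) ^ θ := by
  obtain ⟨A0, hA0, hR⟩ := mom_R hδ hm
  obtain ⟨A, hA, h⟩ := grow_pow (m := m) hδ (a := fun n => Ex m δ n (fun e => MS δ e n)) (k := 2)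
    (θ := θ) (C := 4 * (m + δ) * m ^ 2 * A0) (by norm_num)
    hθ2 (by positivity)
    (fun n hn => Ex_nonneg hδ hn fun e _ => MS_nonneg hδ e n) (fun n hn => by
      rw [Ex_ST hn]
      refine le_trans (Ex_mono hδ hn fun e he => ST_M hδ hm hn he) ?_
      rw [Ex_add hn, Ex_mul hn, Ex_mul hn]
      have hn0 : (0:ℝ) < n := by exact_mod_cast (by omega : 0 < n)
      have hL := LL_pos (m := m) hδ (by omega : 1 ≤ n)
      have e1 : Ex m δ n (fun e => RS δ e n / LL m δ n ^ 2) =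
          (1 / LL m δ n) ^ 2 * Ex m δ n (fun e => RS δ e n) := by
        rw [← Ex_mul hn]; congr 1; funext e; ring
      have h2 : Ex m δ n (fun e => RS δ e n / LL m δ n ^ 2) ≤ A0 * (n:ℝ) ^ (θ - 1) := by
        rw [e1]
        calc (1 / LL m δ n) ^ 2 * Ex m δ n (fun e => RS δ e n) ≤ (1 / n) ^ 2 * (A0 * (n:ℝ) ^ (3 / 2 : ℝ)) :=
              mul_le_mul (pow_le_pow_left₀ (by positivity) (LL_inv hδ hm hn) 2) (hR n hn)
                (Ex_nonneg hδ hn fun e _ => RS_nonneg hδ e n) (by positivity)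
          _ = A0 * (n:ℝ) ^ ((3:ℝ) / 2 - 2) := by
            rw [Real.rpow_sub hn0]
            have : (n:ℝ) ^ (2:ℝ) = (n:ℝ) ^ 2 := by norm_cast
            rw [this]; ring
          _ ≤ A0 * (n:ℝ) ^ (θ - 1) := by
            refine mul_le_mul_of_nonneg_left ?_ hA0
            exact Real.rpow_le_rpow_of_exponent_le (by exact_mod_cast (by omega : 1 ≤ n)) (by linarith)
      have c : (0:ℝ) ≤ 4 * (m + δ) * m ^ 2 := by positivity
      have := mul_le_mul_of_nonneg_left h2 c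
      linarith)
  exact ⟨A, hA, fun n hn => h n (by omega)⟩

lemma Q_rec {n : ℕ} (hn : 2 ≤ n) : Ex m δ (n + 1) (fun e => QS δ e (n + 1)) =
    fa m δ n * Ex m δ n (fun e => QS δ e n) + (m + (m + δ) ^ 2) := by
  rw [Ex_ST hn, Ex_congr hδ hn fun e he => ST_Q hδ hn he, Ex_add hn, Ex_mul hn, Ex_const hδ hn]
  rfl

/-- coefficient of the quadratic statistic in the recursion of the edge statistic -/
noncomputable def fb (m : ℕ) (δ : ℝ) (n : ℕ) : ℝ := 2 * (m + δ) * m * (1 + (m - 1) / LL m δ n) / LL m δ n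

lemma S_rec {n : ℕ} (hn : 2 ≤ n) : Ex m δ (n + 1) (fun e => SS δ e (n + 1)) =
    fa m δ n * Ex m δ n (fun e => SS δ e n) + fb m δ n * Ex m δ n (fun e => QS δ e n) +
      2 * (m + δ) * m := by
  rw [Ex_ST hn, Ex_congr hδ hn fun e he => ST_S hδ hn he, Ex_add hn, Ex_add hn, Ex_mul hn, Ex_mul hn,
    Ex_const hδ hn]
  rfl

lemma fb_bound (hm : 1 ≤ m) {n : ℕ} (hn : 2 ≤ n) :
    0 ≤ fb m δ n ∧ fb m δ n ≤ 2 * (m + δ) * m * m / n := by
  have hL := LL_pos (m := m) hδ (by omega : 1 ≤ n)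
  have hn0 : (0:ℝ) < n := by exact_mod_cast (by omega : 0 < n)
  have hn1 : (1:ℝ) ≤ n := by exact_mod_cast (by omega : 1 ≤ n)
  have hm1 : (1:ℝ) ≤ m := by exact_mod_cast hm
  have hm' : (0:ℝ) ≤ m - 1 := by linarith
  have hi := LL_inv hδ hm hn
  have hi2 : 1 / LL m δ n ≤ 1 := hi.trans (by rw [div_le_one hn0]; exact hn1)
  have hi0 : 0 ≤ 1 / LL m δ n := by positivity
  constructor
  · unfold fb; positivity
  · have h1 : 1 + (m - 1) / LL m δ n ≤ m := by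
      have : (m - 1) / LL m δ n = (m - 1) * (1 / LL m δ n) := by ring
      rw [this]; nlinarith
    have h2 : 0 ≤ 1 + (m - 1) / LL m δ n := by positivity
    calc fb m δ n = 2 * (m + δ) * m * (1 + (m - 1) / LL m δ n) * (1 / LL m δ n) := by unfold fb; ring
      _ ≤ 2 * (m + δ) * m * m * (1 / n) := by gcongr
      _ = _ := by ring

lemma beta_half (hm : 1 ≤ m) : 2 * ((m:ℝ) / (2 * m + δ)) < 1 := by
  have hm1 : (1:ℝ) ≤ m := by exact_mod_cast hm
  have : 2 * ((m:ℝ) / (2 * m + δ)) = 2 * m / (2 * m + δ) := by ring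
  rw [this, div_lt_one (by positivity)]
  linarith

lemma mom_Q (hm : 1 ≤ m) : ∃ A : ℝ, 0 ≤ A ∧ ∀ n : ℕ, 2 ≤ n →
    Ex m δ n (fun e => QS δ e n) ≤ A * (n : ℝ) := by
  obtain ⟨α, h1, h2⟩ := exists_between (beta_half hδ hm)
  have hα0 : 0 ≤ α := le_trans (by positivity) h1.le
  obtain ⟨A, hA, h⟩ := grow_ev (a := fun n => Ex m δ n (fun e => QS δ e n)) (b := fa m δ) hδ
    (C := m + (m + δ) ^ 2) hα0 h2 (by positivity) (fun n hn => Ex_nonneg hδ hn fun e _ => QS_nonneg e n)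
    (fa_le hδ h1) (fun n hn => by
      rw [Q_rec hδ hn]; simp)
  exact ⟨A, hA, fun n hn => by simpa using h n (by omega)⟩

lemma mom_S (hm : 1 ≤ m) : ∃ A : ℝ, 0 ≤ A ∧ ∀ n : ℕ, 2 ≤ n →
    Ex m δ n (fun e => SS δ e n) ≤ A * (n : ℝ) := by
  obtain ⟨A0, hA0, hQ⟩ := mom_Q hδ hm
  obtain ⟨α, h1, h2⟩ := exists_between (beta_half hδ hm)
  have hα0 : 0 ≤ α := le_trans (by positivity) h1.le
  obtain ⟨A, hA, h⟩ := grow_ev (a := fun n => Ex m δ n (fun e => SS δ e n)) (b := fa m δ) hδ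
    (C := 2 * (m + δ) * m * m * A0 + 2 * (m + δ) * m) hα0 h2 (by positivity)
    (fun n hn => Ex_nonneg hδ hn fun e _ => SS_nonneg hδ e n)
    (fa_le hδ h1) (fun n hn => by
      rw [S_rec hδ hn]
      have hn0 : (0:ℝ) < n := by exact_mod_cast (by omega : 0 < n)
      have b := fb_bound hδ hm hn
      have q0 : 0 ≤ Ex m δ n (fun e => QS δ e n) := Ex_nonneg hδ hn fun e _ => QS_nonneg e n
      have : fb m δ n * Ex m δ n (fun e => QS δ e n) ≤ 2 * (m + δ) * m * m * A0 := by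
        calc _ ≤ (2 * (m + δ) * m * m / n) * (A0 * n) := mul_le_mul b.2 (hQ n hn) q0 (by positivity)
          _ = _ := by field_simp
      simp
      linarith)
  exact ⟨A, hA, fun n hn => by simpa using h n (by omega)⟩

end

end Pool.Agent.D0H29.PA
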