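import Mathlib
import Pool.Agent.D0H29.PA.Mom

/-!
Variances of the statistics.
-/

set_option autoImplicit false

namespace Pool.Agent.D0H29.PA

open Finset Filter Topology

variable {m : ℕ} {δ : ℝ}

lemma EE_var {s : Finset ℕ} {p : ℕ → ℝ} (h1 : ∑ v ∈ s, p v = 1) (G : (Fin m → ℕ) → ℝ) (c d : ℝ) :
    EE m s p (fun f => (G f - c) ^ 2) ≤ EE m s p (fun f => (G f - d) ^ 2) + (EE m s p G - c) ^ 2 := by
  have h : ∀ c : ℝ, EE m s p (fun f => (G f - c) ^ 2) =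
      EE m s p (fun f => G f ^ 2) - 2 * c * EE m s p G + c ^ 2 := by
    intro c
    have : (fun f : Fin m → ℕ => (G f - c) ^ 2) = fun f => (G f ^ 2 - 2 * c * G f) + c ^ 2 := by
      funext f; ring
    rw [this, EE_add, EE_sub, EE_mul, EE_const h1]
  rw [h c, h d]
  nlinarith [sq_nonneg (EE m s p G - d)]

section

variable (hδ : 0 < δ) (hm : 1 ≤ m)

include hδ hm

lemma R_L {A0 : ℝ} (hA0 : 0 ≤ A0) (hR : ∀ n : ℕ, 2 ≤ n → Ex m δ n (fun e => RS δ e n) ≤ A0 * (n : ℝ) ^ (3 / 2 : ℝ))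
    {θ : ℝ} (hθ : 3 / 2 ≤ θ) {n : ℕ} (hn : 2 ≤ n) :
    Ex m δ n (fun e => RS δ e n / LL m δ n) ≤ A0 * (n:ℝ) ^ (θ - 1) := by
  have hn0 : (0:ℝ) < n := by exact_mod_cast (by omega : 0 < n)
  have hL := LL_pos (m := m) hδ (by omega : 1 ≤ n)
  have e1 : Ex m δ n (fun e => RS δ e n / LL m δ n) = 1 / LL m δ n * Ex m δ n (fun e => RS δ e n) := by
    rw [← Ex_mul hn]; congr 1; funext e; ring
  rw [e1]
  calc 1 / LL m δ n * Ex m δ n (fun e => RS δ e n) ≤ 1 / n * (A0 * (n:ℝ) ^ (3 / 2 : ℝ)) :=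
        mul_le_mul (LL_inv hδ hm hn) (hR n hn) (Ex_nonneg hδ hn fun e _ => RS_nonneg hδ e n)
          (by positivity)
    _ = A0 * (n:ℝ) ^ ((3:ℝ) / 2 - 1) := by
      rw [Real.rpow_sub hn0, Real.rpow_one]; ring
    _ ≤ A0 * (n:ℝ) ^ (θ - 1) := by
      refine mul_le_mul_of_nonneg_left ?_ hA0
      exact Real.rpow_le_rpow_of_exponent_le (by exact_mod_cast (by omega : 1 ≤ n)) (by linarith)

lemma H_L {A0 θ : ℝ} (hA0 : 0 ≤ A0) (hH : ∀ n : ℕ, 2 ≤ n → Ex m δ n (fun e => HS δ e n) ≤ A0 * (n : ℝ) ^ θ)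
    {n : ℕ} (hn : 2 ≤ n) :
    Ex m δ n (fun e => HS δ e n / LL m δ n) ≤ A0 * (n:ℝ) ^ (θ - 1) := by
  have hn0 : (0:ℝ) < n := by exact_mod_cast (by omega : 0 < n)
  have hL := LL_pos (m := m) hδ (by omega : 1 ≤ n)
  have e1 : Ex m δ n (fun e => HS δ e n / LL m δ n) = 1 / LL m δ n * Ex m δ n (fun e => HS δ e n) := by
    rw [← Ex_mul hn]; congr 1; funext e; ring
  rw [e1]
  calc 1 / LL m δ n * Ex m δ n (fun e => HS δ e n) ≤ 1 / n * (A0 * (n:ℝ) ^ θ) :=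
        mul_le_mul (LL_inv hδ hm hn) (hH n hn) (Ex_nonneg hδ hn fun e _ => HS_nonneg hδ e n)
          (by positivity)
    _ = A0 * (n:ℝ) ^ (θ - 1) := by
      rw [Real.rpow_sub hn0, Real.rpow_one]; ring

/-- variance of the quadratic statistic -/
lemma var_Q {θ : ℝ} (hθ : 3 / 2 ≤ θ) (hθ2 : 4 * (m / (2 * m + δ)) < θ) :
    ∃ A : ℝ, 0 ≤ A ∧ ∀ n : ℕ, 2 ≤ n →
      Ex m δ n (fun e => (QS δ e n - Ex m δ n (fun e => QS δ e n)) ^ 2) ≤ A * (n : ℝ) ^ θ := by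
  obtain ⟨A0, hA0, hR⟩ := mom_R hδ hm
  obtain ⟨α, h1, h2⟩ := exists_between hθ2
  have hα0 : 0 ≤ α := le_trans (by positivity) h1.le
  have h1' : 4 * ((m:ℝ) / (2 * m + δ)) + 0 < α := by linarith
  obtain ⟨A, hA, h⟩ := grow_ev (a := fun n => Ex m δ n (fun e => (QS δ e n - Ex m δ n (fun e => QS δ e n)) ^ 2))
    (b := fun n => (1 + 0 / (n:ℝ)) * fa m δ n ^ 2) hδ
    (C := (3 + m + δ) ^ 2 * m ^ 2 * A0) hα0 h2 (by positivity)
    (fun n hn => Ex_nonneg hδ hn fun e _ => sq_nonneg _)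
    (fa_sq_le hδ h1') (fun n hn => by
      set q := Ex m δ n (fun e => QS δ e n) with hq
      rw [Q_rec hδ hn, ← hq]
      rw [Ex_ST hn]
      have step : ∀ e, Valid n e → ST m δ n (fun e => (QS δ e (n + 1) - (fa m δ n * q + (m + (m + δ) ^ 2))) ^ 2) e ≤
          (3 + m + δ) ^ 2 * m ^ 2 * (RS δ e n / LL m δ n) + fa m δ n ^ 2 * (QS δ e n - q) ^ 2 := by
        intro e he
        refine le_trans (EE_var (prob_sum hδ (by omega) he) _ _ (QS δ e n)) ?_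
        have a1 := ST_Q2 hδ hm hn he
        have a2 := ST_Q hδ hn he
        have a3 : EE m (range n) (fun v => X δ e n v / LL m δ n) (fun f => QS δ (ext e n f) (n + 1)) =
          fa m δ n * QS δ e n + (m + (m + δ) ^ 2) := a2
        rw [a3]
        refine add_le_add a1 (le_of_eq ?_)
        ring
      refine le_trans (Ex_mono hδ hn step) ?_
      rw [Ex_add hn, Ex_mul hn, Ex_mul hn]
      have := mul_le_mul_of_nonneg_left (R_L hδ hm hA0 hR hθ hn)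
        (by positivity : (0:ℝ) ≤ (3 + m + δ) ^ 2 * m ^ 2)
      simp only [zero_div, add_zero, one_mul]
      linarith)
  exact ⟨A, hA, fun n hn => h n (by omega)⟩

/-- variance of the edge statistic -/
lemma var_S {θ : ℝ} (hθ : 3 / 2 ≤ θ) (hθ2 : 4 * (m / (2 * m + δ)) < θ) :
    ∃ A : ℝ, 0 ≤ A ∧ ∀ n : ℕ, 2 ≤ n →
      Ex m δ n (fun e => (SS δ e n - Ex m δ n (fun e => SS δ e n)) ^ 2) ≤ A * (n : ℝ) ^ θ := by
  obtain ⟨A0, hA0, hR⟩ := mom_R hδ hm
  obtain ⟨A1, hA1, hH⟩ := mom_H hδ hm hθ (by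
    have : 4 * (m:ℝ) / (2 * m + δ) = 4 * (m / (2 * m + δ)) := by ring
    rw [this]; exact hθ2)
  obtain ⟨A2, hA2, hQ⟩ := var_Q hδ hm hθ hθ2
  set ε := (θ - 4 * ((m:ℝ) / (2 * m + δ))) / 3 with hε
  have hε0 : 0 < ε := by rw [hε]; linarith
  set α := 4 * ((m:ℝ) / (2 * m + δ)) + 2 * ε with hα
  have hα0 : 0 ≤ α := by positivity
  have h1' : 4 * ((m:ℝ) / (2 * m + δ)) + ε < α := by linarith
  have h2 : α < θ := by rw [hα, hε]; linarith
  set B := 2 * ((m:ℝ) + δ) * m * m with hB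
  obtain ⟨A, hA, h⟩ := grow_ev (a := fun n => Ex m δ n (fun e => (SS δ e n - Ex m δ n (fun e => SS δ e n)) ^ 2))
    (b := fun n => (1 + ε / (n:ℝ)) * fa m δ n ^ 2) hδ
    (C := 18 * m ^ 2 * A1 + 32 * (m + δ) ^ 2 * m ^ 2 * A0 + (1 + 1 / ε) * B ^ 2 * A2) hα0 h2 (by positivity)
    (fun n hn => Ex_nonneg hδ hn fun e _ => sq_nonneg _)
    (fa_sq_le hδ h1') (fun n hn => by
      have hn0 : (0:ℝ) < n := by exact_mod_cast (by omega : 0 < n)
      have hn1 : (1:ℝ) ≤ n := by exact_mod_cast (by omega : 1 ≤ n)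
      set q := Ex m δ n (fun e => QS δ e n) with hq
      set s := Ex m δ n (fun e => SS δ e n) with hs
      rw [S_rec hδ hn, ← hq, ← hs]
      rw [Ex_ST hn]
      have step : ∀ e, Valid n e → ST m δ n (fun e => (SS δ e (n + 1) -
            (fa m δ n * s + fb m δ n * q + 2 * (m + δ) * m)) ^ 2) e ≤
          (18 * m ^ 2 * (HS δ e n / LL m δ n) + 32 * (m + δ) ^ 2 * m ^ 2 * (RS δ e n / LL m δ n)) +
            ((1 + ε / n) * fa m δ n ^ 2 * (SS δ e n - s) ^ 2 + (1 + n / ε) * fb m δ n ^ 2 * (QS δ e n - q) ^ 2) := by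
        intro e he
        refine le_trans (EE_var (prob_sum hδ (by omega) he) _ _ (SS δ e n)) ?_
        have a1 := ST_S2 hδ hm hn he
        have a3 : EE m (range n) (fun v => X δ e n v / LL m δ n) (fun f => SS δ (ext e n f) (n + 1)) =
          fa m δ n * SS δ e n + fb m δ n * QS δ e n + 2 * (m + δ) * m := ST_S hδ hn he
        rw [a3]
        refine add_le_add a1 ?_
        have e2 : fa m δ n * SS δ e n + fb m δ n * QS δ e n + 2 * (m + δ) * m -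
            (fa m δ n * s + fb m δ n * q + 2 * (m + δ) * m) =
            fa m δ n * (SS δ e n - s) + fb m δ n * (QS δ e n - q) := by ring
        rw [e2]
        set x := fa m δ n * (SS δ e n - s) with hx
        set y := fb m δ n * (QS δ e n - q) with hy
        have e3 : (1 + ε / n) * fa m δ n ^ 2 * (SS δ e n - s) ^ 2 = (1 + ε / n) * x ^ 2 := by rw [hx]; ring
        have e4 : (1 + n / ε) * fb m δ n ^ 2 * (QS δ e n - q) ^ 2 = (1 + n / ε) * y ^ 2 := by rw [hy]; ring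
        rw [e3, e4]
        have e5 : 0 ≤ (n / ε) * (ε / n * x - y) ^ 2 := by positivity
        have e6 : (n / ε) * (ε / n * x - y) ^ 2 = ε / n * x ^ 2 - 2 * x * y + n / ε * y ^ 2 := by
          field_simp; ring
        rw [e6] at e5
        nlinarith
      refine le_trans (Ex_mono hδ hn step) ?_
      rw [Ex_add hn, Ex_add hn, Ex_add hn, Ex_mul hn, Ex_mul hn, Ex_mul hn, Ex_mul hn]
      have b1 := mul_le_mul_of_nonneg_left (R_L hδ hm hA0 hR hθ hn)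
        (by positivity : (0:ℝ) ≤ 32 * (m + δ) ^ 2 * m ^ 2)
      have b2 := mul_le_mul_of_nonneg_left (H_L hδ hm hA1 hH hn)
        (by positivity : (0:ℝ) ≤ 18 * (m:ℝ) ^ 2)
      have b3 : (1 + n / ε) * fb m δ n ^ 2 * Ex m δ n (fun e => (QS δ e n - q) ^ 2) ≤
          (1 + 1 / ε) * B ^ 2 * A2 * (n:ℝ) ^ (θ - 1) := by
        have fbb := fb_bound hδ hm hn
        have c1 : fb m δ n ^ 2 ≤ (B / n) ^ 2 := pow_le_pow_left₀ fbb.1 fbb.2 2
        have c2 : 1 + n / ε ≤ n * (1 + 1 / ε) := by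
          have : n * (1 + 1 / ε) = n + n / ε := by ring
          rw [this]; linarith
        calc _ ≤ (n * (1 + 1 / ε)) * (B / n) ^ 2 * (A2 * (n:ℝ) ^ θ) := by
              refine mul_le_mul ?_ (hQ n hn) (Ex_nonneg hδ hn fun e _ => sq_nonneg _) (by positivity)
              exact mul_le_mul c2 c1 (sq_nonneg _) (by positivity)
          _ = _ := by
            rw [Real.rpow_sub hn0, Real.rpow_one]; field_simp
      linarith)
  exact ⟨A, hA, fun n hn => h n (by omega)⟩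

/-- mean deviation of the edge statistic -/
lemma dev_S {θ : ℝ} (hθ : 3 / 2 ≤ θ) (hθ2 : 4 * (m / (2 * m + δ)) < θ) :
    ∃ A : ℝ, 0 ≤ A ∧ ∀ n : ℕ, 2 ≤ n →
      Ex m δ n (fun e => |SS δ e n - Ex m δ n (fun e => SS δ e n)|) ≤ A * (n : ℝ) ^ (θ / 2) := by
  obtain ⟨A, hA, h⟩ := var_S hδ hm hθ hθ2
  refine ⟨(A + 1) / 2, by positivity, fun n hn => ?_⟩
  have hn0 : (0:ℝ) < n := by exact_mod_cast (by omega : 0 < n)
  set s := Ex m δ n (fun e => SS δ e n) with hs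
  set t := (n:ℝ) ^ (θ / 2) with ht
  have ht0 : 0 < t := by positivity
  have h1 : ∀ e : Hist m, Valid n e → |SS δ e n - s| ≤ (1 / (2 * t)) * (SS δ e n - s) ^ 2 + t / 2 := by
    intro e _
    have : 0 ≤ (|SS δ e n - s| - t) ^ 2 / (2 * t) := by positivity
    have e2 : (|SS δ e n - s| - t) ^ 2 / (2 * t) =
        (1 / (2 * t)) * (SS δ e n - s) ^ 2 + t / 2 - |SS δ e n - s| := by
      field_simp
      rw [sub_sq, sq_abs]; ring
    linarith
  refine le_trans (Ex_mono hδ hn h1) ?_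
  rw [Ex_add hn, Ex_mul hn, Ex_const hδ hn]
  have h2 : (1 / (2 * t)) * Ex m δ n (fun e => (SS δ e n - s) ^ 2) ≤ (1 / (2 * t)) * (A * (n:ℝ) ^ θ) :=
    mul_le_mul_of_nonneg_left (h n hn) (by positivity)
  have e3 : (n:ℝ) ^ θ = t * t := by rw [ht, ← Real.rpow_add hn0]; congr 1; ring
  rw [e3] at h2
  have e4 : (1 / (2 * t)) * (A * (t * t)) = A / 2 * t := by field_simp
  rw [e4] at h2
  linarith

end

end Pool.Agent.D0H29.PA
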