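import Mathlib

/-!
Stein's method for the normal law: the solution of `g' - x g = h - E h(Z)` for a Lipschitz
function `h` with continuous derivative satisfies `|g| ≤ 1` and `|g''| ≤ 2`.
-/

set_option autoImplicit false

namespace Pool.Agent.D0H29.PA

open Real MeasureTheory Set Filter Topology

/-- the Gaussian weight -/
noncomputable def ee (x : ℝ) : ℝ := Real.exp (-(1 / 2) * x ^ 2)

lemma ee_pos (x : ℝ) : 0 < ee x := Real.exp_pos _

lemma ee_cont : Continuous ee := by unfold ee; fun_prop

lemma ee_int : Integrable ee := integrable_exp_neg_mul_sq (by norm_num)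

lemma eem_int : Integrable (fun x => x * ee x) := integrable_mul_exp_neg_mul_sq (by norm_num)

lemma ee_neg (x : ℝ) : ee (-x) = ee x := by unfold ee; ring_nf

lemma ee_deriv (x : ℝ) : HasDerivAt ee (-x * ee x) x := by
  have h1 : HasDerivAt (fun x : ℝ => -(1 / 2) * x ^ 2) (-(1 / 2) * (2 * x)) x := by
    simpa using ((hasDerivAt_pow 2 x).const_mul (-(1 / 2 : ℝ)))
  have := h1.exp
  unfold ee
  convert this using 1
  ring

lemma ee_tendsto_top : Tendsto ee atTop (𝓝 0) := by
  unfold ee
  apply Real.tendsto_exp_atBot.comp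
  have h : Tendsto (fun x : ℝ => x ^ 2) atTop atTop := tendsto_pow_atTop (by norm_num)
  exact h.const_mul_atTop_of_neg (by norm_num)

/-- upper tail -/
noncomputable def VV (x : ℝ) : ℝ := ∫ t in Ioi x, ee t

/-- lower tail -/
noncomputable def UU (x : ℝ) : ℝ := ∫ t in Iic x, ee t

/-- total mass -/
noncomputable def cc : ℝ := ∫ t, ee t

lemma UV (x : ℝ) : UU x + VV x = cc := by
  unfold UU VV cc
  have := setIntegral_union (μ := volume) (f := ee) (s := Iic x) (t := Ioi x)
    (Iic_disjoint_Ioi le_rfl) measurableSet_Ioi ee_int.integrableOn ee_int.integrableOn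
  rw [← this, Iic_union_Ioi, setIntegral_univ]

lemma VV_nonneg (x : ℝ) : 0 ≤ VV x := integral_nonneg fun t => (ee_pos t).le

lemma UU_nonneg (x : ℝ) : 0 ≤ UU x := integral_nonneg fun t => (ee_pos t).le

lemma UU_neg (x : ℝ) : UU (-x) = VV x := by
  unfold UU VV
  have := integral_comp_neg_Iic (-x) ee
  simp only [ee_neg, neg_neg] at this
  exact this

lemma VV_neg (x : ℝ) : VV (-x) = UU x := by
  have := UU_neg (-x)
  rw [neg_neg] at this
  exact this.symm

lemma cc_pos : 0 < cc := by
  unfold cc
  have : (∫ t, ee t) = √(π / (1/2)) := by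
    unfold ee
    exact integral_gaussian (1/2)
  rw [this]
  positivity

/-- `∫_{Ioi x} t e(t) dt = e(x)` -/
lemma J_Ioi (x : ℝ) : ∫ t in Ioi x, t * ee t = ee x := by
  have h := integral_Ioi_of_hasDerivAt_of_tendsto' (a := x) (f := fun t => - ee t)
    (f' := fun t => t * ee t) (m := 0)
    (fun t _ => by
      have h1 : HasDerivAt (fun t => - ee t) (-(-t * ee t)) t := (ee_deriv t).neg
      have h2 : -(-t * ee t) = t * ee t := by ring
      rwa [h2] at h1)
    eem_int.integrableOn (by simpa using ee_tendsto_top.neg)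
  rw [h]; ring

lemma J_Iic (x : ℝ) : ∫ t in Iic x, t * ee t = - ee x := by
  have h0 : (∫ t, t * ee t) = 0 := by
    have h1 : (∫ t, (-t) * ee (-t)) = ∫ t, t * ee t := integral_neg_eq_self (fun t => t * ee t) volume
    have h2 : (∫ t, (-t) * ee (-t)) = - ∫ t, t * ee t := by
      rw [← integral_neg]; congr 1; funext t; rw [ee_neg]; ring
    linarith
  have := setIntegral_union (μ := volume) (f := fun t => t * ee t) (s := Iic x) (t := Ioi x)
    (Iic_disjoint_Ioi le_rfl) measurableSet_Ioi eem_int.integrableOn eem_int.integrableOn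
  rw [Iic_union_Ioi, setIntegral_univ, h0, J_Ioi] at this
  linarith

/-- Mills ratio bound -/
lemma mills (x : ℝ) : x * ee x ≤ (1 + x ^ 2) * VV x := by
  have hd : ∀ t : ℝ, HasDerivAt (fun t => - (t * ee t / (1 + t ^ 2)))
      (ee t - 2 * ee t / (1 + t ^ 2) ^ 2) t := by
    intro t
    have hne : (1 + t ^ 2) ≠ 0 := by positivity
    have h1 : HasDerivAt (fun t : ℝ => t * ee t) (1 * ee t + t * (-t * ee t)) t :=
      (hasDerivAt_id t).mul (ee_deriv t)
    have h2 : HasDerivAt (fun t : ℝ => 1 + t ^ 2) (2 * t) t := by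
      simpa using (hasDerivAt_pow 2 t).const_add 1
    have h3 : HasDerivAt (fun t => - (t * ee t / (1 + t ^ 2)))
        (-(((1 * ee t + t * (-t * ee t)) * (1 + t ^ 2) - t * ee t * (2 * t)) / (1 + t ^ 2) ^ 2)) t :=
      (h1.div h2 hne).neg
    have h4 : ee t - 2 * ee t / (1 + t ^ 2) ^ 2 =
        (-(((1 * ee t + t * (-t * ee t)) * (1 + t ^ 2) - t * ee t * (2 * t)) / (1 + t ^ 2) ^ 2)) := by
      field_simp
      ring
    rwa [h4]
  have hint : Integrable (fun t => ee t - 2 * ee t / (1 + t ^ 2) ^ 2) := by
    refine ee_int.sub ?_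
    refine Integrable.mono' (ee_int.const_mul 2) ?_ ?_
    · apply Continuous.aestronglyMeasurable
      refine (continuous_const.mul ee_cont).div (by fun_prop) (fun t => by positivity)
    · refine ae_of_all _ fun t => ?_
      have h1 : 0 ≤ 2 * ee t / (1 + t ^ 2) ^ 2 := by have := (ee_pos t).le; positivity
      rw [Real.norm_of_nonneg h1]
      apply div_le_self (by have := (ee_pos t).le; positivity)
      nlinarith [sq_nonneg t, sq_nonneg (t ^ 2)]
  have hlim : Tendsto (fun t => - (t * ee t / (1 + t ^ 2))) atTop (𝓝 0) := by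
    rw [tendsto_zero_iff_abs_tendsto_zero]
    refine squeeze_zero (fun t => abs_nonneg _) (fun t => ?_) ee_tendsto_top
    show |- (t * ee t / (1 + t ^ 2))| ≤ ee t
    rw [abs_neg, abs_div, abs_mul, abs_of_pos (ee_pos t), abs_of_pos (by positivity : 0 < 1 + t ^ 2),
      div_le_iff₀ (by positivity)]
    have : |t| ≤ 1 + t ^ 2 := by
      rcases abs_cases t with ⟨h, _⟩ | ⟨h, _⟩ <;> rw [h] <;> nlinarith [sq_nonneg (t - 1), sq_nonneg (t + 1)]
    nlinarith [ee_pos t]
  have h := integral_Ioi_of_hasDerivAt_of_tendsto' (a := x) (fun t _ => hd t)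
    hint.integrableOn hlim
  have hle : (∫ t in Ioi x, (ee t - 2 * ee t / (1 + t ^ 2) ^ 2)) ≤ VV x := by
    unfold VV
    refine integral_mono hint.integrableOn ee_int.integrableOn fun t => ?_
    have h1 : 0 ≤ 2 * ee t / (1 + t ^ 2) ^ 2 := by have := (ee_pos t).le; positivity
    simp only
    linarith
  rw [h] at hle
  have h2 : x * ee x / (1 + x ^ 2) ≤ VV x := by linarith
  rw [div_le_iff₀ (by positivity)] at h2
  linarith

lemma mills' (x : ℝ) : -(x * ee x) ≤ (1 + x ^ 2) * UU x := by
  have := mills (-x)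
  rw [VV_neg, ee_neg] at this
  nlinarith

lemma hasDerivAt_Iic {f : ℝ → ℝ} (hc : Continuous f) (hi : Integrable f) (x : ℝ) :
    HasDerivAt (fun y => ∫ t in Iic y, f t) (f x) x := by
  have e : (fun y => ∫ t in Iic y, f t) = fun y => (∫ t in Iic 0, f t) + ∫ t in (0:ℝ)..y, f t := by
    funext y
    have := intervalIntegral.integral_Iic_sub_Iic (μ := volume) (f := f) (a := 0) (b := y)
      hi.integrableOn hi.integrableOn
    linarith
  rw [e]
  exact (intervalIntegral.integral_hasDerivAt_right (hc.intervalIntegrable _ _)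
    (hc.stronglyMeasurableAtFilter _ _) hc.continuousAt).const_add _

section sol

variable (h h' : ℝ → ℝ)

/-- integral of `h` against the weight -/
noncomputable def HH : ℝ := ∫ t, h t * ee t

/-- the normal expectation -/
noncomputable def NN : ℝ := HH h / cc

/-- partial integral -/
noncomputable def KK (x : ℝ) : ℝ := ∫ t in Iic x, h t * ee t

/-- the Stein solution -/
noncomputable def gg (x : ℝ) : ℝ := (KK h x - NN h * UU x) / ee x

variable {h h'}

lemma h_int (hL : ∀ x y, |h x - h y| ≤ |x - y|) (hc : Continuous h) :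
    Integrable (fun t => h t * ee t) := by
  refine Integrable.mono' ((ee_int.const_mul |h 0|).add eem_int.norm)
    (hc.mul ee_cont).aestronglyMeasurable (ae_of_all _ fun t => ?_)
  have h1 : |h t| ≤ |h 0| + |t| := by
    have := hL t 0
    rw [sub_zero] at this
    have h2 : |h t| ≤ |h t - h 0| + |h 0| := by
      calc |h t| = |(h t - h 0) + h 0| := by ring_nf
        _ ≤ _ := abs_add_le _ _
    linarith
  simp only [Pi.add_apply, norm_mul, Real.norm_eq_abs, abs_of_pos (ee_pos t)]
  nlinarith [ee_pos t, abs_nonneg t]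

lemma A_bound (hL : ∀ x y, |h x - h y| ≤ |x - y|) (hc : Continuous h) (x : ℝ) :
    |h x * UU x - KK h x| ≤ x * UU x + ee x := by
  have hi := h_int hL hc
  have e1 : h x * UU x - KK h x = ∫ t in Iic x, (h x - h t) * ee t := by
    unfold UU KK
    rw [← integral_const_mul, ← integral_sub (ee_int.integrableOn.const_mul _) hi.integrableOn]
    congr 1; funext t; ring
  have e2 : x * UU x + ee x = ∫ t in Iic x, (x - t) * ee t := by
    have : ∫ t in Iic x, (x - t) * ee t = ∫ t in Iic x, (x * ee t - t * ee t) := by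
      congr 1; funext t; ring
    rw [this, integral_sub (ee_int.integrableOn.const_mul _) eem_int.integrableOn,
      integral_const_mul, J_Iic]
    unfold UU; ring
  rw [e1, e2]
  have hi2 : IntegrableOn (fun t => (x - t) * ee t) (Iic x) := by
    have := (ee_int.integrableOn (s := Iic x)).const_mul x |>.sub (eem_int.integrableOn (s := Iic x))
    refine this.congr (ae_of_all _ fun t => ?_)
    simp only [Pi.sub_apply]; ring
  rw [← Real.norm_eq_abs]
  refine le_trans (norm_integral_le_integral_norm _) ?_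
  refine setIntegral_mono_on ?_ hi2 measurableSet_Iic fun t ht => ?_
  · have := ((ee_int.const_mul (h x)).sub hi).norm.integrableOn (s := Iic x)
    refine this.congr (ae_of_all _ fun t => ?_)
    simp only [Pi.sub_apply]; congr 1; ring
  · rw [norm_mul, Real.norm_eq_abs, Real.norm_eq_abs, abs_of_pos (ee_pos t)]
    have h1 := hL x t
    have h2 : |x - t| = x - t := abs_of_nonneg (by simpa using ht)
    rw [h2] at h1
    exact mul_le_mul_of_nonneg_right h1 (ee_pos t).le

lemma B_bound (hL : ∀ x y, |h x - h y| ≤ |x - y|) (hc : Continuous h) (x : ℝ) :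
    |(HH h - KK h x) - h x * VV x| ≤ ee x - x * VV x := by
  have hi := h_int hL hc
  have e0 : HH h - KK h x = ∫ t in Ioi x, h t * ee t := by
    unfold HH KK
    have := setIntegral_union (μ := volume) (f := fun t => h t * ee t) (s := Iic x) (t := Ioi x)
      (Iic_disjoint_Ioi le_rfl) measurableSet_Ioi hi.integrableOn hi.integrableOn
    rw [Iic_union_Ioi, setIntegral_univ] at this
    linarith
  have e1 : (HH h - KK h x) - h x * VV x = ∫ t in Ioi x, (h t - h x) * ee t := by
    rw [e0]
    unfold VV
    rw [← integral_const_mul, ← integral_sub hi.integrableOn (ee_int.integrableOn.const_mul _)]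
    congr 1; funext t; ring
  have e2 : ee x - x * VV x = ∫ t in Ioi x, (t - x) * ee t := by
    have : ∫ t in Ioi x, (t - x) * ee t = ∫ t in Ioi x, (t * ee t - x * ee t) := by
      congr 1; funext t; ring
    rw [this, integral_sub eem_int.integrableOn (ee_int.integrableOn.const_mul _),
      integral_const_mul, J_Ioi]
    unfold VV; ring
  rw [e1, e2]
  have hi2 : IntegrableOn (fun t => (t - x) * ee t) (Ioi x) := by
    have := (eem_int.integrableOn (s := Ioi x)).sub ((ee_int.integrableOn (s := Ioi x)).const_mul x)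
    refine this.congr (ae_of_all _ fun t => ?_)
    simp only [Pi.sub_apply]; ring
  rw [← Real.norm_eq_abs]
  refine le_trans (norm_integral_le_integral_norm _) ?_
  refine setIntegral_mono_on ?_ hi2 measurableSet_Ioi fun t ht => ?_
  · have := (hi.sub (ee_int.const_mul (h x))).norm.integrableOn (s := Ioi x)
    refine this.congr (ae_of_all _ fun t => ?_)
    simp only [Pi.sub_apply]; congr 1; ring
  · rw [norm_mul, Real.norm_eq_abs, Real.norm_eq_abs, abs_of_pos (ee_pos t)]
    have h1 := hL t x
    have h2 : |t - x| = t - x := abs_of_nonneg (by have : x < t := ht; linarith)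
    rw [h2] at h1
    exact mul_le_mul_of_nonneg_right h1 (ee_pos t).le

lemma gg_deriv (hL : ∀ x y, |h x - h y| ≤ |x - y|) (hc : Continuous h) (x : ℝ) :
    HasDerivAt (gg h) (x * gg h x + (h x - NN h)) x := by
  have hi := h_int hL hc
  have h1 : HasDerivAt (KK h) (h x * ee x) x := hasDerivAt_Iic (hc.mul ee_cont) hi x
  have h2 : HasDerivAt UU (ee x) x := hasDerivAt_Iic ee_cont ee_int x
  have h3 : HasDerivAt (fun x => KK h x - NN h * UU x) (h x * ee x - NN h * ee x) x :=
    h1.sub (h2.const_mul _)
  have h4 := h3.div (ee_deriv x) (ee_pos x).ne'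
  have e : x * gg h x + (h x - NN h) =
      ((h x * ee x - NN h * ee x) * ee x - (KK h x - NN h * UU x) * (-x * ee x)) / ee x ^ 2 := by
    unfold gg
    have := (ee_pos x).ne'
    field_simp
    ring
  rw [e]
  exact h4

lemma gg_deriv2 (hL : ∀ x y, |h x - h y| ≤ |x - y|) (hd : ∀ x, HasDerivAt h (h' x) x) (x : ℝ) :
    HasDerivAt (fun x => x * gg h x + (h x - NN h))
      (gg h x + x * (x * gg h x + (h x - NN h)) + h' x) x := by
  have hc : Continuous h := continuous_iff_continuousAt.2 fun x => (hd x).continuousAt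
  have h1 := (hasDerivAt_id x).mul (gg_deriv hL hc x)
  have h2 := h1.add ((hd x).sub_const (NN h))
  have e : gg h x + x * (x * gg h x + (h x - NN h)) + h' x =
      1 * gg h x + id x * (x * gg h x + (h x - NN h)) + h' x := by simp
  rw [e]
  exact h2

lemma key (hL : ∀ x y, |h x - h y| ≤ |x - y|) (hc : Continuous h) (x : ℝ) :
    |gg h x| ≤ 1 ∧ |(1 + x ^ 2) * gg h x + x * (h x - NN h)| ≤ 1 := by
  have hA := A_bound hL hc x
  have hB := B_bound hL hc x
  set A := h x * UU x - KK h x with hAd
  set B := (HH h - KK h x) - h x * VV x with hBd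
  have hU := UU_nonneg x
  have hV := VV_nonneg x
  have hc0 := cc_pos
  have hUV := UV x
  have he := ee_pos x
  have hN : cc * NN h = HH h := by unfold NN; field_simp
  have hg : ee x * gg h x = KK h x - NN h * UU x := by unfold gg; field_simp
  have m1 := mills x
  have m2 := mills' x
  have hce : 0 < cc * ee x := mul_pos hc0 he
  have g1 : (cc * ee x) * gg h x = -(VV x * A + UU x * B) := by
    have : (cc * ee x) * gg h x = cc * (ee x * gg h x) := by ring
    rw [this, hg, mul_sub, ← mul_assoc, hN, hAd, hBd, ← hUV]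
    ring
  have g2 : cc * (h x - NN h) = A - B := by
    rw [mul_sub, hN, hAd, hBd, ← hUV]; ring
  have hA' := abs_le.1 hA
  have hB' := abs_le.1 hB
  constructor
  · have : |(cc * ee x) * gg h x| ≤ cc * ee x := by
      rw [g1, abs_neg]
      calc |VV x * A + UU x * B| ≤ |VV x * A| + |UU x * B| := abs_add_le _ _
        _ = VV x * |A| + UU x * |B| := by rw [abs_mul, abs_mul, abs_of_nonneg hV, abs_of_nonneg hU]
        _ ≤ VV x * (x * UU x + ee x) + UU x * (ee x - x * VV x) := by gcongr
        _ = cc * ee x := by rw [← hUV]; ring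
    rw [abs_mul, abs_of_pos hce] at this
    exact le_of_mul_le_mul_left (by linarith) hce
  · have e : (cc * ee x) * ((1 + x ^ 2) * gg h x + x * (h x - NN h)) =
        -(A * ((1 + x ^ 2) * VV x - x * ee x)) - B * ((1 + x ^ 2) * UU x + x * ee x) := by
      have : (cc * ee x) * ((1 + x ^ 2) * gg h x + x * (h x - NN h)) =
        (1 + x ^ 2) * ((cc * ee x) * gg h x) + x * ee x * (cc * (h x - NN h)) := by ring
      rw [this, g1, g2]; ring
    have p1 : 0 ≤ (1 + x ^ 2) * VV x - x * ee x := by linarith
    have p2 : 0 ≤ (1 + x ^ 2) * UU x + x * ee x := by linarith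
    have : |(cc * ee x) * ((1 + x ^ 2) * gg h x + x * (h x - NN h))| ≤ cc * ee x := by
      rw [e]
      calc |-(A * ((1 + x ^ 2) * VV x - x * ee x)) - B * ((1 + x ^ 2) * UU x + x * ee x)|
          ≤ |-(A * ((1 + x ^ 2) * VV x - x * ee x))| + |B * ((1 + x ^ 2) * UU x + x * ee x)| :=
            abs_sub _ _
        _ = |A| * ((1 + x ^ 2) * VV x - x * ee x) + |B| * ((1 + x ^ 2) * UU x + x * ee x) := by
            rw [abs_neg, abs_mul, abs_mul, abs_of_nonneg p1, abs_of_nonneg p2]
        _ ≤ (x * UU x + ee x) * ((1 + x ^ 2) * VV x - x * ee x) +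
            (ee x - x * VV x) * ((1 + x ^ 2) * UU x + x * ee x) := by gcongr
        _ = cc * ee x := by rw [← hUV]; ring
    rw [abs_mul, abs_of_pos hce] at this
    exact le_of_mul_le_mul_left (by linarith) hce

/-- second order expansion of the Stein solution -/
lemma gg_taylor (hL : ∀ x y, |h x - h y| ≤ |x - y|) (hd : ∀ x, HasDerivAt h (h' x) x)
    (hb : ∀ x, |h' x| ≤ 1) (x s : ℝ) (hs : 0 ≤ s) :
    |gg h (x + s) - gg h x - s * (x * gg h x + (h x - NN h))| ≤ 2 * s ^ 2 := by
  have hc : Continuous h := continuous_iff_continuousAt.2 fun x => (hd x).continuousAt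
  set g1 : ℝ → ℝ := fun x => x * gg h x + (h x - NN h) with hg1
  have hlip : ∀ u v, |g1 u - g1 v| ≤ 2 * |u - v| := by
    intro u v
    have := Convex.norm_image_sub_le_of_norm_hasDerivWithin_le (f := g1)
      (f' := fun x => gg h x + x * (x * gg h x + (h x - NN h)) + h' x) (C := 2) (s := univ)
      (x := v) (y := u) (fun x _ => (gg_deriv2 hL hd x).hasDerivWithinAt) (fun x _ => by
        have k := (key hL hc x).2
        have e : gg h x + x * (x * gg h x + (h x - NN h)) + h' x =
          ((1 + x ^ 2) * gg h x + x * (h x - NN h)) + h' x := by ring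
        show ‖gg h x + x * (x * gg h x + (h x - NN h)) + h' x‖ ≤ 2
        rw [e, Real.norm_eq_abs]
        calc _ ≤ |(1 + x ^ 2) * gg h x + x * (h x - NN h)| + |h' x| := abs_add_le _ _
          _ ≤ 2 := by linarith [hb x]) convex_univ (mem_univ _) (mem_univ _)
    simpa [Real.norm_eq_abs] using this
  have hder : ∀ t, HasDerivAt (fun t => gg h t - t * g1 x) (g1 t - g1 x) t := by
    intro t
    have h1 : HasDerivAt (fun t => gg h t - t * g1 x) (g1 t - 1 * g1 x) t :=
      (gg_deriv hL hc t).sub ((hasDerivAt_id t).mul_const (g1 x))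
    rwa [one_mul] at h1
  have := Convex.norm_image_sub_le_of_norm_hasDerivWithin_le (f := fun t => gg h t - t * g1 x)
      (f' := fun t => g1 t - g1 x) (C := 2 * s) (s := Icc x (x + s))
      (x := x) (y := x + s) (fun t _ => (hder t).hasDerivWithinAt) (fun t ht => by
        rw [Real.norm_eq_abs]
        refine le_trans (hlip t x) ?_
        have : |t - x| ≤ s := by rw [abs_of_nonneg (by linarith [ht.1])]; linarith [ht.2]
        linarith) (convex_Icc _ _) (by simp [hs]) (by simp [hs])
  rw [Real.norm_eq_abs, Real.norm_eq_abs] at this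
  have e : gg h (x + s) - (x + s) * g1 x - (gg h x - x * g1 x) =
    gg h (x + s) - gg h x - s * g1 x := by ring
  rw [e] at this
  refine le_trans this ?_
  have : |x + s - x| = s := by rw [add_sub_cancel_left, abs_of_nonneg hs]
  rw [this]
  nlinarith

end sol

end Pool.Agent.D0H29.PA
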