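import Mathlib
import Pool.Agent.D0H29.PA.Stein

/-!
Poisson variables: moments, convolution, and the distance to the normal law.
-/

set_option autoImplicit false

namespace Pool.Agent.D0H29.PA

open Real MeasureTheory ProbabilityTheory Set Filter Topology
open scoped NNReal

lemma po_mul {q : ℝ≥0} {f : ℕ → ℝ} (hf : Integrable (fun n : ℕ => f (n + 1)) (poissonMeasure q)) :
    Integrable (fun n : ℕ => (n : ℝ) * f n) (poissonMeasure q) ∧
      ∫ n : ℕ, (n : ℝ) * f n ∂(poissonMeasure q) = q * ∫ n : ℕ, f (n + 1) ∂(poissonMeasure q) := by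
  have hw : ∀ n : ℕ, Real.exp (-q) * q ^ (n + 1) / ((n + 1).factorial : ℝ) * ((n + 1 : ℕ) : ℝ) =
      q * (Real.exp (-q) * q ^ n / (n.factorial : ℝ)) := by
    intro n
    rw [Nat.factorial_succ]
    push_cast
    have h1 : ((n : ℝ) + 1) ≠ 0 := by positivity
    have h2 : (n.factorial : ℝ) ≠ 0 := by positivity
    field_simp
    ring
  have hs := hasSum_integral_poissonMeasure hf
  have hsum : HasSum (fun n : ℕ => (Real.exp (-q) * q ^ n / (n.factorial : ℝ)) • ((n : ℝ) * f n))
      (q * ∫ n : ℕ, f (n + 1) ∂(poissonMeasure q)) := by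
    rw [← hasSum_nat_add_iff' 1]
    simp only [Finset.range_one, Finset.sum_singleton, Nat.cast_zero, zero_mul, smul_zero, sub_zero]
    have h3 : HasSum (fun n : ℕ => (q : ℝ) * ((Real.exp (-q) * q ^ n / (n.factorial : ℝ)) • f (n + 1)))
      (q * ∫ n : ℕ, f (n + 1) ∂(poissonMeasure q)) := hs.mul_left (q : ℝ)
    have e : (fun n : ℕ => (q : ℝ) * ((Real.exp (-q) * q ^ n / (n.factorial : ℝ)) • f (n + 1))) =
        fun n : ℕ => (Real.exp (-q) * q ^ (n + 1) / ((n + 1).factorial : ℝ)) •
          (((n + 1 : ℕ) : ℝ) * f (n + 1)) := by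
      funext n
      simp only [smul_eq_mul]
      rw [← mul_assoc, ← mul_assoc, hw n]
    rw [e] at h3
    exact h3
  have hi : Integrable (fun n : ℕ => (n : ℝ) * f n) (poissonMeasure q) := by
    rw [integrable_poissonMeasure_iff]
    rw [← summable_nat_add_iff 1]
    have h2 := (integrable_poissonMeasure_iff.1 hf).mul_left (q : ℝ)
    refine h2.congr fun n => ?_
    rw [norm_mul, Real.norm_of_nonneg (by positivity : (0:ℝ) ≤ ((n + 1 : ℕ) : ℝ))]
    linear_combination (-‖f (n + 1)‖) * hw n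
  exact ⟨hi, (hasSum_integral_poissonMeasure hi).unique hsum⟩

lemma po_mean (q : ℝ≥0) : Integrable (fun n : ℕ => (n : ℝ)) (poissonMeasure q) ∧
    ∫ n, (n : ℝ) ∂(poissonMeasure q) = q := by
  have := po_mul (q := q) (f := fun _ => 1) (integrable_const _)
  simpa using this

lemma po_fact2 (q : ℝ≥0) : Integrable (fun n : ℕ => (n : ℝ) * ((n : ℝ) - 1)) (poissonMeasure q) ∧
    ∫ n, (n : ℝ) * ((n : ℝ) - 1) ∂(poissonMeasure q) = q ^ 2 := by
  have h0 := po_mean q
  have := po_mul (q := q) (f := fun n => (n : ℝ) - 1) (by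
    simpa using h0.1)
  refine ⟨this.1, ?_⟩
  rw [this.2]
  simp only [Nat.cast_add, Nat.cast_one, add_sub_cancel_right]
  rw [h0.2]; ring

lemma po_sq (q : ℝ≥0) : Integrable (fun n : ℕ => ((n : ℝ) - q) ^ 2) (poissonMeasure q) ∧
    ∫ n, ((n : ℝ) - q) ^ 2 ∂(poissonMeasure q) = q := by
  have h0 := po_mean q
  have h1 := po_fact2 q
  have e : (fun n : ℕ => ((n : ℝ) - q) ^ 2) =
      fun n : ℕ => ((n : ℝ) * ((n : ℝ) - 1) + (1 - 2 * q) * n) + (q : ℝ) ^ 2 := by
    funext n; ring
  have i1 : Integrable (fun n : ℕ => (n : ℝ) * ((n : ℝ) - 1) + (1 - 2 * q) * n)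
    (poissonMeasure q) := h1.1.add (h0.1.const_mul _)
  refine ⟨by rw [e]; exact i1.add (integrable_const _), ?_⟩
  rw [e, integral_add i1 (integrable_const _), integral_add h1.1 (h0.1.const_mul _),
    integral_const_mul, h0.2, h1.2]
  simp
  ring

lemma po_abs (q : ℝ≥0) : ∫ n, |(n : ℝ) - q| ∂(poissonMeasure q) ≤ √q := by
  rcases eq_or_lt_of_le (zero_le : 0 ≤ q) with h | h
  · rw [← h]
    have : poissonMeasure 0 = Measure.dirac 0 := by
      ext s
      unfold poissonMeasure
      rw [Measure.sum_apply _ (MeasurableSet.of_discrete)]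
      rw [tsum_eq_single 0]
      · simp
      · intro b hb; simp [hb]
    rw [this]; simp
  have hq : (0:ℝ) < √q := Real.sqrt_pos.2 (by exact_mod_cast h)
  have h2 := po_sq q
  have hle : ∀ n : ℕ, |(n : ℝ) - q| ≤ (((n : ℝ) - q) ^ 2 / √q + √q) / 2 := by
    intro n
    have : 0 ≤ (|(n : ℝ) - q| - √q) ^ 2 / √q := by positivity
    have e : (|(n : ℝ) - q| - √q) ^ 2 / √q = ((n : ℝ) - q) ^ 2 / √q - 2 * |(n : ℝ) - q| + √q := by
      field_simp
      rw [sub_sq, sq_abs]; ring
    linarith
  have i2 : Integrable (fun n : ℕ => (((n : ℝ) - q) ^ 2 / √q + √q) / 2) (poissonMeasure q) :=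
    ((h2.1.div_const _).add (integrable_const _)).div_const _
  have i1 : Integrable (fun n : ℕ => |(n : ℝ) - q|) (poissonMeasure q) :=
    ((po_mean q).1.sub (integrable_const _)).abs
  calc _ ≤ ∫ n, (((n : ℝ) - q) ^ 2 / √q + √q) / 2 ∂(poissonMeasure q) :=
        integral_mono i1 i2 hle
    _ = √q := by
        rw [integral_div, integral_add (h2.1.div_const _) (integrable_const _), integral_div, h2.2]
        have : (q : ℝ) / √q = √q := by rw [Real.div_sqrt]
        rw [this]; simp

/-- linear growth functions are integrable -/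
lemma po_lin {q : ℝ≥0} {f : ℕ → ℝ} {a b : ℝ} (hf : ∀ n, |f n| ≤ a + b * n) :
    Integrable f (poissonMeasure q) :=
  Integrable.mono' ((integrable_const a).add ((po_mean q).1.const_mul b)) .of_discrete
    (ae_of_all _ fun n => by simpa using hf n)

/-- the unit-Lipschitz property on `ℕ` -/
def Lip (f : ℕ → ℝ) : Prop := ∀ n, |f (n + 1) - f n| ≤ 1

lemma Lip.dist {f : ℕ → ℝ} (hf : Lip f) (a n : ℕ) : |f (a + n) - f a| ≤ n := by
  induction n with
  | zero => simp
  | succ n ih =>
    have h1 := hf (a + n)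
    have h2 : f (a + (n + 1)) - f a = (f (a + n + 1) - f (a + n)) + (f (a + n) - f a) := by
      rw [show a + (n + 1) = a + n + 1 by ring]; ring
    rw [h2]
    push_cast
    linarith [abs_add_le (f (a + n + 1) - f (a + n)) (f (a + n) - f a)]

lemma Lip.growth {f : ℕ → ℝ} (hf : Lip f) (a n : ℕ) : |f (a + n)| ≤ |f a| + 1 * n := by
  have h := hf.dist a n
  have : |f (a + n)| ≤ |f (a + n) - f a| + |f a| := by
    calc |f (a + n)| = |(f (a + n) - f a) + f a| := by ring_nf
      _ ≤ _ := abs_add_le _ _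
  linarith

lemma Lip.int {f : ℕ → ℝ} (hf : Lip f) (q : ℝ≥0) (a : ℕ) :
    Integrable (fun n => f (a + n)) (poissonMeasure q) := po_lin (hf.growth a)

/-- the Poisson operator -/
noncomputable def Po (q : ℝ≥0) (f : ℕ → ℝ) (a : ℕ) : ℝ := ∫ n, f (a + n) ∂(poissonMeasure q)

lemma Lip.po {f : ℕ → ℝ} (hf : Lip f) (q : ℝ≥0) : Lip (Po q f) := by
  intro n
  unfold Po
  rw [← integral_sub (hf.int q (n + 1)) (hf.int q n)]
  have : ∀ k : ℕ, ‖f (n + 1 + k) - f (n + k)‖ ≤ 1 := by
    intro k
    have := hf (n + k)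
    rwa [show n + 1 + k = n + k + 1 by ring]
  have h := norm_integral_le_of_norm_le_const (μ := poissonMeasure q) (ae_of_all _ this)
  simpa using h

lemma po_zero (f : ℕ → ℝ) : Po 0 f = f := by
  funext a
  unfold Po
  have : poissonMeasure 0 = Measure.dirac 0 := by
    ext s
    unfold poissonMeasure
    rw [Measure.sum_apply _ (MeasurableSet.of_discrete)]
    rw [tsum_eq_single 0]
    · simp
    · intro b hb; simp [hb]
  rw [this]; simp

lemma po_conv {f : ℕ → ℝ} (hf : Lip f) (a b : ℝ≥0) : Po a (Po b f) = Po (a + b) f := by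
  funext x
  unfold Po
  rw [← poissonMeasure_conv_poissonMeasure, integral_conv]
  · congr 1; funext n; congr 1; funext k; rw [add_assoc]
  · rw [poissonMeasure_conv_poissonMeasure]; exact hf.int _ x

/-- one Poisson step against an arbitrary small increment -/
lemma po_small {f : ℕ → ℝ} (hf : Lip f) (q : ℝ≥0) (x : ℕ) :
    |Po q f x - (f x + q * (f (x + 1) - f x))| ≤ 2 * (q : ℝ) ^ 2 := by
  have h0 := po_mean q
  have h1 := po_fact2 q
  have i1 := hf.int q x
  have e : Po q f x - (f x + q * (f (x + 1) - f x)) =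
      ∫ n : ℕ, (f (x + n) - f x - n * (f (x + 1) - f x)) ∂(poissonMeasure q) := by
    have i2 : Integrable (fun _ : ℕ => f x) (poissonMeasure q) := integrable_const _
    have i3 : Integrable (fun n : ℕ => f (x + n) - f x) (poissonMeasure q) := i1.sub i2
    have i4 : Integrable (fun n : ℕ => (n : ℝ) * (f (x + 1) - f x)) (poissonMeasure q) :=
      h0.1.mul_const _
    rw [integral_sub i3 i4, integral_sub i1 i2, integral_mul_const, h0.2]
    simp [Po]
    ring
  have hb : ∀ n : ℕ, ‖f (x + n) - f x - n * (f (x + 1) - f x)‖ ≤ 2 * ((n : ℝ) * ((n : ℝ) - 1)) := by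
    intro n
    rw [Real.norm_eq_abs]
    rcases n with _ | _ | n
    · simp
    · simp
    · have d1 := hf.dist x (n + 2)
      have d2 := hf x
      push_cast at d1 ⊢
      have hn : (0:ℝ) ≤ n := Nat.cast_nonneg n
      have t : |f (x + (n + 1 + 1)) - f x - ((n:ℝ) + 1 + 1) * (f (x + 1) - f x)| ≤
          ((n:ℝ) + 2) + ((n:ℝ) + 2) * 1 := by
        refine le_trans (abs_sub _ _) ?_
        rw [abs_mul, abs_of_nonneg (by positivity : (0:ℝ) ≤ (n:ℝ) + 1 + 1)]
        have e3 : (n:ℝ) + 1 + 1 = n + 2 := by ring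
        rw [e3]
        gcongr
      refine le_trans t ?_
      nlinarith
  rw [e]
  refine le_trans (norm_integral_le_of_norm_le (h1.1.const_mul 2) (ae_of_all _ hb)) ?_
  rw [integral_const_mul, h1.2]

end Pool.Agent.D0H29.PA
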