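import Mathlib
import Pool.Agent.D0H29.PA.Pois

/-!
The Poisson law of mean `q`, centred and normalised, is at distance at most `2 / √q` from the
normal law (Wasserstein distance).
-/

set_option autoImplicit false

namespace Pool.Agent.D0H29.PA

open Real MeasureTheory ProbabilityTheory Set Filter Topology
open scoped NNReal

lemma NN_eq (h : ℝ → ℝ) : NN h = ∫ x, h x ∂(gaussianReal 0 1) := by
  rw [integral_gaussianReal_eq_integral_smul (by norm_num)]
  have e : ∀ x : ℝ, gaussianPDFReal 0 1 x • h x = (√(2 * π))⁻¹ * (h x * ee x) := by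
    intro x
    rw [gaussianPDFReal_def]
    simp only [smul_eq_mul, ee, NNReal.coe_one, mul_one, sub_zero]
    rw [show -(1 / 2 : ℝ) * x ^ 2 = -x ^ 2 / 2 by ring]
    ring
  simp_rw [e]
  rw [integral_const_mul]
  unfold NN HH cc
  have : ∫ t, ee t = √(2 * π) := by
    unfold ee
    rw [integral_gaussian]
    congr 1; ring
  rw [this, div_eq_inv_mul]

section

variable {h : ℝ → ℝ}

lemma lip_cont (hL : ∀ x y, |h x - h y| ≤ |x - y|) : Continuous h := by
  have : LipschitzWith 1 h := LipschitzWith.of_dist_le_mul fun x y => by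
    simpa [Real.dist_eq] using hL x y
  exact this.continuous

lemma lip_po_int (hL : ∀ x y, |h x - h y| ≤ |x - y|) (q : ℝ≥0) (a b : ℝ) :
    Integrable (fun n : ℕ => h (((n : ℝ) - a) / b)) (poissonMeasure q) := by
  refine po_lin (a := |h 0| + |a / b|) (b := |1 / b|) fun n => ?_
  have h1 := hL (((n : ℝ) - a) / b) 0
  have h2 : |h (((n : ℝ) - a) / b)| ≤ |h (((n : ℝ) - a) / b) - h 0| + |h 0| := by
    calc |h (((n : ℝ) - a) / b)| = |(h (((n : ℝ) - a) / b) - h 0) + h 0| := by ring_nf
      _ ≤ _ := abs_add_le _ _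
  have h3 : |((n : ℝ) - a) / b - 0| ≤ |1 / b| * n + |a / b| := by
    have e : ((n : ℝ) - a) / b - 0 = (1 / b) * n - a / b := by ring
    rw [e]
    refine le_trans (abs_sub _ _) ?_
    rw [abs_mul, Nat.abs_cast]
  linarith

lemma po_normal_c1 {h' : ℝ → ℝ} (hL : ∀ x y, |h x - h y| ≤ |x - y|)
    (hd : ∀ x, HasDerivAt h (h' x) x) (hb : ∀ x, |h' x| ≤ 1) {q : ℝ≥0} (hq : 0 < q) :
    |∫ n : ℕ, h (((n : ℝ) - q) / √q) ∂(poissonMeasure q) - NN h| ≤ 2 / √q := by
  have hc := lip_cont hL
  have hs : (0:ℝ) < √q := Real.sqrt_pos.2 (by exact_mod_cast hq)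
  set s : ℝ := 1 / √q with hsd
  have hs0 : 0 < s := by positivity
  have hg1 := fun x => (key hL hc x).1
  set g : ℕ → ℝ := fun n => gg h (((n : ℝ) - q) / √q) with hg
  have gb : ∀ n, |g n| ≤ 1 + 0 * n := fun n => by simpa using hg1 _
  have gi : Integrable g (poissonMeasure q) := po_lin gb
  have gi1 : Integrable (fun n : ℕ => g (n + 1)) (poissonMeasure q) :=
    po_lin (a := 1) (b := 0) fun n => by simpa using gb (n + 1)
  obtain ⟨hi1, he1⟩ := po_mul gi1
  have wi : Integrable (fun n : ℕ => (((n : ℝ) - q) / √q) * g n) (poissonMeasure q) := by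
    have : (fun n : ℕ => (((n : ℝ) - q) / √q) * g n) =
        fun n : ℕ => (1 / √q) * ((n : ℝ) * g n - q * g n) := by funext n; ring
    rw [this]
    exact (hi1.sub (gi.const_mul _)).const_mul _
  have hhi := lip_po_int hL q q (√q)
  -- Stein identity
  have hst : ∫ n : ℕ, (((n : ℝ) - q) / √q) * g n ∂(poissonMeasure q) =
      √q * ∫ n : ℕ, (g (n + 1) - g n) ∂(poissonMeasure q) := by
    have e : (fun n : ℕ => (((n : ℝ) - q) / √q) * g n) =
        fun n : ℕ => (1 / √q) * ((n : ℝ) * g n - q * g n) := by funext n; ring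
    rw [e, integral_const_mul, integral_sub hi1 (gi.const_mul _), he1, integral_const_mul,
      integral_sub gi1 gi]
    have : (q : ℝ) = √q * √q := (Real.mul_self_sqrt (by positivity)).symm
    field_simp
    rw [Real.sq_sqrt (by positivity)]
  have herr : ∀ n : ℕ, ‖√q * (g (n + 1) - g n) - ((((n : ℝ) - q) / √q) * g n +
      (h (((n : ℝ) - q) / √q) - NN h))‖ ≤ 2 / √q := by
    intro n
    have t := gg_taylor hL hd hb (((n : ℝ) - q) / √q) s hs0.le
    have e1 : ((n : ℝ) - q) / √q + s = (((n + 1 : ℕ) : ℝ) - q) / √q := by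
      rw [hsd]; push_cast; ring
    rw [e1] at t
    have e2 : √q * (g (n + 1) - g n) - ((((n : ℝ) - q) / √q) * g n +
        (h (((n : ℝ) - q) / √q) - NN h)) = √q * (gg h ((((n + 1 : ℕ) : ℝ) - q) / √q) -
          gg h (((n : ℝ) - q) / √q) - s * ((((n : ℝ) - q) / √q) * gg h (((n : ℝ) - q) / √q) +
          (h (((n : ℝ) - q) / √q) - NN h))) := by
      rw [hg, hsd]
      field_simp
    rw [e2, Real.norm_eq_abs, abs_mul, abs_of_pos hs]
    calc _ ≤ √q * (2 * s ^ 2) := by gcongr
      _ = 2 / √q := by rw [hsd]; field_simp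
  have i3 : Integrable (fun n : ℕ => √q * (g (n + 1) - g n)) (poissonMeasure q) :=
    (gi1.sub gi).const_mul _
  have i4 : Integrable (fun n : ℕ => h (((n : ℝ) - q) / √q) - NN h) (poissonMeasure q) :=
    hhi.sub (integrable_const _)
  have i5 : Integrable (fun n : ℕ => (((n : ℝ) - q) / √q) * g n +
      (h (((n : ℝ) - q) / √q) - NN h)) (poissonMeasure q) := wi.add i4
  have hfin := norm_integral_le_of_norm_le_const (μ := poissonMeasure q) (ae_of_all _ herr)
  rw [integral_sub i3 i5, integral_add wi i4, integral_sub hhi (integrable_const _),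
    integral_const_mul, hst] at hfin
  simp only [integral_const, probReal_univ, smul_eq_mul, one_mul, mul_one] at hfin
  rw [Real.norm_eq_abs] at hfin
  rw [abs_sub_comm]
  convert hfin using 2
  ring

/-- moving average of `h` -/
noncomputable def mav (h : ℝ → ℝ) (r : ℝ) (x : ℝ) : ℝ := r⁻¹ * ∫ t in (0:ℝ)..r, h (x + t)

lemma mav_lip (hL : ∀ x y, |h x - h y| ≤ |x - y|) {r : ℝ} (hr : 0 < r) (x y : ℝ) :
    |mav h r x - mav h r y| ≤ |x - y| := by
  have hc := lip_cont hL
  unfold mav
  have ix : IntervalIntegrable (fun t => h (x + t)) volume 0 r :=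
    (Continuous.intervalIntegrable (by fun_prop) _ _)
  have iy : IntervalIntegrable (fun t => h (y + t)) volume 0 r :=
    (Continuous.intervalIntegrable (by fun_prop) _ _)
  rw [← mul_sub, ← intervalIntegral.integral_sub ix iy, abs_mul, abs_of_pos (inv_pos.2 hr)]
  have := intervalIntegral.norm_integral_le_of_norm_le_const (a := 0) (b := r)
    (f := fun t => h (x + t) - h (y + t)) (C := |x - y|) (fun t _ => by
      have := hL (x + t) (y + t)
      rw [Real.norm_eq_abs]
      simpa using this)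
  rw [Real.norm_eq_abs, sub_zero, abs_of_pos hr] at this
  calc _ ≤ r⁻¹ * (|x - y| * r) := by gcongr
    _ = |x - y| := by field_simp

lemma mav_near (hL : ∀ x y, |h x - h y| ≤ |x - y|) {r : ℝ} (hr : 0 < r) (x : ℝ) :
    |mav h r x - h x| ≤ r := by
  have hc := lip_cont hL
  have e : mav h r x - h x = r⁻¹ * ∫ t in (0:ℝ)..r, (h (x + t) - h x) := by
    have ix : IntervalIntegrable (fun t => h (x + t)) volume 0 r :=
      (Continuous.intervalIntegrable (by fun_prop) _ _)
    have iy : IntervalIntegrable (fun _ : ℝ => h x) volume 0 r :=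
      (Continuous.intervalIntegrable (by fun_prop) _ _)
    rw [intervalIntegral.integral_sub ix iy]
    simp only [intervalIntegral.integral_const, sub_zero, smul_eq_mul]
    unfold mav
    field_simp
  rw [e, abs_mul, abs_of_pos (inv_pos.2 hr)]
  have := intervalIntegral.norm_integral_le_of_norm_le_const (a := 0) (b := r)
    (f := fun t => h (x + t) - h x) (C := r) (fun t ht => by
      rw [uIoc_of_le hr.le] at ht
      have := hL (x + t) x
      rw [add_sub_cancel_left, abs_of_pos ht.1] at this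
      rw [Real.norm_eq_abs]
      exact this.trans ht.2)
  rw [Real.norm_eq_abs, sub_zero, abs_of_pos hr] at this
  calc _ ≤ r⁻¹ * (r * r) := by gcongr
    _ = r := by field_simp

lemma mav_deriv (hL : ∀ x y, |h x - h y| ≤ |x - y|) {r : ℝ} (x : ℝ) :
    HasDerivAt (mav h r) (r⁻¹ * (h (x + r) - h x)) x := by
  have hc := lip_cont hL
  have e : mav h r = fun x => r⁻¹ * ((∫ t in (0:ℝ)..(x + r), h t) - ∫ t in (0:ℝ)..x, h t) := by
    funext x
    unfold mav
    rw [intervalIntegral.integral_comp_add_left (fun t => h t) x, add_zero,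
      intervalIntegral.integral_interval_sub_left (hc.intervalIntegrable _ _)
        (hc.intervalIntegrable _ _)]
  rw [e]
  have h1 : ∀ y, HasDerivAt (fun u => ∫ t in (0:ℝ)..u, h t) (h y) y := fun y =>
    intervalIntegral.integral_hasDerivAt_right (hc.intervalIntegrable _ _)
      (hc.stronglyMeasurableAtFilter _ _) hc.continuousAt
  have h2 : HasDerivAt (fun x => ∫ t in (0:ℝ)..(x + r), h t) (h (x + r)) x := by
    simpa using (h1 (x + r)).comp_add_const x r
  exact (h2.sub (h1 x)).const_mul _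

theorem po_normal (hL : ∀ x y, |h x - h y| ≤ |x - y|) {q : ℝ≥0} (hq : 0 < q) :
    |∫ n : ℕ, h (((n : ℝ) - q) / √q) ∂(poissonMeasure q) - ∫ x, h x ∂(gaussianReal 0 1)| ≤
      2 / √q := by
  rw [← NN_eq]
  have hc := lip_cont hL
  refine le_of_forall_pos_le_add fun r hr => ?_
  have hr2 : 0 < r / 2 := by positivity
  have m1 := mav_lip hL hr2
  have m2 := mav_near hL hr2
  have m3 := po_normal_c1 (h := mav h (r / 2)) m1 (fun x => mav_deriv hL x) (fun x => by
    rw [abs_mul, abs_of_pos (inv_pos.2 hr2)]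
    have := hL (x + r / 2) x
    rw [add_sub_cancel_left, abs_of_pos hr2] at this
    calc _ ≤ (r / 2)⁻¹ * (r / 2) := by gcongr
      _ = 1 := by field_simp) hq
  have i1 := lip_po_int hL q q (√q)
  have i2 := lip_po_int m1 q q (√q)
  have d1 : |∫ n : ℕ, h (((n : ℝ) - q) / √q) ∂(poissonMeasure q) -
      ∫ n : ℕ, mav h (r / 2) (((n : ℝ) - q) / √q) ∂(poissonMeasure q)| ≤ r / 2 := by
    rw [← integral_sub i1 i2]
    have := norm_integral_le_of_norm_le_const (μ := poissonMeasure q) (C := r / 2)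
      (f := fun n : ℕ => h (((n : ℝ) - q) / √q) - mav h (r / 2) (((n : ℝ) - q) / √q))
      (ae_of_all _ fun n => by
        rw [Real.norm_eq_abs, abs_sub_comm]; exact m2 _)
    simpa using this
  have j1 := h_int hL hc
  have j2 := h_int m1 (lip_cont m1)
  have d2 : |NN (mav h (r / 2)) - NN h| ≤ r / 2 := by
    have e : NN (mav h (r / 2)) - NN h = (∫ t, (mav h (r / 2) t * ee t - h t * ee t)) / cc := by
      rw [integral_sub j2 j1]; unfold NN HH; ring
    rw [e, abs_div, abs_of_pos cc_pos, div_le_iff₀ cc_pos]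
    have : ∀ t : ℝ, ‖mav h (r / 2) t * ee t - h t * ee t‖ ≤ r / 2 * ee t := by
      intro t
      rw [← sub_mul, norm_mul, Real.norm_eq_abs, Real.norm_eq_abs, abs_of_pos (ee_pos t)]
      exact mul_le_mul_of_nonneg_right (m2 t) (ee_pos t).le
    have k := norm_integral_le_of_norm_le (ee_int.const_mul (r / 2)) (ae_of_all _ this)
    rw [integral_const_mul, Real.norm_eq_abs] at k
    exact k
  have t1 := abs_le.1 d1
  have t2 := abs_le.1 d2
  have t3 := abs_le.1 m3
  rw [abs_le]
  constructor <;> linarith [t1.1, t1.2, t2.1, t2.2, t3.1, t3.2]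

end

end Pool.Agent.D0H29.PA
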