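import Mathlib
import Pool.Agent.D0H29.PA.Mom2
import Pool.Agent.D0H29.PA.Norm

/-!
Exchange of the increments of the number of triangles by independent Poisson variables.
-/

set_option autoImplicit false

namespace Pool.Agent.D0H29.PA

open Finset Filter Topology
open scoped NNReal

variable {m : ℕ} {δ : ℝ}

lemma Lip.two {f : ℕ → ℝ} (hf : Lip f) (x n : ℕ) :
    |f (x + n) - f x - n * (f (x + 1) - f x)| ≤ 2 * ((n : ℝ) * ((n : ℝ) - 1)) := by
  rcases n with _ | _ | n
  · simp
  · simp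
  · have d1 := hf.dist x (n + 2)
    have d2 := hf x
    push_cast at d1 ⊢
    have hn : (0:ℝ) ≤ n := Nat.cast_nonneg n
    have t : |f (x + (n + 1 + 1)) - f x - ((n:ℝ) + 1 + 1) * (f (x + 1) - f x)| ≤
        ((n:ℝ) + 2) + ((n:ℝ) + 2) * 1 := by
      refine le_trans (abs_sub _ _) ?_
      rw [abs_mul, abs_of_nonneg (by positivity : (0:ℝ) ≤ (n:ℝ) + 1 + 1)]
      have e3 : (n:ℝ) + 1 + 1 = n + 2 := by ring
      rw [e3]
      gcongr
    refine le_trans t ?_
    nlinarith

/-- the mean increment given the graph -/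
noncomputable def dm (δ : ℝ) (e : Hist m) (n : ℕ) : ℝ := m * (m - 1) / 2 * (SS δ e n / LL m δ n ^ 2)

/-- the mean increment -/
noncomputable def qr (m : ℕ) (δ : ℝ) (n : ℕ) : ℝ := Ex m δ n (fun e => dm δ e n)

/-- the second factorial moment of the increment -/
noncomputable def f2 (m : ℕ) (δ : ℝ) (n : ℕ) : ℝ := Ex m δ n (ST m δ n fun e' =>
  ((tri e' (n + 1) : ℝ) - tri e' n) * (((tri e' (n + 1) : ℝ) - tri e' n) - 1))

lemma tri_old (e : Hist m) (n : ℕ) (f : Fin m → ℕ) : tri (ext e n f) n = tri e n := by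
  unfold tri
  refine sum_congr rfl fun c hc => sum_congr rfl fun b hb => sum_congr rfl fun a ha => ?_
  rw [mem_range] at hc hb ha
  rw [ext_mult_old e f (by omega) (by omega), ext_mult_old e f (by omega) (by omega),
      ext_mult_old e f (by omega) (by omega)]

lemma ext_tri_nat (e : Hist m) (n : ℕ) (f : Fin m → ℕ) :
    ∃ D : ℕ, tri (ext e n f) (n + 1) = tri e n + D := by
  rw [tri_succ, tri_old]
  exact ⟨_, rfl⟩

section

variable (hδ : 0 < δ) {n : ℕ} (hn : 2 ≤ n)

include hδ hn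

lemma qr_nonneg (hm : 1 ≤ m) : 0 ≤ qr m δ n := by
  have hm' : (0:ℝ) ≤ m - 1 := by
    have : (1:ℝ) ≤ m := by exact_mod_cast hm
    linarith
  refine Ex_nonneg hδ hn fun e _ => ?_
  have := SS_nonneg hδ e n
  unfold dm; positivity

lemma ST_D {e : Hist m} (he : Valid n e) :
    ST m δ n (fun e' => (tri e' (n + 1) : ℝ) - tri e' n) e = dm δ e n := by
  unfold dm
  rw [← ST_T1 hδ hn he]
  unfold ST
  congr 1
  funext f
  show (tri (ext e n f) (n + 1) : ℝ) - tri (ext e n f) n = _
  rw [tri_old]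

lemma ST_D2 {e : Hist m} (he : Valid n e) :
    ST m δ n (fun e' => ((tri e' (n + 1) : ℝ) - tri e' n) * (((tri e' (n + 1) : ℝ) - tri e' n) - 1)) e ≤
    m ^ 2 * (MS δ e n / LL m δ n ^ 2) + m ^ 4 * (HS δ e n / LL m δ n ^ 3 + SS δ e n ^ 2 / LL m δ n ^ 4) := by
  refine le_trans (le_of_eq ?_) (ST_T2 hδ hn he)
  unfold ST
  congr 1
  funext f
  show ((tri (ext e n f) (n + 1) : ℝ) - tri (ext e n f) n) *
    (((tri (ext e n f) (n + 1) : ℝ) - tri (ext e n f) n) - 1) = _
  rw [tri_old]

/-- one step against a Poisson variable -/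
lemma swap_one {φ : ℕ → ℝ} (hφ : Lip φ) (q : ℝ≥0) {e : Hist m} (he : Valid n e) :
    |ST m δ n (fun e' => φ (tri e' (n + 1))) e - Po q φ (tri e n)| ≤
      |dm δ e n - q| + 2 * ST m δ n (fun e' =>
        ((tri e' (n + 1) : ℝ) - tri e' n) * (((tri e' (n + 1) : ℝ) - tri e' n) - 1)) e + 2 * (q:ℝ) ^ 2 := by
  have h1 := prob_sum hδ (by omega : 1 ≤ n) he
  have hp := p_nonneg hδ e (by omega : 1 ≤ n)
  set t := tri e n with ht
  set d := φ (t + 1) - φ t with hd
  have hd1 : |d| ≤ 1 := hφ t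
  have a1 := po_small hφ q t
  have key : ∀ f : Fin m → ℕ,
      φ (tri (ext e n f) (n + 1)) - (φ t + d * ((tri (ext e n f) (n + 1) : ℝ) - tri (ext e n f) n)) ≤
        2 * (((tri (ext e n f) (n + 1) : ℝ) - tri (ext e n f) n) *
          (((tri (ext e n f) (n + 1) : ℝ) - tri (ext e n f) n) - 1)) ∧
      -(2 * (((tri (ext e n f) (n + 1) : ℝ) - tri (ext e n f) n) *
          (((tri (ext e n f) (n + 1) : ℝ) - tri (ext e n f) n) - 1))) ≤
      φ (tri (ext e n f) (n + 1)) - (φ t + d * ((tri (ext e n f) (n + 1) : ℝ) - tri (ext e n f) n)) := by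
    intro f
    obtain ⟨D, hD⟩ := ext_tri_nat e n f
    rw [tri_old, hD]
    push_cast
    have := abs_le.1 (hφ.two t D)
    rw [← ht]
    have e1 : (t:ℝ) + D - t = D := by ring
    rw [e1]
    constructor <;> [have := this.2; have := this.1] <;> rw [← hd] at this <;> linarith
  have b : |ST m δ n (fun e' => φ (tri e' (n + 1))) e - (φ t + d * dm δ e n)| ≤ 2 * ST m δ n (fun e' =>
        ((tri e' (n + 1) : ℝ) - tri e' n) * (((tri e' (n + 1) : ℝ) - tri e' n) - 1)) e := by
    rw [← ST_D hδ hn he]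
    have e2 : ST m δ n (fun e' => φ (tri e' (n + 1))) e - (φ t + d * ST m δ n (fun e' => (tri e' (n + 1) : ℝ) - tri e' n) e) =
        EE m (range n) (fun v => X δ e n v / LL m δ n) (fun f => φ (tri (ext e n f) (n + 1)) -
          (φ t + d * ((tri (ext e n f) (n + 1) : ℝ) - tri (ext e n f) n))) := by
      rw [EE_sub, EE_add, EE_mul, EE_const h1]
      rfl
    rw [e2, abs_le]
    constructor
    · have := EE_mono (fun v _ => hp v) (fun f (_ : ∀ i, f i ∈ range n) => (key f).2)
      refine le_trans (le_of_eq ?_) this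
      unfold ST
      rw [← EE_mul]
      have : ∀ G : (Fin m → ℕ) → ℝ, - EE m (range n) (fun v => X δ e n v / LL m δ n) G =
          EE m (range n) (fun v => X δ e n v / LL m δ n) (fun f => - G f) := by
        intro G
        have := EE_mul (m := m) (s := range n) (p := fun v => X δ e n v / LL m δ n) (-1) G
        simp only [neg_one_mul] at this
        exact this.symm
      rw [this]
    · have := EE_mono (fun v _ => hp v) (fun f (_ : ∀ i, f i ∈ range n) => (key f).1)
      refine le_trans this (le_of_eq ?_)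
      unfold ST
      rw [← EE_mul]
  have c : |φ t + d * dm δ e n - (φ t + q * d)| ≤ |dm δ e n - q| := by
    have : φ t + d * dm δ e n - (φ t + q * d) = d * (dm δ e n - q) := by ring
    rw [this, abs_mul]
    calc _ ≤ 1 * |dm δ e n - q| := by gcongr
      _ = _ := one_mul _
  have hb := abs_le.1 b
  have hc := abs_le.1 c
  have ha := abs_le.1 a1
  rw [← hd] at ha
  rw [abs_le]
  constructor <;> linarith [hb.1, hb.2, hc.1, hc.2, ha.1, ha.2]

end

/-- the rate as a nonnegative real -/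
noncomputable def qq (m : ℕ) (δ : ℝ) (n : ℕ) : ℝ≥0 := (qr m δ n).toNNReal

/-- the Poisson parameter -/
noncomputable def lam (m : ℕ) (δ : ℝ) (n : ℕ) : ℝ≥0 := ∑ k ∈ Ico 2 n, qq m δ k

/-- the error of one exchange -/
noncomputable def er (m : ℕ) (δ : ℝ) (n : ℕ) : ℝ :=
  Ex m δ n (fun e => |dm δ e n - qr m δ n|) + 2 * f2 m δ n + 2 * qr m δ n ^ 2

lemma qq_coe (hδ : 0 < δ) (hm : 1 ≤ m) {n : ℕ} (hn : 2 ≤ n) : (qq m δ n : ℝ) = qr m δ n :=
  Real.coe_toNNReal _ (qr_nonneg hδ hn hm)

lemma Ex_abs_le (hδ : 0 < δ) {n : ℕ} (hn : 2 ≤ n) {F G : Hist m → ℝ} (h : ∀ e, Valid n e → |F e| ≤ G e) :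
    |Ex m δ n F| ≤ Ex m δ n G := by
  rw [abs_le]
  constructor
  · have := Ex_mono hδ hn (F := fun e => (-1) * G e) (G := F) fun e he => by
      have := (abs_le.1 (h e he)).1; linarith
    rw [Ex_mul hn] at this
    linarith
  · exact Ex_mono hδ hn fun e he => (abs_le.1 (h e he)).2

/-- the law of the number of triangles against the Poisson law -/
theorem swap_all (hδ : 0 < δ) (hm : 1 ≤ m) {n : ℕ} (hn : 2 ≤ n) : ∀ {φ : ℕ → ℝ}, Lip φ →
    |Ex m δ n (fun e => φ (tri e n)) - Po (lam m δ n) φ 0| ≤ ∑ k ∈ Ico 2 n, er m δ k := by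
  induction n, hn using Nat.le_induction with
  | base =>
    intro φ _
    have h1 : lam m δ 2 = 0 := by simp [lam]
    rw [h1, po_zero, Ex_two]
    have : tri (m := m) (fun _ _ => 0) 2 = 0 := by
      unfold tri
      simp [sum_range_succ]
    rw [this]; simp
  | succ n hn ih =>
    intro φ hφ
    have h2 : lam m δ (n + 1) = lam m δ n + qq m δ n := by
      unfold lam; rw [sum_Ico_succ_top hn]
    rw [h2, ← po_conv hφ, sum_Ico_succ_top hn, Ex_ST hn]
    have h3 := ih (hφ.po (qq m δ n))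
    have h4 : |Ex m δ n (ST m δ n fun e => φ (tri e (n + 1))) - Ex m δ n (fun e => Po (qq m δ n) φ (tri e n))| ≤
        er m δ n := by
      rw [← Ex_sub hn]
      refine le_trans (Ex_abs_le hδ hn fun e he => swap_one hδ hn hφ (qq m δ n) he) ?_
      rw [Ex_add hn, Ex_add hn, Ex_mul hn, Ex_const hδ hn, qq_coe hδ hm hn]
      exact le_rfl
    have e : Ex m δ n (ST m δ n fun e => φ (tri e (n + 1))) - Po (lam m δ n) (Po (qq m δ n) φ) 0 =
        (Ex m δ n (ST m δ n fun e => φ (tri e (n + 1))) - Ex m δ n (fun e => Po (qq m δ n) φ (tri e n))) +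
        (Ex m δ n (fun e => Po (qq m δ n) φ (tri e n)) - Po (lam m δ n) (Po (qq m δ n) φ) 0) := by ring
    rw [e]
    refine le_trans (abs_add_le _ _) ?_
    linarith

/-- the mean number of triangles -/
lemma mean_tri (hδ : 0 < δ) (hm : 1 ≤ m) {n : ℕ} (hn : 2 ≤ n) :
    Ex m δ n (fun e => (tri e n : ℝ)) = lam m δ n := by
  induction n, hn using Nat.le_induction with
  | base =>
    have h1 : lam m δ 2 = 0 := by simp [lam]
    rw [h1, Ex_two]
    have : tri (m := m) (fun _ _ => 0) 2 = 0 := by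
      unfold tri
      simp [sum_range_succ]
    rw [this]; simp
  | succ n hn ih =>
    have h2 : lam m δ (n + 1) = lam m δ n + qq m δ n := by
      unfold lam; rw [sum_Ico_succ_top hn]
    rw [h2, NNReal.coe_add, ← ih, qq_coe hδ hm hn, Ex_ST hn]
    unfold qr
    rw [← Ex_add hn]
    refine Ex_congr hδ hn fun e he => ?_
    rw [← ST_D hδ hn he]
    have h1 := prob_sum hδ (by omega : 1 ≤ n) he
    have : (tri e n : ℝ) = EE m (range n) (fun v => X δ e n v / LL m δ n) (fun f => (tri e n : ℝ)) :=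
      (EE_const h1 _).symm
    unfold ST
    rw [this, ← EE_add]
    congr 1
    funext f
    show (tri (ext e n f) (n + 1) : ℝ) = tri e n + ((tri (ext e n f) (n + 1) : ℝ) - tri (ext e n f) n)
    rw [tri_old]; ring

end Pool.Agent.D0H29.PA
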