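import Mathlib
import Pool.Agent.D0H29.PA.Swap

/-!
The bounds of all the errors, the variance, and the final estimate for the expectation operator.
-/

set_option autoImplicit false

namespace Pool.Agent.D0H29.PA

open Finset Filter Topology MeasureTheory ProbabilityTheory
open scoped NNReal

variable {m : ℕ} {δ : ℝ}

/-- the saving in the exponents -/
noncomputable def eta (m : ℕ) (δ : ℝ) : ℝ := min (1 / 8) ((1 - 2 * (m / (2 * m + δ))) / 4)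

section

variable (hδ : 0 < δ) (hm : 1 ≤ m)

include hδ hm

lemma eta_pos : 0 < eta m δ := by
  unfold eta
  refine lt_min (by norm_num) ?_
  have := beta_half hδ hm
  linarith

omit hδ hm in
lemma eta_le : eta m δ ≤ 1 / 8 := min_le_left _ _

omit hδ hm in
lemma eta_le2 : eta m δ ≤ (1 - 2 * (m / (2 * m + δ))) / 4 := min_le_right _ _

lemma theta_ok : 3 / 2 ≤ 2 - 2 * eta m δ ∧ 4 * (m / (2 * m + δ)) < 2 - 2 * eta m δ := by
  have h1 := eta_le (m := m) (δ := δ)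
  have h2 := eta_le2 (m := m) (δ := δ)
  have h3 := beta_half hδ hm
  constructor
  · linarith
  · linarith

lemma pow_cmp {n : ℕ} (hn : 2 ≤ n) {a b : ℝ} (h : a ≤ b) : (n:ℝ) ^ a ≤ (n:ℝ) ^ b :=
  Real.rpow_le_rpow_of_exponent_le (by exact_mod_cast (by omega : 1 ≤ n)) h

lemma inv_pow_le {n : ℕ} (hn : 2 ≤ n) (k : ℕ) : (1 / LL m δ n) ^ k ≤ (n:ℝ) ^ (-(k:ℝ)) := by
  have hn0 : (0:ℝ) < n := by exact_mod_cast (by omega : 0 < n)
  have hL := LL_pos (m := m) hδ (by omega : 1 ≤ n)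
  calc (1 / LL m δ n) ^ k ≤ (1 / (n:ℝ)) ^ k := pow_le_pow_left₀ (by positivity) (LL_inv hδ hm hn) k
    _ = (n:ℝ) ^ (-(k:ℝ)) := by
      rw [Real.rpow_neg hn0.le, Real.rpow_natCast, one_div, inv_pow]

lemma B1 : ∃ A : ℝ, 0 ≤ A ∧ ∀ n : ℕ, 2 ≤ n →
    Ex m δ n (fun e => |dm δ e n - qr m δ n|) ≤ A * (n : ℝ) ^ (-1 - eta m δ) := by
  obtain ⟨t1, t2⟩ := theta_ok hδ hm
  obtain ⟨A, hA, h⟩ := dev_S hδ hm t1 t2
  have hm' : (0:ℝ) ≤ m - 1 := by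
    have : (1:ℝ) ≤ m := by exact_mod_cast hm
    linarith
  refine ⟨(m * (m - 1) / 2) * A, by positivity, fun n hn => ?_⟩
  have hn0 : (0:ℝ) < n := by exact_mod_cast (by omega : 0 < n)
  have hL := LL_pos (m := m) hδ (by omega : 1 ≤ n)
  have hq : qr m δ n = (m * (m - 1) / 2 * (1 / LL m δ n) ^ 2) * Ex m δ n (fun e => SS δ e n) := by
    unfold qr dm
    rw [← Ex_mul hn]
    congr 1; funext e; ring
  have he : (fun e : Hist m => |dm δ e n - qr m δ n|) = fun e => (m * (m - 1) / 2 * (1 / LL m δ n) ^ 2) *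
      |SS δ e n - Ex m δ n (fun e => SS δ e n)| := by
    funext e
    rw [hq]
    unfold dm
    rw [← abs_of_nonneg (by positivity : (0:ℝ) ≤ m * (m - 1) / 2 * (1 / LL m δ n) ^ 2), ← abs_mul,
      abs_of_nonneg (by positivity : (0:ℝ) ≤ m * (m - 1) / 2 * (1 / LL m δ n) ^ 2)]
    congr 1; ring
  rw [he, Ex_mul hn]
  have i2 := inv_pow_le hδ hm hn 2
  calc _ ≤ (m * (m - 1) / 2 * (n:ℝ) ^ (-((2:ℕ):ℝ))) * (A * (n:ℝ) ^ ((2 - 2 * eta m δ) / 2)) := by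
        refine mul_le_mul ?_ (h n hn) (Ex_nonneg hδ hn fun e _ => abs_nonneg _) (by positivity)
        gcongr
    _ = (m * (m - 1) / 2) * A * ((n:ℝ) ^ (-((2:ℕ):ℝ)) * (n:ℝ) ^ ((2 - 2 * eta m δ) / 2)) := by ring
    _ = _ := by
      rw [← Real.rpow_add hn0]
      congr 2
      push_cast; ring

lemma B1' : ∃ A : ℝ, 0 ≤ A ∧ ∀ n : ℕ, 2 ≤ n →
    Ex m δ n (fun e => (dm δ e n - qr m δ n) ^ 2) ≤ A * (n : ℝ) ^ (-2 - 2 * eta m δ) := by
  obtain ⟨t1, t2⟩ := theta_ok hδ hm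
  obtain ⟨A, hA, h⟩ := var_S hδ hm t1 t2
  have hm' : (0:ℝ) ≤ m - 1 := by
    have : (1:ℝ) ≤ m := by exact_mod_cast hm
    linarith
  refine ⟨(m * (m - 1) / 2) ^ 2 * A, by positivity, fun n hn => ?_⟩
  have hn0 : (0:ℝ) < n := by exact_mod_cast (by omega : 0 < n)
  have hL := LL_pos (m := m) hδ (by omega : 1 ≤ n)
  have hq : qr m δ n = (m * (m - 1) / 2 * (1 / LL m δ n) ^ 2) * Ex m δ n (fun e => SS δ e n) := by
    unfold qr dm
    rw [← Ex_mul hn]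
    congr 1; funext e; ring
  have he : (fun e : Hist m => (dm δ e n - qr m δ n) ^ 2) = fun e => ((m * (m - 1) / 2) ^ 2 * (1 / LL m δ n) ^ 4) *
      (SS δ e n - Ex m δ n (fun e => SS δ e n)) ^ 2 := by
    funext e
    rw [hq]
    unfold dm
    ring
  rw [he, Ex_mul hn]
  have i2 := inv_pow_le hδ hm hn 4
  calc _ ≤ ((m * (m - 1) / 2) ^ 2 * (n:ℝ) ^ (-((4:ℕ):ℝ))) * (A * (n:ℝ) ^ (2 - 2 * eta m δ)) := by
        refine mul_le_mul ?_ (h n hn) (Ex_nonneg hδ hn fun e _ => sq_nonneg _) (by positivity)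
        gcongr
    _ = (m * (m - 1) / 2) ^ 2 * A * ((n:ℝ) ^ (-((4:ℕ):ℝ)) * (n:ℝ) ^ (2 - 2 * eta m δ)) := by ring
    _ = _ := by
      rw [← Real.rpow_add hn0]
      congr 2
      push_cast; ring

lemma B3 : ∃ A : ℝ, 0 ≤ A ∧ ∀ n : ℕ, 2 ≤ n → qr m δ n ≤ A * (n : ℝ) ^ (-1 : ℝ) := by
  obtain ⟨A, hA, h⟩ := mom_S hδ hm
  have hm' : (0:ℝ) ≤ m - 1 := by
    have : (1:ℝ) ≤ m := by exact_mod_cast hm
    linarith
  refine ⟨(m * (m - 1) / 2) * A, by positivity, fun n hn => ?_⟩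
  have hn0 : (0:ℝ) < n := by exact_mod_cast (by omega : 0 < n)
  have hL := LL_pos (m := m) hδ (by omega : 1 ≤ n)
  have hq : qr m δ n = (m * (m - 1) / 2 * (1 / LL m δ n) ^ 2) * Ex m δ n (fun e => SS δ e n) := by
    unfold qr dm
    rw [← Ex_mul hn]
    congr 1; funext e; ring
  rw [hq]
  have i2 := inv_pow_le hδ hm hn 2
  calc _ ≤ (m * (m - 1) / 2 * (n:ℝ) ^ (-((2:ℕ):ℝ))) * (A * n) := by
        refine mul_le_mul ?_ (h n hn) (Ex_nonneg hδ hn fun e _ => SS_nonneg hδ e n) (by positivity)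
        gcongr
    _ = (m * (m - 1) / 2) * A * ((n:ℝ) ^ (-((2:ℕ):ℝ)) * (n:ℝ) ^ (1:ℝ)) := by rw [Real.rpow_one]; ring
    _ = _ := by
      rw [← Real.rpow_add hn0]
      congr 2
      push_cast; ring

lemma f2_nonneg {n : ℕ} (hn : 2 ≤ n) : 0 ≤ f2 m δ n := by
  refine Ex_nonneg hδ hn fun e _ => ?_
  refine EE_nonneg (fun v _ => p_nonneg hδ e (by omega) v) fun f _ => ?_
  obtain ⟨D, hD⟩ := ext_tri_nat e n f
  show 0 ≤ ((tri (ext e n f) (n + 1) : ℝ) - tri (ext e n f) n) *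
    (((tri (ext e n f) (n + 1) : ℝ) - tri (ext e n f) n) - 1)
  rw [tri_old, hD]
  push_cast
  have e1 : (tri e n : ℝ) + D - tri e n = D := by ring
  rw [e1]
  rcases Nat.eq_zero_or_pos D with h | h
  · rw [h]; norm_num
  · have : (1:ℝ) ≤ D := by exact_mod_cast h
    nlinarith

lemma B2 : ∃ A : ℝ, 0 ≤ A ∧ ∀ n : ℕ, 2 ≤ n → f2 m δ n ≤ A * (n : ℝ) ^ (-1 - eta m δ) := by
  obtain ⟨t1, t2⟩ := theta_ok hδ hm
  have h1 := eta_le (m := m) (δ := δ)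
  have h2 := eta_le2 (m := m) (δ := δ)
  have h3 := beta_half hδ hm
  have hη := eta_pos hδ hm
  obtain ⟨A1, hA1, hM⟩ := mom_M hδ hm (θ := 1 - eta m δ) (by linarith) (by
    have : 2 * (m:ℝ) / (2 * m + δ) = 2 * (m / (2 * m + δ)) := by ring
    rw [this]; linarith)
  obtain ⟨A2, hA2, hH⟩ := mom_H hδ hm t1 (by
    have : 4 * (m:ℝ) / (2 * m + δ) = 4 * (m / (2 * m + δ)) := by ring
    rw [this]; exact t2)
  obtain ⟨A3, hA3, hV⟩ := var_S hδ hm t1 t2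
  obtain ⟨A4, hA4, hS⟩ := mom_S hδ hm
  refine ⟨m ^ 2 * A1 + m ^ 4 * (A2 + (A3 + A4 ^ 2)), by positivity, fun n hn => ?_⟩
  have hn0 : (0:ℝ) < n := by exact_mod_cast (by omega : 0 < n)
  have hL := LL_pos (m := m) hδ (by omega : 1 ≤ n)
  have S2 : Ex m δ n (fun e => SS δ e n ^ 2) ≤ (A3 + A4 ^ 2) * (n:ℝ) ^ (2:ℝ) := by
    set s := Ex m δ n (fun e => SS δ e n) with hs
    have e1 : (fun e : Hist m => SS δ e n ^ 2) = fun e => ((SS δ e n - s) ^ 2 + (2 * s) * SS δ e n) - s ^ 2 := by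
      funext e; ring
    have s0 : 0 ≤ s := Ex_nonneg hδ hn fun e _ => SS_nonneg hδ e n
    rw [e1, Ex_sub hn, Ex_add hn, Ex_mul hn, Ex_const hδ hn, ← hs]
    have a1 := hV n hn
    rw [← hs] at a1
    have a2 : A3 * (n:ℝ) ^ (2 - 2 * eta m δ) ≤ A3 * (n:ℝ) ^ (2:ℝ) :=
      mul_le_mul_of_nonneg_left (pow_cmp hδ hm hn (by linarith)) hA3
    have a3 : s ^ 2 ≤ A4 ^ 2 * (n:ℝ) ^ (2:ℝ) := by
      have : s ^ 2 ≤ (A4 * n) ^ 2 := pow_le_pow_left₀ s0 (hS n hn) 2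
      have e2 : (n:ℝ) ^ (2:ℝ) = (n:ℝ) ^ 2 := by norm_cast
      rw [e2]; linarith [this, mul_pow A4 (n:ℝ) 2]
    linarith
  unfold f2
  refine le_trans (Ex_mono hδ hn fun e he => ST_D2 hδ hn he) ?_
  rw [Ex_add hn, Ex_mul hn, Ex_mul hn, Ex_add hn]
  have c1 : Ex m δ n (fun e => MS δ e n / LL m δ n ^ 2) ≤ A1 * (n:ℝ) ^ (-1 - eta m δ) := by
    have : (fun e : Hist m => MS δ e n / LL m δ n ^ 2) = fun e => (1 / LL m δ n) ^ 2 * MS δ e n := by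
      funext e; ring
    rw [this, Ex_mul hn]
    calc _ ≤ (n:ℝ) ^ (-((2:ℕ):ℝ)) * (A1 * (n:ℝ) ^ (1 - eta m δ)) :=
          mul_le_mul (inv_pow_le hδ hm hn 2) (hM n hn) (Ex_nonneg hδ hn fun e _ => MS_nonneg hδ e n) (by positivity)
      _ = A1 * ((n:ℝ) ^ (-((2:ℕ):ℝ)) * (n:ℝ) ^ (1 - eta m δ)) := by ring
      _ = _ := by rw [← Real.rpow_add hn0]; congr 2; push_cast; ring
  have c2 : Ex m δ n (fun e => HS δ e n / LL m δ n ^ 3) ≤ A2 * (n:ℝ) ^ (-1 - eta m δ) := by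
    have : (fun e : Hist m => HS δ e n / LL m δ n ^ 3) = fun e => (1 / LL m δ n) ^ 3 * HS δ e n := by
      funext e; ring
    rw [this, Ex_mul hn]
    calc _ ≤ (n:ℝ) ^ (-((3:ℕ):ℝ)) * (A2 * (n:ℝ) ^ (2 - 2 * eta m δ)) :=
          mul_le_mul (inv_pow_le hδ hm hn 3) (hH n hn) (Ex_nonneg hδ hn fun e _ => HS_nonneg hδ e n) (by positivity)
      _ = A2 * ((n:ℝ) ^ (-((3:ℕ):ℝ)) * (n:ℝ) ^ (2 - 2 * eta m δ)) := by ring
      _ = A2 * (n:ℝ) ^ (-1 - 2 * eta m δ) := by rw [← Real.rpow_add hn0]; congr 2; push_cast; ring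
      _ ≤ _ := mul_le_mul_of_nonneg_left (pow_cmp hδ hm hn (by linarith)) hA2
  have c3 : Ex m δ n (fun e => SS δ e n ^ 2 / LL m δ n ^ 4) ≤ (A3 + A4 ^ 2) * (n:ℝ) ^ (-1 - eta m δ) := by
    have : (fun e : Hist m => SS δ e n ^ 2 / LL m δ n ^ 4) = fun e => (1 / LL m δ n) ^ 4 * SS δ e n ^ 2 := by
      funext e; ring
    rw [this, Ex_mul hn]
    calc _ ≤ (n:ℝ) ^ (-((4:ℕ):ℝ)) * ((A3 + A4 ^ 2) * (n:ℝ) ^ (2:ℝ)) :=
          mul_le_mul (inv_pow_le hδ hm hn 4) S2 (Ex_nonneg hδ hn fun e _ => sq_nonneg _) (by positivity)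
      _ = (A3 + A4 ^ 2) * ((n:ℝ) ^ (-((4:ℕ):ℝ)) * (n:ℝ) ^ (2:ℝ)) := by ring
      _ = (A3 + A4 ^ 2) * (n:ℝ) ^ (-2:ℝ) := by rw [← Real.rpow_add hn0]; congr 2; push_cast; ring
      _ ≤ _ := mul_le_mul_of_nonneg_left (pow_cmp hδ hm hn (by linarith)) (by positivity)
  calc _ ≤ (m:ℝ) ^ 2 * (A1 * (n:ℝ) ^ (-1 - eta m δ)) + m ^ 4 * (A2 * (n:ℝ) ^ (-1 - eta m δ) +
        (A3 + A4 ^ 2) * (n:ℝ) ^ (-1 - eta m δ)) := by gcongr
    _ = _ := by ring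

lemma qr_sq {A : ℝ} (hA : 0 ≤ A) (h : ∀ n : ℕ, 2 ≤ n → qr m δ n ≤ A * (n : ℝ) ^ (-1 : ℝ)) {n : ℕ} (hn : 2 ≤ n) :
    qr m δ n ^ 2 ≤ A ^ 2 * (n:ℝ) ^ (-1 - eta m δ) := by
  have hn0 : (0:ℝ) < n := by exact_mod_cast (by omega : 0 < n)
  have h1 := eta_le (m := m) (δ := δ)
  calc qr m δ n ^ 2 ≤ (A * (n : ℝ) ^ (-1 : ℝ)) ^ 2 := pow_le_pow_left₀ (qr_nonneg hδ hn hm) (h n hn) 2
    _ = A ^ 2 * ((n : ℝ) ^ (-1 : ℝ) * (n : ℝ) ^ (-1 : ℝ)) := by ring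
    _ = A ^ 2 * (n:ℝ) ^ (-2:ℝ) := by rw [← Real.rpow_add hn0]; norm_num
    _ ≤ _ := mul_le_mul_of_nonneg_left (pow_cmp hδ hm hn (by linarith)) (by positivity)

/-- all the exchanges together -/
lemma er_sum : ∃ B : ℝ, 0 ≤ B ∧ ∀ n : ℕ, ∑ k ∈ Ico 2 n, er m δ k ≤ B := by
  obtain ⟨A1, hA1, h1⟩ := B1 hδ hm
  obtain ⟨A2, hA2, h2⟩ := B2 hδ hm
  obtain ⟨A3, hA3, h3⟩ := B3 hδ hm
  obtain ⟨B, hB, hs⟩ := sum_rpow (eta_pos hδ hm)
  refine ⟨(A1 + 2 * A2 + 2 * A3 ^ 2) * B, by positivity, fun n => ?_⟩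
  have a : ∀ k ∈ Ico 2 n, er m δ k ≤ (A1 + 2 * A2 + 2 * A3 ^ 2) * (k:ℝ) ^ (-1 - eta m δ) := by
    intro k hk
    have hk2 : 2 ≤ k := (mem_Ico.1 hk).1
    have := qr_sq hδ hm hA3 h3 hk2
    unfold er
    linarith [h1 k hk2, h2 k hk2]
  refine le_trans (sum_le_sum a) ?_
  rw [← mul_sum]
  refine mul_le_mul_of_nonneg_left ?_ (by positivity)
  refine le_trans (sum_le_sum_of_subset_of_nonneg ?_ fun k _ _ => by positivity) (hs n)
  intro k hk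
  rw [mem_Ico] at hk
  rw [mem_range]; exact hk.2

/-! ### Variance -/

omit hδ hm in
/-- the variance of the number of triangles -/
noncomputable def VT (m : ℕ) (δ : ℝ) (n : ℕ) : ℝ := Ex m δ n (fun e => ((tri e n : ℝ) - lam m δ n) ^ 2)

/-- the covariance term -/
noncomputable def cv (m : ℕ) (δ : ℝ) (n : ℕ) : ℝ :=
  Ex m δ n (fun e => ((tri e n : ℝ) - lam m δ n) * (dm δ e n - qr m δ n))

lemma VT_rec {n : ℕ} (hn : 2 ≤ n) :
    VT m δ (n + 1) = VT m δ n + 2 * cv m δ n + f2 m δ n + qr m δ n - qr m δ n ^ 2 := by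
  have h2 : (lam m δ (n + 1) : ℝ) = lam m δ n + qr m δ n := by
    rw [← qq_coe hδ hm hn, ← NNReal.coe_add]
    congr 1
    unfold lam; rw [sum_Ico_succ_top hn]
  have hst : ∀ e, Valid n e → ST m δ n (fun e => ((tri e (n + 1) : ℝ) - lam m δ (n + 1)) ^ 2) e =
      ((tri e n : ℝ) - lam m δ n) ^ 2 + 2 * (((tri e n : ℝ) - lam m δ n) * (dm δ e n - qr m δ n)) +
      ST m δ n (fun e' => ((tri e' (n + 1) : ℝ) - tri e' n) * (((tri e' (n + 1) : ℝ) - tri e' n) - 1)) e +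
      (1 - 2 * qr m δ n) * dm δ e n + qr m δ n ^ 2 := by
    intro e he
    have h1 := prob_sum hδ (by omega : 1 ≤ n) he
    have hD := ST_D hδ hn he
    obtain ⟨c0, hc0⟩ : ∃ c0 : ℝ, c0 = (((tri e n : ℝ) - lam m δ n) ^ 2 -
      2 * qr m δ n * ((tri e n : ℝ) - lam m δ n) + qr m δ n ^ 2) := ⟨_, rfl⟩
    obtain ⟨c1, hc1⟩ : ∃ c1 : ℝ, c1 = 2 * ((tri e n : ℝ) - lam m δ n) + 1 - 2 * qr m δ n := ⟨_, rfl⟩
    have e1 : ST m δ n (fun e => ((tri e (n + 1) : ℝ) - lam m δ (n + 1)) ^ 2) e =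
        EE m (range n) (fun v => X δ e n v / LL m δ n) (fun f =>
          c0 + (c1 * ((tri (ext e n f) (n + 1) : ℝ) - tri (ext e n f) n) +
          ((tri (ext e n f) (n + 1) : ℝ) - tri (ext e n f) n) *
            (((tri (ext e n f) (n + 1) : ℝ) - tri (ext e n f) n) - 1))) := by
      unfold ST
      congr 1
      funext f
      show ((tri (ext e n f) (n + 1) : ℝ) - lam m δ (n + 1)) ^ 2 = _
      rw [tri_old, h2, hc0, hc1]; ring
    rw [e1, EE_add, EE_add, EE_mul, EE_const h1]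
    have e3 : EE m (range n) (fun v => X δ e n v / LL m δ n) (fun f =>
      ((tri (ext e n f) (n + 1) : ℝ) - tri (ext e n f) n)) = dm δ e n := hD
    rw [e3, hc0, hc1]
    unfold ST
    ring
  unfold VT
  rw [Ex_ST hn, Ex_congr hδ hn hst, Ex_add hn, Ex_add hn, Ex_add hn, Ex_add hn, Ex_mul hn, Ex_mul hn,
    Ex_const hδ hn]
  unfold cv f2
  have : Ex m δ n (fun e => dm δ e n) = qr m δ n := rfl
  rw [this]
  ring

lemma cv_le {n : ℕ} (hn : 2 ≤ n) {t : ℝ} (ht : 0 < t) :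
    |2 * cv m δ n| ≤ t * VT m δ n + (1 / t) * Ex m δ n (fun e => (dm δ e n - qr m δ n) ^ 2) := by
  unfold cv VT
  rw [← Ex_mul hn, ← Ex_mul hn, ← Ex_mul hn, ← Ex_add hn]
  refine Ex_abs_le hδ hn fun e _ => ?_
  set x := (tri e n : ℝ) - lam m δ n
  set y := dm δ e n - qr m δ n
  have h1 : 0 ≤ (1 / t) * (t * x - y) ^ 2 := by positivity
  have h2 : 0 ≤ (1 / t) * (t * x + y) ^ 2 := by positivity
  have e1 : (1 / t) * (t * x - y) ^ 2 = t * x ^ 2 + (1 / t) * y ^ 2 - 2 * (x * y) := by field_simp; ring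
  have e2 : (1 / t) * (t * x + y) ^ 2 = t * x ^ 2 + (1 / t) * y ^ 2 + 2 * (x * y) := by field_simp; ring
  rw [abs_le]
  constructor <;> linarith

lemma VT_nonneg {n : ℕ} (hn : 2 ≤ n) : 0 ≤ VT m δ n := Ex_nonneg hδ hn fun _ _ => sq_nonneg _

lemma VT_crude : ∃ A : ℝ, 0 ≤ A ∧ ∀ n : ℕ, 2 ≤ n → VT m δ n ≤ A * (n : ℝ) ^ (eta m δ / 2) := by
  obtain ⟨A1, hA1, h1⟩ := B1' hδ hm
  obtain ⟨A2, hA2, h2⟩ := B2 hδ hm
  obtain ⟨A3, hA3, h3⟩ := B3 hδ hm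
  have hη := eta_pos hδ hm
  set ε := eta m δ / 4 with hε
  have hε0 : 0 < ε := by positivity
  obtain ⟨A, hA, h⟩ := grow (a := VT m δ) (α := ε) (θ := eta m δ / 2)
    (C := (1 / ε) * A1 + A2 + A3) (n0 := 2) hε0.le (by rw [hε]; linarith) (by positivity) (fun n hn => by
      have hn0 : (0:ℝ) < n := by exact_mod_cast (by omega : 0 < n)
      rw [VT_rec hδ hm hn]
      have c := cv_le hδ hm hn (t := ε / n) (by positivity)
      have c' := (abs_le.1 c).2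
      have q := h3 n hn
      have w1 : (n:ℝ) ^ (-1:ℝ) ≤ (n:ℝ) ^ (eta m δ / 2 - 1) := pow_cmp hδ hm hn (by linarith)
      have w2 : (n:ℝ) ^ (-1 - eta m δ) ≤ (n:ℝ) ^ (eta m δ / 2 - 1) := pow_cmp hδ hm hn (by linarith)
      have w3 : 1 / (ε / n) * Ex m δ n (fun e => (dm δ e n - qr m δ n) ^ 2) ≤
          (1 / ε) * A1 * (n:ℝ) ^ (eta m δ / 2 - 1) := by
        calc _ ≤ 1 / (ε / n) * (A1 * (n:ℝ) ^ (-2 - 2 * eta m δ)) :=
              mul_le_mul_of_nonneg_left (h1 n hn) (by positivity)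
          _ = (1 / ε) * A1 * ((n:ℝ) ^ (1:ℝ) * (n:ℝ) ^ (-2 - 2 * eta m δ)) := by
            rw [Real.rpow_one]; field_simp
          _ = (1 / ε) * A1 * (n:ℝ) ^ (-1 - 2 * eta m δ) := by
            rw [← Real.rpow_add hn0]; congr 2; ring
          _ ≤ _ := mul_le_mul_of_nonneg_left (pow_cmp hδ hm hn (by linarith)) (by positivity)
      have w4 := h2 n hn
      have w5 := mul_le_mul_of_nonneg_left w2 hA2
      have w6 := mul_le_mul_of_nonneg_left w1 hA3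
      have w7 : 0 ≤ qr m δ n ^ 2 := sq_nonneg _
      have e1 : (1 + ε / n) * VT m δ n = VT m δ n + ε / n * VT m δ n := by ring
      rw [e1]
      linarith)
  exact ⟨A, hA, fun n hn => h n (by omega)⟩

/-- the variance and the Poisson parameter -/
lemma VT_lam : ∃ B : ℝ, 0 ≤ B ∧ ∀ n : ℕ, 2 ≤ n → |VT m δ n - lam m δ n| ≤ B := by
  obtain ⟨A0, hA0, h0⟩ := VT_crude hδ hm
  obtain ⟨A1, hA1, h1⟩ := B1' hδ hm
  obtain ⟨A2, hA2, h2⟩ := B2 hδ hm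
  obtain ⟨A3, hA3, h3⟩ := B3 hδ hm
  have hη := eta_pos hδ hm
  obtain ⟨B, hB, hs⟩ := sum_rpow (by positivity : 0 < eta m δ / 2)
  set C := A0 + A1 + A2 + A3 ^ 2 with hC
  have key : ∀ n : ℕ, 2 ≤ n → |VT m δ n - lam m δ n| ≤ ∑ k ∈ Ico 2 n, C * (k:ℝ) ^ (-1 - eta m δ / 2) := by
    intro n hn
    induction n, hn using Nat.le_induction with
    | base =>
      have h1 : lam m δ 2 = 0 := by simp [lam]
      unfold VT
      rw [h1, Ex_two]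
      have : tri (m := m) (fun _ _ => 0) 2 = 0 := by
        unfold tri
        simp [sum_range_succ]
      rw [this]; simp
    | succ n hn ih =>
      have hn0 : (0:ℝ) < n := by exact_mod_cast (by omega : 0 < n)
      have hl : (lam m δ (n + 1) : ℝ) = lam m δ n + qr m δ n := by
        rw [← qq_coe hδ hm hn, ← NNReal.coe_add]
        congr 1
        unfold lam; rw [sum_Ico_succ_top hn]
      rw [sum_Ico_succ_top hn, VT_rec hδ hm hn, hl]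
      have t0 : 0 < (n:ℝ) ^ (-1 - eta m δ) := by positivity
      have c := cv_le hδ hm hn t0
      have w1 : (n:ℝ) ^ (-1 - eta m δ) * VT m δ n ≤ A0 * (n:ℝ) ^ (-1 - eta m δ / 2) := by
        calc _ ≤ (n:ℝ) ^ (-1 - eta m δ) * (A0 * (n:ℝ) ^ (eta m δ / 2)) :=
              mul_le_mul_of_nonneg_left (h0 n hn) t0.le
          _ = A0 * ((n:ℝ) ^ (-1 - eta m δ) * (n:ℝ) ^ (eta m δ / 2)) := by ring
          _ = _ := by rw [← Real.rpow_add hn0]; congr 2; ring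
      have w2 : 1 / (n:ℝ) ^ (-1 - eta m δ) * Ex m δ n (fun e => (dm δ e n - qr m δ n) ^ 2) ≤
          A1 * (n:ℝ) ^ (-1 - eta m δ / 2) := by
        calc _ ≤ 1 / (n:ℝ) ^ (-1 - eta m δ) * (A1 * (n:ℝ) ^ (-2 - 2 * eta m δ)) :=
              mul_le_mul_of_nonneg_left (h1 n hn) (by positivity)
          _ = A1 * ((n:ℝ) ^ (1 + eta m δ) * (n:ℝ) ^ (-2 - 2 * eta m δ)) := by
            rw [one_div, ← Real.rpow_neg hn0.le]
            have : -(-1 - eta m δ) = 1 + eta m δ := by ring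
            rw [this]; ring
          _ = A1 * (n:ℝ) ^ (-1 - eta m δ) := by
            rw [← Real.rpow_add hn0]; congr 2; ring
          _ ≤ _ := mul_le_mul_of_nonneg_left (pow_cmp hδ hm hn (by linarith)) hA1
      have w3 : f2 m δ n ≤ A2 * (n:ℝ) ^ (-1 - eta m δ / 2) :=
        (h2 n hn).trans (mul_le_mul_of_nonneg_left (pow_cmp hδ hm hn (by linarith)) hA2)
      have w4 : qr m δ n ^ 2 ≤ A3 ^ 2 * (n:ℝ) ^ (-1 - eta m δ / 2) :=
        (qr_sq hδ hm hA3 h3 hn).trans (mul_le_mul_of_nonneg_left (pow_cmp hδ hm hn (by linarith)) (by positivity))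
      have w5 := f2_nonneg hδ hm hn
      have w6 : 0 ≤ qr m δ n ^ 2 := sq_nonneg _
      have c' := abs_le.1 c
      have i' := abs_le.1 ih
      have eC : C * (n:ℝ) ^ (-1 - eta m δ / 2) = A0 * (n:ℝ) ^ (-1 - eta m δ / 2) +
        A1 * (n:ℝ) ^ (-1 - eta m δ / 2) + A2 * (n:ℝ) ^ (-1 - eta m δ / 2) + A3 ^ 2 * (n:ℝ) ^ (-1 - eta m δ / 2) := by
        rw [hC]; ring
      rw [eC, abs_le]
      constructor <;> linarith [c'.1, c'.2, i'.1, i'.2]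
  refine ⟨C * B, by positivity, fun n hn => (key n hn).trans ?_⟩
  rw [← mul_sum]
  refine mul_le_mul_of_nonneg_left ?_ (by positivity)
  refine le_trans (sum_le_sum_of_subset_of_nonneg ?_ fun k _ _ => by positivity) (hs n)
  intro k hk
  rw [mem_Ico] at hk
  rw [mem_range]; exact hk.2

end

end Pool.Agent.D0H29.PA
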