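import Mathlib
import Pool.Agent.D0H29.PA.Fin

/-!
The final estimate for the expectation operator.
-/

set_option autoImplicit false

namespace Pool.Agent.D0H29.PA

open Finset Filter Topology MeasureTheory ProbabilityTheory
open scoped NNReal

variable {m : ℕ} {δ : ℝ}

lemma qr_lower (hδ : 0 < δ) (hm : 2 ≤ m) {n : ℕ} (hn : 2 ≤ n) :
    (m : ℝ) ^ 3 / (2 * (2 * m + δ) ^ 2) * (1 / n) ≤ qr m δ n := by
  have hn0 : (0:ℝ) < n := by exact_mod_cast (by omega : 0 < n)
  have hn2 : (2:ℝ) ≤ n := by exact_mod_cast hn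
  have hL := LL_pos (m := m) hδ (by omega : 1 ≤ n)
  have hm2 : (2:ℝ) ≤ m := by exact_mod_cast hm
  have hLe : LL m δ n ≤ (2 * m + δ) * n := by unfold LL; nlinarith
  have h1 : ∀ e : Hist m, Valid n e → (m : ℝ) ^ 3 / (2 * (2 * m + δ) ^ 2) * (1 / n) ≤ dm δ e n := by
    intro e he
    have hs := SS_ge hδ hn he
    have hs2 : (m:ℝ) ^ 3 * n ≤ SS δ e n := by
      have : (m:ℝ) ^ 3 * n ≤ 2 * (m:ℝ) ^ 3 * (n - 1) := by
        have : 0 ≤ (m:ℝ) ^ 3 := by positivity
        nlinarith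
      linarith
    have h2 : (m:ℝ) ^ 3 * n / ((2 * m + δ) * n) ^ 2 ≤ SS δ e n / LL m δ n ^ 2 := by
      apply div_le_div₀ (SS_nonneg hδ e n) hs2 (by positivity)
      exact pow_le_pow_left₀ hL.le hLe 2
    have h3 : (m:ℝ) ^ 3 * n / ((2 * m + δ) * n) ^ 2 = (m : ℝ) ^ 3 / ((2 * m + δ) ^ 2) * (1 / n) := by
      field_simp
    rw [h3] at h2
    have h4 : (1:ℝ) / 2 ≤ m * (m - 1) / 2 := by nlinarith
    have h5 : 0 ≤ (m : ℝ) ^ 3 / ((2 * m + δ) ^ 2) * (1 / n) := by positivity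
    calc (m : ℝ) ^ 3 / (2 * (2 * m + δ) ^ 2) * (1 / n) =
        1 / 2 * ((m : ℝ) ^ 3 / ((2 * m + δ) ^ 2) * (1 / n)) := by field_simp
      _ ≤ (m * (m - 1) / 2) * (SS δ e n / LL m δ n ^ 2) := mul_le_mul h4 h2 h5 (by linarith)
  have := Ex_mono hδ hn h1
  rwa [Ex_const hδ hn] at this

lemma lam_lower (hδ : 0 < δ) (hm : 2 ≤ m) : ∃ c : ℝ, 0 < c ∧ ∃ N : ℕ, 3 ≤ N ∧ ∀ n : ℕ, N ≤ n →
    c * Real.log n ≤ lam m δ n ∧ 1 ≤ (lam m δ n : ℝ) := by
  have hm0 : (0:ℝ) < m := by exact_mod_cast (by omega : 0 < m)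
  set c0 := (m : ℝ) ^ 3 / (2 * (2 * m + δ) ^ 2) with hc0
  have hc0p : 0 < c0 := by positivity
  have h1 : ∀ n : ℕ, 2 ≤ n → c0 * (Real.log n - 1) ≤ lam m δ n := by
    intro n hn
    have e1 : (lam m δ n : ℝ) = ∑ k ∈ Ico 2 n, qr m δ k := by
      unfold lam
      rw [NNReal.coe_sum]
      exact sum_congr rfl fun k hk => qq_coe hδ (by omega) (mem_Ico.1 hk).1
    rw [e1]
    have e2 : c0 * ∑ k ∈ Ico 2 n, (1 / (k:ℝ)) ≤ ∑ k ∈ Ico 2 n, qr m δ k := by
      rw [mul_sum]
      exact sum_le_sum fun k hk => qr_lower hδ hm (mem_Ico.1 hk).1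
    refine le_trans (mul_le_mul_of_nonneg_left ?_ hc0p.le) e2
    have e3 : Real.log n ≤ ∑ k ∈ Ico 1 n, (1 / (k:ℝ)) := by
      induction n, hn using Nat.le_induction with
      | base =>
        simp
        have := Real.log_two_lt_d9
        linarith
      | succ n hn ih =>
        rw [sum_Ico_succ_top (by omega)]
        have hn0 : (0:ℝ) < n := by exact_mod_cast (by omega : 0 < n)
        have ih' := ih (by
          unfold lam
          rw [NNReal.coe_sum]
          exact sum_congr rfl fun k hk => qq_coe hδ (by omega) (mem_Ico.1 hk).1) (by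
          rw [mul_sum]
          exact sum_le_sum fun k hk => qr_lower hδ hm (mem_Ico.1 hk).1)
        have h3 := Real.log_le_sub_one_of_pos (x := ((n:ℝ) + 1) / n) (by positivity)
        rw [Real.log_div (by positivity) (by positivity)] at h3
        have h4 : ((n:ℝ) + 1) / n - 1 = 1 / n := by field_simp; ring
        push_cast
        linarith
    have e4 : ∑ k ∈ Ico 1 n, (1 / (k:ℝ)) = 1 + ∑ k ∈ Ico 2 n, (1 / (k:ℝ)) := by
      rw [sum_eq_sum_Ico_succ_bot (by omega)]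
      norm_num
    linarith
  refine ⟨c0 / 2, by positivity, ?_⟩
  have hlog : Tendsto (fun n : ℕ => Real.log n) atTop atTop :=
    Real.tendsto_log_atTop.comp tendsto_natCast_atTop_atTop
  obtain ⟨N, hN⟩ := eventually_atTop.1 (hlog.eventually_ge_atTop (2 + 2 / c0))
  refine ⟨max N 3, le_max_right _ _, fun n hn => ?_⟩
  have a := hN n (le_trans (le_max_left _ _) hn)
  have b := h1 n (by have := le_trans (le_max_right N 3) hn; omega)
  have c : 0 < 2 / c0 := by positivity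
  constructor
  · nlinarith
  · have : c0 * (2 / c0) = 2 := by field_simp
    nlinarith

/-- the final estimate -/
theorem final_op (hδ : 0 < δ) (hm : 2 ≤ m) : ∃ C : ℝ, ∃ N : ℕ, 3 ≤ N ∧ ∀ n : ℕ, N ≤ n →
    ∀ h : ℝ → ℝ, (∀ x y, |h x - h y| ≤ |x - y|) →
      |Ex m δ n (fun e => h (((tri e n : ℝ) - lam m δ n) / √(VT m δ n))) - ∫ x, h x ∂(gaussianReal 0 1)| ≤
        C / √(Real.log n) := by
  obtain ⟨c, hc, N, hN3, hN⟩ := lam_lower hδ hm
  obtain ⟨B1, hB1, hb1⟩ := er_sum hδ (by omega : 1 ≤ m)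
  obtain ⟨B2, hB2, hb2⟩ := VT_lam hδ (by omega : 1 ≤ m)
  have hlog : Tendsto (fun n : ℕ => Real.log n) atTop atTop :=
    Real.tendsto_log_atTop.comp tendsto_natCast_atTop_atTop
  obtain ⟨N2, hN2⟩ := eventually_atTop.1 (hlog.eventually_ge_atTop ((B2 + 1) / c))
  refine ⟨(B1 + B2 + 2) / √c, max N N2, le_trans hN3 (le_max_left _ _), fun n hn h hL => ?_⟩
  have hnN : N ≤ n := le_trans (le_max_left _ _) hn
  have hn2 : 2 ≤ n := by omega
  obtain ⟨l1, l2⟩ := hN n hnN
  have l3 : (B2 + 1) / c ≤ Real.log n := hN2 n (le_trans (le_max_right _ _) hn)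
  have hlogp : 0 < Real.log n := lt_of_lt_of_le (by positivity) l3
  have l4 : B2 + 1 ≤ lam m δ n := by
    rw [div_le_iff₀ hc] at l3
    linarith
  set L : ℝ := (lam m δ n : ℝ) with hLd
  set V := VT m δ n with hV
  have hLp : 0 < L := by linarith
  have hv := abs_le.1 (hb2 n hn2)
  rw [← hV, ← hLd] at hv
  have hVp : 0 < V := by linarith [hv.1]
  have sL : 0 < √L := Real.sqrt_pos.2 hLp
  have sV : 0 < √V := Real.sqrt_pos.2 hVp
  have sL1 : 1 ≤ √L := by rw [Real.one_le_sqrt]; exact l2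
  -- first error
  have d1 : |Ex m δ n (fun e => h (((tri e n : ℝ) - L) / √V)) - Ex m δ n (fun e => h (((tri e n : ℝ) - L) / √L))| ≤
      B2 / √L := by
    rw [← Ex_sub hn2]
    have p1 : ∀ e : Hist m, Valid n e → |h (((tri e n : ℝ) - L) / √V) - h (((tri e n : ℝ) - L) / √L)| ≤
        (|1 / √V - 1 / √L| / (2 * √V)) * ((tri e n : ℝ) - L) ^ 2 + |1 / √V - 1 / √L| * √V / 2 := by
      intro e _
      refine le_trans (hL _ _) ?_
      set x := (tri e n : ℝ) - L
      have e1 : x / √V - x / √L = x * (1 / √V - 1 / √L) := by ring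
      rw [e1, abs_mul]
      have h2 : |x| ≤ (1 / (2 * √V)) * x ^ 2 + √V / 2 := by
        have : 0 ≤ (|x| - √V) ^ 2 / (2 * √V) := by positivity
        have e2 : (|x| - √V) ^ 2 / (2 * √V) = (1 / (2 * √V)) * x ^ 2 + √V / 2 - |x| := by
          field_simp
          rw [sub_sq, sq_abs]; ring
        linarith
      calc |x| * |1 / √V - 1 / √L| ≤ ((1 / (2 * √V)) * x ^ 2 + √V / 2) * |1 / √V - 1 / √L| :=
            mul_le_mul_of_nonneg_right h2 (abs_nonneg _)
        _ = _ := by ring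
    refine le_trans (Ex_abs_le hδ hn2 p1) ?_
    rw [Ex_add hn2, Ex_mul hn2, Ex_const hδ hn2]
    have e3 : Ex m δ n (fun e => ((tri e n : ℝ) - L) ^ 2) = V := rfl
    rw [e3]
    have e4 : |1 / √V - 1 / √L| / (2 * √V) * V + |1 / √V - 1 / √L| * √V / 2 = |1 / √V - 1 / √L| * √V := by
      have : V = √V * √V := (Real.mul_self_sqrt hVp.le).symm
      nth_rw 3 [this]
      field_simp
      ring
    rw [e4, ← abs_of_pos sV, ← abs_mul, abs_of_pos sV]
    have e5 : (1 / √V - 1 / √L) * √V = (L - V) / (√L * (√L + √V)) := by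
      have a1 : L - V = (√L - √V) * (√L + √V) := by
        have : (√L - √V) * (√L + √V) = √L * √L - √V * √V := by ring
        rw [this, Real.mul_self_sqrt hLp.le, Real.mul_self_sqrt hVp.le]
      rw [a1]
      field_simp
    rw [e5, abs_div, abs_of_pos (by positivity : 0 < √L * (√L + √V))]
    have h6 : |L - V| ≤ B2 := by rw [abs_sub_comm]; exact hb2 n hn2
    calc |L - V| / (√L * (√L + √V)) ≤ B2 / (√L * 1) := by
          apply div_le_div₀ hB2 h6 (by positivity)
          exact mul_le_mul_of_nonneg_left (by linarith) sL.le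
      _ = _ := by rw [mul_one]
  -- second error
  have d2 : |Ex m δ n (fun e => h (((tri e n : ℝ) - L) / √L)) -
      ∫ k : ℕ, h (((k : ℝ) - L) / √L) ∂(poissonMeasure (lam m δ n))| ≤ B1 / √L := by
    have hlip : Lip (fun k : ℕ => √L * h (((k : ℝ) - L) / √L)) := by
      intro k
      show |√L * h ((((k + 1 : ℕ) : ℝ) - L) / √L) - √L * h (((k : ℝ) - L) / √L)| ≤ 1
      rw [← mul_sub, abs_mul, abs_of_pos sL]
      have := hL ((((k + 1 : ℕ) : ℝ) - L) / √L) (((k : ℝ) - L) / √L)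
      have e1 : |(((k + 1 : ℕ) : ℝ) - L) / √L - ((k : ℝ) - L) / √L| = 1 / √L := by
        have : (((k + 1 : ℕ) : ℝ) - L) / √L - ((k : ℝ) - L) / √L = 1 / √L := by push_cast; ring
        rw [this, abs_of_pos (by positivity)]
      rw [e1] at this
      calc _ ≤ √L * (1 / √L) := mul_le_mul_of_nonneg_left this sL.le
        _ = 1 := by field_simp
    have s1 := (swap_all hδ (by omega : 1 ≤ m) hn2 hlip).trans (hb1 n)
    have e1 : Ex m δ n (fun e => √L * h (((tri e n : ℝ) - L) / √L)) =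
        √L * Ex m δ n (fun e => h (((tri e n : ℝ) - L) / √L)) := Ex_mul hn2 _ _
    have e2 : Po (lam m δ n) (fun k : ℕ => √L * h (((k : ℝ) - L) / √L)) 0 =
        √L * ∫ k : ℕ, h (((k : ℝ) - L) / √L) ∂(poissonMeasure (lam m δ n)) := by
      unfold Po
      rw [← integral_const_mul]
      simp only [zero_add]
    have s2 : |√L * Ex m δ n (fun e => h (((tri e n : ℝ) - L) / √L)) -
        √L * ∫ k : ℕ, h (((k : ℝ) - L) / √L) ∂(poissonMeasure (lam m δ n))| ≤ B1 := by
      rw [← e1, ← e2]; exact s1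
    rw [← mul_sub, abs_mul, abs_of_pos sL] at s2
    rw [le_div_iff₀ sL]
    linarith
  have d3 := po_normal hL (q := lam m δ n) (by exact_mod_cast hLp)
  rw [← hLd] at d3
  have t1 := abs_le.1 d1
  have t2 := abs_le.1 d2
  have t3 := abs_le.1 d3
  have tot : |Ex m δ n (fun e => h (((tri e n : ℝ) - L) / √V)) - ∫ x, h x ∂(gaussianReal 0 1)| ≤
      B2 / √L + B1 / √L + 2 / √L := by
    rw [abs_le]
    constructor <;> linarith [t1.1, t1.2, t2.1, t2.2, t3.1, t3.2]
  refine le_trans tot ?_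
  have e6 : B2 / √L + B1 / √L + 2 / √L = (B1 + B2 + 2) / √L := by ring
  rw [e6, div_div, ← Real.sqrt_mul hc.le]
  apply div_le_div_of_nonneg_left (by positivity) (Real.sqrt_pos.2 (by positivity))
  exact Real.sqrt_le_sqrt l1

end Pool.Agent.D0H29.PA
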