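import Mathlib
import Pool.Agent.D0H29.PA.Last

/-!
The expectation operator is the expectation in every probability space which carries the model.
-/

set_option autoImplicit false

namespace Pool.Agent.D0H29.PA

open Finset Filter Topology MeasureTheory ProbabilityTheory
open scoped NNReal ENNReal

variable {m : ℕ} {δ : ℝ}

open Classical in
/-- the possible histories of the graph on `0, …, n - 1`, continued by zero -/
noncomputable def SH (m : ℕ) : ℕ → Finset (Hist m)
  | 0 => {fun _ _ => 0}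
  | n + 1 => if n < 2 then {fun _ _ => 0} else
      (SH m n ×ˢ Fintype.piFinset (fun _ : Fin m => range n)).image (fun x => ext x.1 n x.2)

/-- the probability of a history -/
noncomputable def pw (δ : ℝ) (n : ℕ) (h : Hist m) : ℝ :=
  ∏ k ∈ Ico 2 n, ∏ ℓ, X δ h k (h k ℓ) / LL m δ k

lemma SH_two : SH m 2 = {fun _ _ => 0} := by
  unfold SH; simp

open Classical in
lemma SH_succ {n : ℕ} (hn : 2 ≤ n) : SH m (n + 1) =
    (SH m n ×ˢ Fintype.piFinset (fun _ : Fin m => range n)).image (fun x => ext x.1 n x.2) := by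
  rw [SH, if_neg (by omega)]

lemma SH_prop {n : ℕ} (hn : 2 ≤ n) : ∀ {h : Hist m}, h ∈ SH m n →
    Valid n h ∧ h 0 = (fun _ => 0) ∧ ∀ k, n ≤ k → h k = fun _ => 0 := by
  classical
  induction n, hn using Nat.le_induction with
  | base =>
    intro h hh
    rw [SH_two, mem_singleton] at hh
    subst hh
    exact ⟨valid_zero 2, rfl, fun _ _ => rfl⟩
  | succ n hn ih =>
    intro h hh
    rw [SH_succ hn, mem_image] at hh
    obtain ⟨⟨g, f⟩, hx, rfl⟩ := hh
    rw [mem_product, Fintype.mem_piFinset] at hx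
    obtain ⟨a, b, c⟩ := ih hx.1
    refine ⟨ext_valid a fun i => mem_range.1 (hx.2 i), ?_, fun k hk => ?_⟩
    · unfold ext
      rw [Function.update_of_ne (by omega)]
      exact b
    · unfold ext
      rw [Function.update_of_ne (by omega)]
      exact c k (by omega)

lemma deg_ext {h : Hist m} {n k v : ℕ} (f : Fin m → ℕ) (hk : k ≤ n) (hv : v < n) :
    deg (ext h n f) k v = deg h k v := by
  unfold deg
  refine sum_congr rfl fun u hu => ?_
  rw [mem_range] at hu
  exact ext_mult_old h f (by omega) hv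

lemma pw_ext {h : Hist m} {n : ℕ} (hn : 2 ≤ n) (hv : Valid n h) {f : Fin m → ℕ} (hf : ∀ i, f i < n) :
    pw δ (n + 1) (ext h n f) = pw δ n h * ∏ i, X δ h n (f i) / LL m δ n := by
  unfold pw
  rw [prod_Ico_succ_top hn]
  congr 1
  · refine prod_congr rfl fun k hk => prod_congr rfl fun ℓ _ => ?_
    rw [mem_Ico] at hk
    have e1 : ext h n f k = h k := by unfold ext; rw [Function.update_of_ne (by omega)]
    rw [e1]
    have : h k ℓ < k := hv k (by omega) hk.2 ℓ
    unfold X
    rw [deg_ext f (by omega) (by omega)]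
  · refine prod_congr rfl fun i _ => ?_
    have e1 : ext h n f n = f := by unfold ext; rw [Function.update_self]
    rw [e1]
    unfold X
    rw [deg_ext f le_rfl (hf i)]

lemma ext_inj {h h' : Hist m} {n : ℕ} {f f' : Fin m → ℕ} (h0 : h n = fun _ => 0) (h0' : h' n = fun _ => 0)
    (he : ext h n f = ext h' n f') : h = h' ∧ f = f' := by
  constructor
  · funext k
    by_cases hk : k = n
    · subst hk; rw [h0, h0']
    · have := congrFun he k
      unfold ext at this
      rwa [Function.update_of_ne hk, Function.update_of_ne hk] at this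
  · have := congrFun he n
    unfold ext at this
    rwa [Function.update_self, Function.update_self] at this

open Classical in
lemma sum_SH {M : Type*} [AddCommMonoid M] {n : ℕ} (hn : 2 ≤ n) (G : Hist m → M) :
    ∑ h ∈ SH m (n + 1), G h = ∑ h ∈ SH m n, ∑ f ∈ Fintype.piFinset (fun _ : Fin m => range n), G (ext h n f) := by
  rw [SH_succ hn, sum_image, sum_product]
  intro x hx y hy he
  rw [mem_coe, mem_product] at hx hy
  obtain ⟨a, b⟩ := ext_inj ((SH_prop hn hx.1).2.2 n le_rfl) ((SH_prop hn hy.1).2.2 n le_rfl) he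
  exact Prod.ext a b

lemma Ex_eq_sum {n : ℕ} (hn : 2 ≤ n) : ∀ F : Hist m → ℝ,
    Ex m δ n F = ∑ h ∈ SH m n, pw δ n h * F h := by
  induction n, hn using Nat.le_induction with
  | base => intro F; rw [Ex_two, SH_two]; simp [pw]
  | succ n hn ih =>
    intro F
    rw [Ex_ST hn, ih, sum_SH hn]
    refine sum_congr rfl fun h hh => ?_
    have hp := SH_prop hn hh
    unfold ST EE
    rw [mul_sum]
    refine sum_congr rfl fun f hf => ?_
    rw [Fintype.mem_piFinset] at hf
    rw [pw_ext hn hp.1 fun i => mem_range.1 (hf i)]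
    ring

lemma pw_nonneg (hδ : 0 < δ) (n : ℕ) (h : Hist m) : 0 ≤ pw δ n h := by
  refine prod_nonneg fun k hk => prod_nonneg fun ℓ _ => ?_
  rw [mem_Ico] at hk
  exact div_nonneg (X_pos hδ _ _ _).le (LL_pos hδ (by omega)).le

section

variable {Ω : Type*} [MeasurableSpace Ω] {P : Measure Ω} [IsProbabilityMeasure P]
  {E : ℕ → Fin m → Ω → ℕ}

/-- the event that the history is `h` up to the vertex `n - 1` -/
def Ev (E : ℕ → Fin m → Ω → ℕ) (n : ℕ) (h : Hist m) : Set Ω :=
  {ω | ∀ j, 1 ≤ j → j < n → ∀ ℓ, E j ℓ ω = h j ℓ}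

lemma Ev_meas {n : ℕ} (hmeas : ∀ k ℓ, Measurable (E k ℓ)) (h : Hist m) : MeasurableSet (Ev E n h) := by
  unfold Ev
  have : {ω | ∀ j, 1 ≤ j → j < n → ∀ ℓ, E j ℓ ω = h j ℓ} =
      ⋂ j : ℕ, ⋂ (_ : 1 ≤ j), ⋂ (_ : j < n), ⋂ ℓ : Fin m, (E j ℓ) ⁻¹' {h j ℓ} := by
    ext ω; simp
  rw [this]
  exact MeasurableSet.iInter fun j => MeasurableSet.iInter fun _ => MeasurableSet.iInter fun _ =>
    MeasurableSet.iInter fun ℓ => hmeas j ℓ (measurableSet_singleton _)

variable (hδ : 0 < δ) {N : ℕ}
  (hstart : ∀ᵐ ω ∂P, ∀ ℓ, E 1 ℓ ω = 0)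
  (hstep : ∀ k, 2 ≤ k → k < N → ∀ (h : Hist m) (f : Fin m → ℕ), (∀ i, f i < k) →
    P {ω | (∀ j, 1 ≤ j → j < k → ∀ ℓ, E j ℓ ω = h j ℓ) ∧ ∀ ℓ, E k ℓ ω = f ℓ} =
      P {ω | ∀ j, 1 ≤ j → j < k → ∀ ℓ, E j ℓ ω = h j ℓ} *
        ∏ ℓ, ENNReal.ofReal (X δ h k (f ℓ) / LL m δ k))

include hδ hstart hstep

open Classical in
lemma Ev_prob {n : ℕ} (hn : 2 ≤ n) (hnN : n ≤ N) : ∀ {h : Hist m}, h ∈ SH m n →
    P (Ev E n h) = ENNReal.ofReal (pw δ n h) := by
  induction n, hn using Nat.le_induction with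
  | base =>
    intro h hh
    rw [SH_two, mem_singleton] at hh
    subst hh
    have : P (Ev E 2 (fun _ _ => 0)) = 1 := by
      have h3 : Ev E 2 (fun _ _ => 0) ∈ ae P := by
        filter_upwards [hstart] with ω hω
        intro j h1 h2 ℓ
        have : j = 1 := by omega
        subst this
        exact hω ℓ
      rw [measure_congr (eventuallyEq_univ.2 h3), measure_univ]
    rw [this]
    simp [pw]
  | succ n hn ih =>
    intro h hh
    rw [SH_succ hn, mem_image] at hh
    obtain ⟨⟨g, f⟩, hx, rfl⟩ := hh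
    rw [mem_product, Fintype.mem_piFinset] at hx
    have hf : ∀ i, f i < n := fun i => mem_range.1 (hx.2 i)
    have hp := SH_prop hn hx.1
    have e1 : Ev E (n + 1) (ext g n f) =
        {ω | (∀ j, 1 ≤ j → j < n → ∀ ℓ, E j ℓ ω = g j ℓ) ∧ ∀ ℓ, E n ℓ ω = f ℓ} := by
      ext ω
      constructor
      · intro hω
        refine ⟨fun j h1 h2 ℓ => ?_, fun ℓ => ?_⟩
        · have := hω j h1 (by omega) ℓ
          unfold ext at this
          rwa [Function.update_of_ne (by omega)] at this
        · have := hω n (by omega) (by omega) ℓ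
          unfold ext at this
          rwa [Function.update_self] at this
      · intro hω j h1 h2 ℓ
        by_cases hj : j = n
        · subst hj
          unfold ext
          rw [Function.update_self]; exact hω.2 ℓ
        · unfold ext
          rw [Function.update_of_ne hj]
          exact hω.1 j h1 (by omega) ℓ
    show P (Ev E (n + 1) (ext g n f)) = _
    rw [e1, hstep n hn (by omega) g f hf, pw_ext hn hp.1 hf, ENNReal.ofReal_mul (pw_nonneg hδ n g),
      ENNReal.ofReal_prod_of_nonneg (fun i _ => div_nonneg (X_pos hδ _ _ _).le (LL_pos hδ (by omega)).le)]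
    congr 1
    exact ih (by omega) hx.1

theorem bridge (hmeas : ∀ k ℓ, Measurable (E k ℓ)) {n : ℕ} (hn : 2 ≤ n) (hnN : n ≤ N) {F : Hist m → ℝ}
    (hF : ∀ e e' : Hist m, (∀ j, 1 ≤ j → j < n → e j = e' j) → F e = F e') :
    AEMeasurable (fun ω => F (fun k ℓ => E k ℓ ω)) P ∧
      ∫ ω, F (fun k ℓ => E k ℓ ω) ∂P = Ex m δ n F := by
  classical
  have hdisj : Set.PairwiseDisjoint (↑(SH m n)) (Ev E n) := by
    intro h hh h' hh' hne
    rw [Function.onFun, Set.disjoint_left]
    intro ω h1 h2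
    apply hne
    have p1 := SH_prop hn (mem_coe.1 hh)
    have p2 := SH_prop hn (mem_coe.1 hh')
    funext k
    by_cases hk0 : k = 0
    · subst hk0; rw [p1.2.1, p2.2.1]
    · by_cases hkn : k < n
      · funext ℓ
        rw [← h1 k (by omega) hkn ℓ, ← h2 k (by omega) hkn ℓ]
      · rw [p1.2.2 k (by omega), p2.2.2 k (by omega)]
  have hone : P (⋃ h ∈ SH m n, Ev E n h) = 1 := by
    rw [measure_biUnion_finset hdisj fun h _ => Ev_meas hmeas h]
    rw [sum_congr rfl fun h hh => Ev_prob hδ hstart hstep hn hnN hh,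
      ← ENNReal.ofReal_sum_of_nonneg fun h _ => pw_nonneg hδ n h]
    have := Ex_eq_sum (m := m) (δ := δ) hn (fun _ => 1)
    rw [Ex_const hδ hn] at this
    simp only [mul_one] at this
    rw [← this]; simp
  have hae : ∀ᵐ ω ∂P, F (fun k ℓ => E k ℓ ω) = ∑ h ∈ SH m n, (Ev E n h).indicator (fun _ => F h) ω := by
    have hU : MeasurableSet (⋃ h ∈ SH m n, Ev E n h) :=
      Finset.measurableSet_biUnion _ fun h _ => Ev_meas hmeas h
    have := (prob_compl_eq_zero_iff hU).2 hone
    have h2 : ∀ᵐ ω ∂P, ω ∈ (⋃ h ∈ SH m n, Ev E n h) := by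
      rw [ae_iff]; exact this
    filter_upwards [h2] with ω hω
    simp only [Set.mem_iUnion] at hω
    obtain ⟨h, hh, hω⟩ := hω
    rw [sum_eq_single_of_mem h hh]
    · rw [Set.indicator_of_mem hω]
      apply hF
      intro j h1 h2
      funext ℓ
      exact hω j h1 h2 ℓ
    · intro h' hh' hne
      rw [Set.indicator_of_notMem]
      intro hω'
      exact (Set.disjoint_left.1 (hdisj (mem_coe.2 hh) (mem_coe.2 hh') (Ne.symm hne)) hω) hω'
  have hmeas2 : Measurable (fun ω => ∑ h ∈ SH m n, (Ev E n h).indicator (fun _ => F h) ω) :=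
    Finset.measurable_sum _ fun h _ => measurable_const.indicator (Ev_meas hmeas h)
  refine ⟨⟨_, hmeas2, hae⟩, ?_⟩
  rw [integral_congr_ae hae, integral_finsetSum _ fun h _ =>
    (integrable_const (F h)).indicator (Ev_meas hmeas h), Ex_eq_sum hn]
  refine sum_congr rfl fun h hh => ?_
  rw [integral_indicator_const _ (Ev_meas hmeas h), Measure.real, Ev_prob hδ hstart hstep hn hnN hh,
    ENNReal.toReal_ofReal (pw_nonneg hδ n h)]
  rfl

end

end Pool.Agent.D0H29.PA
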