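import Mathlib
import Pool.Agent.D0H29.PA.Bridge

/-!
The model exists.
-/

set_option autoImplicit false

namespace Pool.Agent.D0H29.PA

open Finset Filter Topology MeasureTheory ProbabilityTheory
open scoped NNReal ENNReal

variable {m : ℕ} {δ : ℝ}

lemma Ex_stable (hδ : 0 < δ) {j : ℕ} (hj : 2 ≤ j) {F : Hist m → ℝ}
    (hF : ∀ e e' : Hist m, (∀ i, 1 ≤ i → i < j → e i = e' i) → F e = F e') {n : ℕ} (hn : j ≤ n) :
    Ex m δ n F = Ex m δ j F := by
  induction n, hn using Nat.le_induction with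
  | base => rfl
  | succ n hn ih =>
    rw [← ih, Ex_ST (by omega)]
    refine Ex_congr hδ (by omega) fun e he => ?_
    have : ST m δ n F e = EE m (range n) (fun v => X δ e n v / LL m δ n) (fun _ => F e) := by
      unfold ST
      congr 1
      funext f
      apply hF
      intro i h1 h2
      unfold ext
      rw [Function.update_of_ne (by omega)]
    rw [this, EE_const (prob_sum hδ (by omega) he)]

lemma EE_point {s : Finset ℕ} {p : ℕ → ℝ} {f : Fin m → ℕ} (hf : ∀ i, f i ∈ s) :
    EE m s p (fun g => if g = f then 1 else 0) = ∏ i, p (f i) := by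
  unfold EE
  rw [sum_eq_single f]
  · simp
  · intro g _ hg; simp [hg]
  · intro h; exact absurd (by rw [Fintype.mem_piFinset]; exact hf) h

/-- the law of the history up to the vertex `n - 1` -/
noncomputable def law (m : ℕ) (δ : ℝ) (n : ℕ) : @Measure (Hist m) ⊤ :=
  letI : MeasurableSpace (Hist m) := ⊤
  ∑ h ∈ SH m n, ENNReal.ofReal (pw δ n h) • Measure.dirac h

lemma law_apply (hδ : 0 < δ) {n : ℕ} (hn : 2 ≤ n) (A : Set (Hist m)) :
    law m δ n A = ENNReal.ofReal (Ex m δ n (A.indicator (fun _ => 1))) := by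
  let _ : MeasurableSpace (Hist m) := ⊤
  unfold law
  rw [Measure.finsetSum_apply, Ex_eq_sum hn, ENNReal.ofReal_sum_of_nonneg fun h _ =>
    mul_nonneg (pw_nonneg hδ n h) (Set.indicator_nonneg (fun _ _ => zero_le_one) _)]
  refine sum_congr rfl fun h _ => ?_
  rw [Measure.smul_apply, Measure.dirac_apply' _ (MeasurableSpace.measurableSet_top),
    ENNReal.ofReal_mul (pw_nonneg hδ n h), smul_eq_mul]
  congr 1
  by_cases hA : h ∈ A <;> simp [hA]

lemma law_prob (hδ : 0 < δ) {n : ℕ} (hn : 2 ≤ n) : law m δ n Set.univ = 1 := by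
  rw [law_apply hδ hn]
  simp only [Set.indicator_univ]
  rw [Ex_const hδ hn]; simp

lemma law_start (hδ : 0 < δ) {n : ℕ} (hn : 2 ≤ n) : law m δ n {h | ¬ ∀ ℓ, h 1 ℓ = 0} = 0 := by
  rw [law_apply hδ hn]
  have : Ex m δ n ({h : Hist m | ¬ ∀ ℓ, h 1 ℓ = 0}.indicator (fun _ => 1)) = Ex m δ n (fun _ => 0) := by
    refine Ex_congr hδ hn fun e he => ?_
    rw [Set.indicator_of_notMem]
    intro hne
    apply hne
    intro ℓ
    have := he 1 le_rfl (by omega) ℓ
    omega
  rw [this, Ex_const hδ hn]; simp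

lemma law_step (hδ : 0 < δ) {n k : ℕ} (hk : 2 ≤ k) (hkn : k < n) (h : Hist m) (f : Fin m → ℕ)
    (hf : ∀ i, f i < k) :
    law m δ n {e | (∀ j, 1 ≤ j → j < k → ∀ ℓ, e j ℓ = h j ℓ) ∧ ∀ ℓ, e k ℓ = f ℓ} =
      law m δ n {e | ∀ j, 1 ≤ j → j < k → ∀ ℓ, e j ℓ = h j ℓ} *
        ∏ ℓ, ENNReal.ofReal (X δ h k (f ℓ) / LL m δ k) := by
  rw [law_apply hδ (by omega), law_apply hδ (by omega)]
  set A := {e : Hist m | ∀ j, 1 ≤ j → j < k → ∀ ℓ, e j ℓ = h j ℓ} with hA
  set B := {e : Hist m | (∀ j, 1 ≤ j → j < k → ∀ ℓ, e j ℓ = h j ℓ) ∧ ∀ ℓ, e k ℓ = f ℓ} with hB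
  have hcast : ∀ e e' : Hist m, (∀ i, 1 ≤ i → i < k → e i = e' i) → (e ∈ A ↔ e' ∈ A) := by
    intro e e' hee
    rw [hA]
    constructor
    · intro he j h1 h2 ℓ; rw [← hee j h1 h2]; exact he j h1 h2 ℓ
    · intro he j h1 h2 ℓ; rw [hee j h1 h2]; exact he j h1 h2 ℓ
  have hBA : ∀ e, e ∈ B ↔ (e ∈ A ∧ e k = f) := by
    intro e
    rw [hA, hB]
    constructor
    · intro he; exact ⟨he.1, funext he.2⟩
    · intro he; exact ⟨he.1, fun ℓ => congrFun he.2 ℓ⟩
  have e1 : Ex m δ n (A.indicator (fun _ => 1)) = Ex m δ k (A.indicator (fun _ => 1)) := by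
    refine Ex_stable hδ hk ?_ hkn.le
    intro e e' hee
    by_cases h1 : e ∈ A
    · rw [Set.indicator_of_mem h1, Set.indicator_of_mem ((hcast e e' hee).1 h1)]
    · rw [Set.indicator_of_notMem h1, Set.indicator_of_notMem fun h2 => h1 ((hcast e e' hee).2 h2)]
  have e2 : Ex m δ n (B.indicator (fun _ => 1)) = Ex m δ (k + 1) (B.indicator (fun _ => 1)) := by
    refine Ex_stable hδ (by omega) ?_ (by omega)
    intro e e' hee
    have a := hcast e e' fun i h1 h2 => hee i h1 (by omega)
    have b := hee k (by omega) (by omega)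
    have c : e ∈ B ↔ e' ∈ B := by rw [hBA, hBA, a, b]
    by_cases h1 : e ∈ B
    · rw [Set.indicator_of_mem h1, Set.indicator_of_mem (c.1 h1)]
    · rw [Set.indicator_of_notMem h1, Set.indicator_of_notMem fun h2 => h1 (c.2 h2)]
  have e3 : Ex m δ (k + 1) (B.indicator (fun _ => 1)) =
      (∏ ℓ, X δ h k (f ℓ) / LL m δ k) * Ex m δ k (A.indicator (fun _ => 1)) := by
    rw [Ex_ST hk, ← Ex_mul hk]
    refine Ex_congr hδ hk fun e he => ?_
    have c1 : ∀ g : Fin m → ℕ, ext e k g ∈ B ↔ (e ∈ A ∧ g = f) := by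
      intro g
      have a := hcast (ext e k g) e fun i _ h2 => by
        unfold ext; rw [Function.update_of_ne (by omega)]
      have b : ext e k g k = g := by unfold ext; rw [Function.update_self]
      rw [hBA, a, b]
    by_cases hA' : e ∈ A
    · have c2 : ST m δ k (B.indicator (fun _ => 1)) e =
          EE m (range k) (fun v => X δ e k v / LL m δ k) (fun g => if g = f then 1 else 0) := by
        unfold ST
        congr 1
        funext g
        by_cases hg : g = f
        · rw [if_pos hg, Set.indicator_of_mem ((c1 g).2 ⟨hA', hg⟩)]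
        · rw [if_neg hg, Set.indicator_of_notMem fun h2 => hg ((c1 g).1 h2).2]
      rw [c2, EE_point fun i => mem_range.2 (hf i), Set.indicator_of_mem hA', mul_one]
      refine prod_congr rfl fun ℓ _ => ?_
      congr 1
      unfold X deg
      congr 2
      refine sum_congr rfl fun u hu => ?_
      rw [mem_range] at hu
      unfold mult
      by_cases huv : u = f ℓ
      · simp [huv]
      · rw [if_neg huv, if_neg huv]
        have h1 : 1 ≤ max u (f ℓ) := by omega
        have h2 : max u (f ℓ) < k := max_lt hu (hf ℓ)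
        have : e (max u (f ℓ)) = h (max u (f ℓ)) := funext fun l => hA' _ h1 h2 l
        rw [this]
    · have c2 : ST m δ k (B.indicator (fun _ => 1)) e =
          EE m (range k) (fun v => X δ e k v / LL m δ k) (fun _ => 0) := by
        unfold ST
        congr 1
        funext g
        rw [Set.indicator_of_notMem fun h2 => hA' ((c1 g).1 h2).1]
      rw [c2, EE_const (prob_sum hδ (by omega) he), Set.indicator_of_notMem hA', mul_zero]
  rw [e1, e2, e3, ENNReal.ofReal_mul (prod_nonneg fun ℓ _ =>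
    div_nonneg (X_pos hδ _ _ _).le (LL_pos hδ (by omega)).le),
    ENNReal.ofReal_prod_of_nonneg (fun i _ => div_nonneg (X_pos hδ _ _ _).le (LL_pos hδ (by omega)).le), mul_comm]

end Pool.Agent.D0H29.PA
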